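import Pool.Agent.Y609.WS.Curry

/-!
# Sobczyk's theorem: copies of `c_0` in separable spaces are complemented
-/

set_option autoImplicit false

open Filter Topology Finset
open scoped ZeroAtInfty

namespace Pool.Agent.Y609.WS

variable {𝕜 : Type} [RCLike 𝕜] {X : Type} [NormedAddCommGroup X] [NormedSpace 𝕜 X]

/-- The coordinate functionals of a copy of `c_0` extend with uniformly bounded norms. -/
lemma exists_coord (i : C₀(ℕ, 𝕜) →L[𝕜] X) {δ : ℝ} (hδ : 0 < δ) (hi : ∀ y, δ * ‖y‖ ≤ ‖i y‖) :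
    ∃ f : ℕ → X →L[𝕜] 𝕜, (∀ n, ‖f n‖ ≤ δ⁻¹) ∧ ∀ n y, f n (i y) = y n := by
  have hinj : Function.Injective (i : C₀(ℕ, 𝕜) →ₗ[𝕜] X) := by
    rw [injective_iff_map_eq_zero]
    intro y hy
    have h1 := hi y
    have h2 : ‖i y‖ = 0 := by
      have : i y = 0 := hy
      rw [this, norm_zero]
    rw [h2] at h1
    have h3 : ‖y‖ ≤ 0 := by
      by_contra hc
      push Not at hc
      have : 0 < δ * ‖y‖ := by positivity
      linarith
    exact norm_le_zero_iff.1 h3
  set e := LinearEquiv.ofInjective (i : C₀(ℕ, 𝕜) →ₗ[𝕜] X) hinj with he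
  have hes : ∀ v : LinearMap.range (i : C₀(ℕ, 𝕜) →ₗ[𝕜] X), i (e.symm v) = (v : X) := by
    intro v
    have := congrArg Subtype.val (e.apply_symm_apply v)
    exact this
  have hb : ∀ n (v : LinearMap.range (i : C₀(ℕ, 𝕜) →ₗ[𝕜] X)),
      ‖(((c0π 𝕜 𝕜 n : C₀(ℕ, 𝕜) →L[𝕜] 𝕜) : C₀(ℕ, 𝕜) →ₗ[𝕜] 𝕜).comp
        (e.symm : LinearMap.range (i : C₀(ℕ, 𝕜) →ₗ[𝕜] X) →ₗ[𝕜] C₀(ℕ, 𝕜))) v‖ ≤
        δ⁻¹ * ‖v‖ := by
    intro n v
    show ‖(e.symm v) n‖ ≤ _
    refine (c0_apply_le _ _).trans ?_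
    have h1 := hi (e.symm v)
    rw [hes] at h1
    rw [inv_mul_eq_div, le_div_iff₀ hδ, mul_comm]
    exact h1
  have key : ∀ n, ∃ f : X →L[𝕜] 𝕜, ‖f‖ ≤ δ⁻¹ ∧ ∀ y, f (i y) = y n := by
    intro n
    obtain ⟨g, hg1, hg2⟩ := exists_extension_norm_eq (𝕜 := 𝕜)
      (LinearMap.range (i : C₀(ℕ, 𝕜) →ₗ[𝕜] X)) (LinearMap.mkContinuous _ δ⁻¹ (hb n))
    refine ⟨g, ?_, fun y => ?_⟩
    · rw [hg2]
      exact LinearMap.mkContinuous_norm_le _ (by positivity) _
    · have h1 := hg1 (e y)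
      have h2 : ((e y : LinearMap.range (i : C₀(ℕ, 𝕜) →ₗ[𝕜] X)) : X) = i y := rfl
      rw [h2] at h1
      rw [h1]
      show (e.symm (e y)) n = y n
      rw [e.symm_apply_apply]
  choose f hf1 hf2 using key
  exact ⟨f, hf1, hf2⟩

theorem sobczyk [TopologicalSpace.SeparableSpace X] (i : C₀(ℕ, 𝕜) →L[𝕜] X) {δ : ℝ}
    (hδ : 0 < δ) (hi : ∀ y, δ * ‖y‖ ≤ ‖i y‖) : Compl 𝕜 C₀(ℕ, 𝕜) X := by
  obtain ⟨f, hf1, hf2⟩ := exists_coord i hδ hi
  set C := δ⁻¹ with hC
  have hC0 : 0 < C := by positivity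
  set x : ℕ → X := TopologicalSpace.denseSeq X with hx
  have hxd : DenseRange x := TopologicalSpace.denseRange_denseSeq X
  set a : ℕ → ℝ := fun j => (1 / 2) ^ j / (1 + ‖x j‖) with ha
  have hapos : ∀ j, 0 < a j := fun j => by simp only [ha]; positivity
  have hterm : ∀ (h : X →L[𝕜] 𝕜) (M : ℝ), ‖h‖ ≤ M → ∀ j, a j * ‖h (x j)‖ ≤ (1 / 2) ^ j * M := by
    intro h M hM j
    have h1 : ‖h (x j)‖ ≤ M * (1 + ‖x j‖) := by
      refine (h.le_opNorm _).trans ?_
      have := norm_nonneg (x j)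
      have hM0 := (norm_nonneg h).trans hM
      gcongr
      linarith
    calc a j * ‖h (x j)‖ ≤ a j * (M * (1 + ‖x j‖)) := by
          have := (hapos j).le
          gcongr
      _ = (1 / 2) ^ j * M := by
          simp only [ha]
          have : 1 + ‖x j‖ ≠ 0 := by positivity
          field_simp
  have hgeo : Summable (fun j : ℕ => ((1 : ℝ) / 2) ^ j) := summable_geometric_two
  have hsummable : ∀ h : X →L[𝕜] 𝕜, Summable fun j => a j * ‖h (x j)‖ := fun h =>
    Summable.of_nonneg_of_le (fun j => mul_nonneg (hapos j).le (norm_nonneg _))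
      (hterm h ‖h‖ le_rfl) (hgeo.mul_right _)
  set ρ : (X →L[𝕜] 𝕜) → ℝ := fun h => ∑' j, a j * ‖h (x j)‖ with hρ
  have hρ0 : ∀ h, 0 ≤ ρ h := fun h => tsum_nonneg fun j => mul_nonneg (hapos j).le (norm_nonneg _)
  -- functionals which vanish on the copy
  set K : Set (X →L[𝕜] 𝕜) := {g | ‖g‖ ≤ C ∧ ∀ y, g (i y) = 0} with hK
  have hK0 : (0 : X →L[𝕜] 𝕜) ∈ K := ⟨by rw [norm_zero]; exact hC0.le, fun y => rfl⟩
  have hne : Nonempty K := ⟨⟨0, hK0⟩⟩
  have hclaim : ∀ ε > 0, ∀ᶠ n in atTop, ∃ g ∈ K, ρ (f n - g) < ε := by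
    intro ε hε
    by_contra hc
    rw [not_eventually] at hc
    obtain ⟨τ, hτ, hτ2⟩ := extraction_of_frequently_atTop hc
    have hmem : ∀ n, StrongDual.toWeakDual (f (τ n)) ∈
        WeakDual.toStrongDual ⁻¹' Metric.closedBall (0 : StrongDual 𝕜 X) C := by
      intro n
      show f (τ n) ∈ Metric.closedBall (0 : StrongDual 𝕜 X) C
      rw [mem_closedBall_zero_iff]
      exact hf1 _
    obtain ⟨g, hg, σ, hσ, hlim⟩ := (WeakDual.isSeqCompact_closedBall 𝕜 X 0 C) hmem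
    set g' : X →L[𝕜] 𝕜 := WeakDual.toStrongDual g with hg'
    have hpt : ∀ v : X, Tendsto (fun n => f (τ (σ n)) v) atTop (𝓝 (g' v)) := by
      intro v
      exact ((WeakDual.eval_continuous v).tendsto g).comp hlim
    have hgK : g' ∈ K := by
      constructor
      · have : g' ∈ Metric.closedBall (0 : StrongDual 𝕜 X) C := hg
        rwa [mem_closedBall_zero_iff] at this
      · intro y
        apply tendsto_nhds_unique (hpt (i y))
        have h1 := (tendsto_c0 y).comp ((hτ.comp hσ).tendsto_atTop)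
        refine h1.congr fun n => ?_
        rw [hf2]
        rfl
    have hρlim : Tendsto (fun n => ρ (f (τ (σ n)) - g')) atTop (𝓝 (∑' _ : ℕ, (0 : ℝ))) := by
      refine tendsto_tsum_of_dominated_convergence (bound := fun j => (1 / 2) ^ j * (C + C))
        (hgeo.mul_right _) (fun j => ?_) (Eventually.of_forall fun n j => ?_)
      · have h1 := ((hpt (x j)).sub_const (g' (x j))).norm.const_mul (a j)
        rw [sub_self, norm_zero, mul_zero] at h1
        exact h1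
      · rw [Real.norm_of_nonneg (mul_nonneg (hapos j).le (norm_nonneg _))]
        exact hterm _ _ ((norm_sub_le _ _).trans (add_le_add (hf1 _) hgK.1)) j
    rw [tsum_zero] at hρlim
    obtain ⟨n, hn⟩ := (hρlim.eventually_lt_const hε).exists
    exact hτ2 (σ n) ⟨g', hgK, hn⟩
  -- nearly optimal choices
  have hbdd : ∀ n, BddBelow (Set.range fun g : K => ρ (f n - g.1)) := fun n =>
    ⟨0, by rintro _ ⟨g, rfl⟩; exact hρ0 _⟩
  have hchoose : ∀ n : ℕ, ∃ g : K, ρ (f n - g.1) < (⨅ g : K, ρ (f n - g.1)) + 1 / ((n : ℝ) + 1) := by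
    intro n
    exact exists_lt_of_ciInf_lt (by
      have : (0 : ℝ) < 1 / ((n : ℝ) + 1) := by positivity
      linarith)
  choose g hg using hchoose
  have hρ_lim : Tendsto (fun n => ρ (f n - (g n).1)) atTop (𝓝 0) := by
    rw [Metric.tendsto_atTop]
    intro ε hε
    obtain ⟨N, hN⟩ := eventually_atTop.1 ((hclaim (ε / 2) (half_pos hε)).and
      ((tendsto_one_div_add_atTop_nhds_zero_nat (𝕜 := ℝ)).eventually_lt_const (half_pos hε)))
    refine ⟨N, fun n hn => ?_⟩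
    obtain ⟨⟨h, hh1, hh2⟩, h3⟩ := hN n hn
    rw [dist_zero_right, Real.norm_of_nonneg (hρ0 _)]
    have h4 : (⨅ g : K, ρ (f n - g.1)) ≤ ρ (f n - h) := ciInf_le (hbdd n) ⟨h, hh1⟩
    have h5 := hg n
    linarith
  set q : ℕ → X →L[𝕜] 𝕜 := fun n => f n - (g n).1 with hq
  have hqn : ∀ n v, ‖q n v‖ ≤ (C + C) * ‖v‖ := by
    intro n v
    refine ((q n).le_opNorm v).trans ?_
    have : ‖q n‖ ≤ C + C := (norm_sub_le _ _).trans (add_le_add (hf1 _) (g n).2.1)
    gcongr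
  have hqx : ∀ j, Tendsto (fun n => q n (x j)) atTop (𝓝 0) := by
    intro j
    have h1 : Tendsto (fun n => (a j)⁻¹ * ρ (q n)) atTop (𝓝 ((a j)⁻¹ * 0)) :=
      hρ_lim.const_mul _
    rw [mul_zero] at h1
    refine squeeze_zero_norm (fun n => ?_) h1
    have h2 : a j * ‖q n (x j)‖ ≤ ρ (q n) :=
      (hsummable (q n)).le_tsum j (fun k _ => mul_nonneg (hapos k).le (norm_nonneg _))
    rw [inv_mul_eq_div, le_div_iff₀ (hapos j), mul_comm]
    exact h2
  have hqv : ∀ v, Tendsto (fun n => q n v) atTop (𝓝 0) := by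
    intro v
    rw [Metric.tendsto_atTop]
    intro ε hε
    obtain ⟨j, hj⟩ := hxd.exists_dist_lt v (show 0 < ε / (2 * (C + C)) by positivity)
    obtain ⟨N, hN⟩ := Metric.tendsto_atTop.1 (hqx j) (ε / 2) (half_pos hε)
    refine ⟨N, fun n hn => ?_⟩
    have h1 := hN n hn
    rw [dist_zero_right] at h1 ⊢
    rw [dist_eq_norm] at hj
    have e1 : q n v = q n (v - x j) + q n (x j) := by rw [map_sub]; ring
    rw [e1]
    refine lt_of_le_of_lt (norm_add_le _ _) ?_
    have h2 := hqn n (v - x j)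
    have h3 : (C + C) * ‖v - x j‖ < (C + C) * (ε / (2 * (C + C))) := by gcongr
    have h4 : (C + C) * (ε / (2 * (C + C))) = ε / 2 := by field_simp
    linarith
  obtain ⟨P, hP⟩ : ∃ P : X →L[𝕜] C₀(ℕ, 𝕜), ∀ v n, P v n = q n v :=
    ⟨LinearMap.mkContinuous
      { toFun := fun v => mk0 (fun n => q n v) (hqv v)
        map_add' := fun u v => by
          apply ZeroAtInftyContinuousMap.ext; intro n
          rw [ZeroAtInftyContinuousMap.add_apply, mk0_apply, mk0_apply, mk0_apply, map_add]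
        map_smul' := fun c v => by
          apply ZeroAtInftyContinuousMap.ext; intro n
          rw [ZeroAtInftyContinuousMap.smul_apply, mk0_apply, mk0_apply, map_smul]
          rfl } (C + C) (fun v => by
        rw [c0_norm_le (by positivity)]
        intro n
        exact hqn n v), fun _ _ => rfl⟩
  refine ⟨i, P, fun y => ?_⟩
  apply ZeroAtInftyContinuousMap.ext
  intro n
  rw [hP, hq]
  show f n (i y) - (g n).1 (i y) = y n
  rw [hf2, (g n).2.2 y, sub_zero]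

end Pool.Agent.Y609.WS
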