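import Pool.Agent.Y609.WS.Ops

/-!
# A compact operator with dense range into a given separable space
-/

set_option autoImplicit false

open Filter Topology Finset

namespace Pool.Agent.Y609.WS

variable {𝕜 : Type} [RCLike 𝕜] {H : Type} [NormedAddCommGroup H] [NormedSpace 𝕜 H]

lemma not_finiteDimensional (D : Data 𝕜 H) : ¬ FiniteDimensional 𝕜 H := by
  intro hfd
  have hM := D.hM
  set b := Module.finBasis 𝕜 H with hb
  have h1 : Tendsto (fun k => ∑ i, (b.repr (D.z k) i) • b i) atTop
      (𝓝 (∑ i, (0 : 𝕜) • b i)) := by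
    apply tendsto_finsetSum
    intro i _
    apply Tendsto.smul_const
    exact D.weak (LinearMap.toContinuousLinearMap (b.coord i))
  simp only [b.sum_repr, zero_smul, Finset.sum_const_zero] at h1
  obtain ⟨k, hk⟩ := ((tendsto_zero_iff_norm_tendsto_zero.1 h1).eventually_lt_const
    (show (0 : ℝ) < 1 / D.M by positivity)).exists
  have h2 := D.hf k (D.z k)
  rw [D.fz, norm_one] at h2
  have h3 : D.M * ‖D.z k‖ < D.M * (1 / D.M) := by gcongr
  rw [mul_one_div_cancel (by positivity)] at h3
  linarith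

lemma exists_biorth (h : ¬ FiniteDimensional 𝕜 H) :
    ∃ (e : ℕ → H) (ψ : ℕ → H →L[𝕜] 𝕜), (∀ n, ψ n (e n) = 1) ∧
      ∀ m n, m ≠ n → ψ m (e n) = 0 := by
  have hsymm : Std.Symm (fun x y : H × (H →L[𝕜] 𝕜) => x.2 y.1 = 0 ∧ y.2 x.1 = 0) :=
    ⟨fun x y hxy => ⟨hxy.2, hxy.1⟩⟩
  obtain ⟨f, hf1, hf2⟩ := exists_seq_of_forall_finset_exists'
    (fun x : H × (H →L[𝕜] 𝕜) => x.2 x.1 = 1) (fun x y => x.2 y.1 = 0 ∧ y.2 x.1 = 0) (by
      intro s _
      classical
      set U : Submodule 𝕜 H := Submodule.span 𝕜 ((s.image Prod.fst : Finset H) : Set H) with hU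
      have hUfd : FiniteDimensional 𝕜 U := FiniteDimensional.span_finset 𝕜 _
      set Φ : H →ₗ[𝕜] ((x : s) → 𝕜) := LinearMap.pi fun x => (x.1.2 : H →ₗ[𝕜] 𝕜) with hΦ
      obtain ⟨w, hw1, hw2⟩ : ∃ w, w ∈ LinearMap.ker Φ ∧ w ∉ U := by
        by_contra hc
        push Not at hc
        apply h
        have hle : LinearMap.ker Φ ≤ U := hc
        have hk : (LinearMap.ker Φ).FG := by
          have : FiniteDimensional 𝕜 (LinearMap.ker Φ) :=
            Submodule.finiteDimensional_of_le hle
          exact (Submodule.fg_iff_finiteDimensional _).2 this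
        have : (⊤ : Submodule 𝕜 H).FG := by
          apply Submodule.fg_of_fg_map_of_fg_inf_ker Φ
          · exact (Submodule.fg_iff_finiteDimensional _).2 inferInstance
          · rwa [top_inf_eq]
        exact Module.finite_def.2 this
      obtain ⟨P, hP⟩ := Submodule.ClosedComplemented.of_finiteDimensional (𝕜 := 𝕜) U
      have hne : w - (P w : H) ≠ 0 := by
        intro h0
        apply hw2
        rw [sub_eq_zero.1 h0]
        exact (P w).2
      obtain ⟨g, hg⟩ := SeparatingDual.exists_eq_one (R := 𝕜) hne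
      refine ⟨(w, g.comp (ContinuousLinearMap.id 𝕜 H - U.subtypeL.comp P)), ?_, ?_⟩
      · simpa using hg
      · intro x hx
        constructor
        · have := congrFun (LinearMap.mem_ker.1 hw1) ⟨x, hx⟩
          exact this
        · have hxU : x.1 ∈ U := by
            apply Submodule.subset_span
            exact Finset.mem_coe.2 (Finset.mem_image_of_mem _ hx)
          have h2 : (P x.1 : H) = x.1 := by
            have := hP ⟨x.1, hxU⟩
            exact congrArg Subtype.val this
          simp [h2])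
  refine ⟨fun n => (f n).1, fun n => (f n).2, hf1, fun m n hmn => ?_⟩
  exact (hf2 hmn).1

theorem exists_R (D : Data 𝕜 H) (Z : Type) [NormedAddCommGroup Z] [NormedSpace 𝕜 Z]
    [CompleteSpace Z] [TopologicalSpace.SeparableSpace Z] :
    ∃ R : H →L[𝕜] Z, DenseRange R ∧ Tendsto (fun k => R (D.z k)) atTop (𝓝 0) := by
  have hM := D.hM
  obtain ⟨e, ψ, h1, h0⟩ := exists_biorth (not_finiteDimensional D)
  set d : ℕ → Z := TopologicalSpace.denseSeq Z with hd
  set a : ℕ → ℝ := fun j => (1 / 2) ^ j / ((1 + ‖ψ j‖) * (1 + ‖d j‖)) with ha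
  have hapos : ∀ j, 0 < a j := fun j => by simp only [ha]; positivity
  set t : ℕ → (H →L[𝕜] Z) := fun j => ((a j : ℝ) : 𝕜) • (ψ j).smulRight (d j) with ht
  have hta : ∀ j v, t j v = ((a j : ℝ) : 𝕜) • (ψ j v) • d j := by
    intro j v; simp [ht]
  have htn : ∀ j, ‖t j‖ ≤ (1 / 2) ^ j := by
    intro j
    simp only [ht]
    rw [norm_smul, RCLike.norm_ofReal, abs_of_pos (hapos j),
      ContinuousLinearMap.norm_smulRight_apply]
    simp only [ha]
    rw [div_mul_eq_mul_div, div_le_iff₀ (by positivity)]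
    have := norm_nonneg (ψ j)
    have := norm_nonneg (d j)
    gcongr <;> linarith
  have hgeo : Summable (fun j : ℕ => ((1 : ℝ) / 2) ^ j) := summable_geometric_two
  have hsum : Summable t := Summable.of_norm_bounded hgeo htn
  have hRa : ∀ v, (∑' j, t j) v = ∑' j, t j v := by
    intro v
    exact (ContinuousLinearMap.apply 𝕜 Z v).map_tsum hsum
  refine ⟨∑' j, t j, ?_, ?_⟩
  · have hrange : Set.range d ⊆ Set.range (∑' j, t j : H →L[𝕜] Z) := by
      rintro _ ⟨j, rfl⟩
      refine ⟨((((a j)⁻¹ : ℝ) : 𝕜)) • e j, ?_⟩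
      rw [map_smul, hRa, tsum_eq_single j]
      · rw [hta, h1, one_smul, smul_smul, ← RCLike.ofReal_mul, inv_mul_cancel₀ (hapos j).ne',
          RCLike.ofReal_one, one_smul]
      · intro i hi
        rw [hta, h0 i j hi, zero_smul, smul_zero]
    exact (TopologicalSpace.denseRange_denseSeq Z).mono hrange
  · have key : Tendsto (fun k => ∑' j, t j (D.z k)) atTop (𝓝 (∑' _ : ℕ, (0 : Z))) := by
      refine tendsto_tsum_of_dominated_convergence (bound := fun j => (1 / 2) ^ j * D.M)
        (hgeo.mul_right _) (fun j => ?_) (Eventually.of_forall fun k j => ?_)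
      · have h2 : Tendsto (fun k => ((a j : ℝ) : 𝕜) • (ψ j (D.z k)) • d j) atTop
            (𝓝 (((a j : ℝ) : 𝕜) • (0 : 𝕜) • d j)) :=
          ((D.weak (ψ j)).smul_const (d j)).const_smul _
        rw [zero_smul, smul_zero] at h2
        refine h2.congr fun k => ?_
        rw [hta]
      · refine ((t j).le_opNorm _).trans ?_
        have := htn j
        have := D.hz k
        gcongr
    rw [tsum_zero] at key
    refine key.congr fun k => ?_
    rw [hRa]

end Pool.Agent.Y609.WS
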