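import Pool.Agent.Y609.WS.Core

/-!
# `c_0`-sums
-/

set_option autoImplicit false

open Filter Topology Finset
open scoped ZeroAtInfty

namespace Pool.Agent.Y609.WS

variable {𝕜 : Type} [RCLike 𝕜] {H : Type} [NormedAddCommGroup H] [NormedSpace 𝕜 H]

lemma cocompact_nat : cocompact ℕ = atTop := by
  rw [cocompact_eq_cofinite, Nat.cofinite_eq_atTop]

/-- The sequence `x` which tends to zero, as an element of `c_0`. -/
def mk0 (x : ℕ → H) (hx : Tendsto x atTop (𝓝 0)) : C₀(ℕ, H) where
  toFun := x
  continuous_toFun := continuous_of_discreteTopology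
  zero_at_infty' := by rw [cocompact_nat]; exact hx

lemma mk0_apply (x : ℕ → H) (hx : Tendsto x atTop (𝓝 0)) (i : ℕ) : mk0 x hx i = x i := rfl

lemma tendsto_c0 (x : C₀(ℕ, H)) : Tendsto (fun i => x i) atTop (𝓝 0) := by
  have := x.zero_at_infty'
  rw [cocompact_nat] at this
  exact this

lemma c0_norm_le {x : C₀(ℕ, H)} {C : ℝ} (hC : 0 ≤ C) : ‖x‖ ≤ C ↔ ∀ i, ‖x i‖ ≤ C := by
  rw [← ZeroAtInftyContinuousMap.norm_toBCF_eq_norm, BoundedContinuousFunction.norm_le hC]
  rfl

lemma c0_apply_le (x : C₀(ℕ, H)) (i : ℕ) : ‖x i‖ ≤ ‖x‖ := (c0_norm_le (norm_nonneg x)).1 le_rfl i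

/-- The embedding of the `i`-th summand. -/
noncomputable def c0ι (𝕜 : Type) [RCLike 𝕜] (H : Type) [NormedAddCommGroup H] [NormedSpace 𝕜 H]
    (i : ℕ) : H →L[𝕜] C₀(ℕ, H) :=
  LinearMap.mkContinuous
    { toFun := fun v => mk0 (Pi.single i v) (by
        apply tendsto_const_nhds.congr'
        filter_upwards [eventually_gt_atTop i] with j hj
        rw [Pi.single_eq_of_ne hj.ne'])
      map_add' := fun u v => by
        apply ZeroAtInftyContinuousMap.ext
        intro j
        rw [ZeroAtInftyContinuousMap.add_apply, mk0_apply, mk0_apply, mk0_apply, Pi.single_add]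
        rfl
      map_smul' := fun c v => by
        apply ZeroAtInftyContinuousMap.ext
        intro j
        rw [ZeroAtInftyContinuousMap.smul_apply, mk0_apply, mk0_apply, Pi.single_smul]
        rfl } 1 (fun v => by
    rw [one_mul, c0_norm_le (norm_nonneg v)]
    intro j
    show ‖(Pi.single i v : ℕ → H) j‖ ≤ ‖v‖
    rw [Pi.single_apply]
    split_ifs
    · exact le_rfl
    · rw [norm_zero]; exact norm_nonneg v)

/-- The coordinates. -/
noncomputable def c0π (𝕜 : Type) [RCLike 𝕜] (H : Type) [NormedAddCommGroup H] [NormedSpace 𝕜 H]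
    (i : ℕ) : C₀(ℕ, H) →L[𝕜] H :=
  LinearMap.mkContinuous
    { toFun := fun x => x i
      map_add' := fun _ _ => rfl
      map_smul' := fun _ _ => rfl } 1 (fun x => by
    rw [one_mul]; exact c0_apply_le x i)

/-- The shift with weights. -/
noncomputable def c0Shift (w : ℕ → H →L[𝕜] H) {K : ℝ} (hK : 0 ≤ K)
    (hw : ∀ i v, ‖w i v‖ ≤ K * ‖v‖) : C₀(ℕ, H) →L[𝕜] C₀(ℕ, H) :=
  LinearMap.mkContinuous
    { toFun := fun x => mk0 (fun i => w i (x (i + 1))) (by
        have h1 : Tendsto (fun i => K * ‖x (i + 1)‖) atTop (𝓝 (K * 0)) :=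
          ((tendsto_zero_iff_norm_tendsto_zero.1 (tendsto_c0 x)).comp
            (tendsto_add_atTop_nat 1)).const_mul K
        rw [mul_zero] at h1
        exact squeeze_zero_norm (fun i => hw _ _) h1)
      map_add' := fun x y => by
        apply ZeroAtInftyContinuousMap.ext
        intro j
        rw [ZeroAtInftyContinuousMap.add_apply, mk0_apply, mk0_apply, mk0_apply,
          ZeroAtInftyContinuousMap.add_apply, map_add]
      map_smul' := fun c x => by
        apply ZeroAtInftyContinuousMap.ext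
        intro j
        rw [ZeroAtInftyContinuousMap.smul_apply, mk0_apply, mk0_apply,
          ZeroAtInftyContinuousMap.smul_apply, map_smul]
        rfl } K (fun x => by
    rw [c0_norm_le (by positivity)]
    intro j
    show ‖w j (x (j + 1))‖ ≤ K * ‖x‖
    refine (hw _ _).trans ?_
    have := c0_apply_le x (j + 1)
    gcongr)

/-- The `c_0`-sum of copies of `H`. -/
noncomputable def c0Sum (𝕜 : Type) [RCLike 𝕜] (H : Type) [NormedAddCommGroup H]
    [NormedSpace 𝕜 H] : SumSp 𝕜 H C₀(ℕ, H) where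
  ι := c0ι 𝕜 H
  π := c0π 𝕜 H
  pi_iota := by
    intro i j v
    show (Pi.single j v : ℕ → H) i = _
    rw [Pi.single_apply]
  mono := by
    intro x y K hK h
    rw [c0_norm_le (by positivity)]
    intro i
    refine (h i).trans ?_
    have := c0_apply_le y i
    have e : ‖c0π 𝕜 H i y‖ ≤ ‖y‖ := this
    gcongr
  norm_iota := by
    intro i v
    have h1 : ‖c0ι 𝕜 H i v‖ ≤ ‖v‖ := by
      rw [c0_norm_le (norm_nonneg v)]
      intro j
      show ‖(Pi.single i v : ℕ → H) j‖ ≤ ‖v‖
      rw [Pi.single_apply]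
      split_ifs
      · exact le_rfl
      · rw [norm_zero]; exact norm_nonneg v
    exact h1
  norm_pi := fun i x => c0_apply_le x i
  dense := by
    intro x ε hε
    obtain ⟨N, hN⟩ := Metric.tendsto_atTop.1 (tendsto_c0 x) (ε / 2) (by positivity)
    refine ⟨N, ?_⟩
    have h1 : ‖x - ∑ i ∈ range N, c0ι 𝕜 H i (c0π 𝕜 H i x)‖ ≤ ε / 2 := by
      rw [c0_norm_le (by positivity)]
      intro j
      rw [ZeroAtInftyContinuousMap.sub_apply]
      have h2 : (∑ i ∈ range N, c0ι 𝕜 H i (c0π 𝕜 H i x)) j =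
          ∑ i ∈ range N, (Pi.single i (x i) : ℕ → H) j := by
        have : ∀ y : C₀(ℕ, H), y j = c0π 𝕜 H j y := fun _ => rfl
        rw [this, map_sum]
        rfl
      rw [h2]
      simp only [Pi.single_apply]
      rw [Finset.sum_ite_eq]
      by_cases hj : j < N
      · rw [if_pos (Finset.mem_range.2 hj), sub_self, norm_zero]; positivity
      · rw [if_neg (by simpa using hj), sub_zero]
        have := hN j (by omega)
        rw [dist_zero_right] at this
        exact this.le
    linarith
  shift := by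
    intro w K hK hw
    refine ⟨c0Shift w hK hw, fun x i => rfl, fun x => ?_⟩
    rw [c0_norm_le (by positivity)]
    intro j
    show ‖w j (x (j + 1))‖ ≤ K * ‖x‖
    refine (hw _ _).trans ?_
    have := c0_apply_le x (j + 1)
    gcongr

end Pool.Agent.Y609.WS
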