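import Pool.Agent.Y609.WS.Ops

/-!
# The operator: a weighted shift on an infinite sum of copies of `H`, and one more space `Z`
-/

set_option autoImplicit false

open Filter Topology Finset

namespace Pool.Agent.Y609.WS

variable {𝕜 : Type} [RCLike 𝕜] {H : Type} [NormedAddCommGroup H] [NormedSpace 𝕜 H]
  {B : Type} [NormedAddCommGroup B] [NormedSpace 𝕜 B]
  {Z : Type} [NormedAddCommGroup Z] [NormedSpace 𝕜 Z]

/-- An infinite sum of copies of `H`. -/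
structure SumSp (𝕜 : Type) [RCLike 𝕜] (H : Type) [NormedAddCommGroup H] [NormedSpace 𝕜 H]
    (B : Type) [NormedAddCommGroup B] [NormedSpace 𝕜 B] where
  /-- embeddings -/
  ι : ℕ → H →L[𝕜] B
  /-- coordinates -/
  π : ℕ → B →L[𝕜] H
  pi_iota : ∀ i j v, π i (ι j v) = if i = j then v else 0
  mono : ∀ (x y : B) (K : ℝ), 0 ≤ K → (∀ i, ‖π i x‖ ≤ K * ‖π i y‖) → ‖x‖ ≤ K * ‖y‖
  norm_iota : ∀ i v, ‖ι i v‖ ≤ ‖v‖
  norm_pi : ∀ i x, ‖π i x‖ ≤ ‖x‖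
  dense : ∀ x : B, ∀ ε > 0, ∃ N, ‖x - ∑ i ∈ range N, ι i (π i x)‖ < ε
  shift : ∀ (w : ℕ → H →L[𝕜] H) (K : ℝ), 0 ≤ K → (∀ i v, ‖w i v‖ ≤ K * ‖v‖) →
    ∃ T : B →L[𝕜] B, (∀ x i, π i (T x) = w i (π (i + 1) x)) ∧ ∀ x, ‖T x‖ ≤ K * ‖x‖

namespace SumSp

variable (S : SumSp 𝕜 H B)

include S in
lemma ext' {x y : B} (h : ∀ i, S.π i x = S.π i y) : x = y := by
  have h1 : ‖x - y‖ ≤ 0 * ‖(0 : B)‖ := by
    apply S.mono _ _ 0 le_rfl
    intro i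
    rw [map_sub, h i, sub_self]; simp
  rw [zero_mul] at h1
  exact sub_eq_zero.1 (norm_le_zero_iff.1 h1)

lemma pi_sum (N : ℕ) (g : ℕ → H) (i : ℕ) :
    S.π i (∑ j ∈ range N, S.ι j (g j)) = if i < N then g i else 0 := by
  rw [map_sum]
  simp only [S.pi_iota]
  rw [Finset.sum_ite_eq]
  simp

variable {S}

lemma P_pow {D : Data 𝕜 H} {L : ℝ} (hL : 0 < L) {T : B →L[𝕜] B}
    (hT : ∀ x i, S.π i (T x) = wt D L i (S.π (i + 1) x)) (n : ℕ) :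
    ∀ (x : B) (i : ℕ), P D L i (S.π i ((T ^ n) x)) = P D L (i + n) (S.π (i + n) x) := by
  induction n with
  | zero => intro x i; simp
  | succ n ih =>
    intro x i
    have e1 : (T ^ (n + 1)) x = T ((T ^ n) x) := by rw [pow_succ']; rfl
    rw [e1, hT, P_succ D hL, ih]
    congr 2
    · omega
    · congr 1; omega

/-- The whole operator on `Z × B`. -/
noncomputable def TX (S : SumSp 𝕜 H B) (R : H →L[𝕜] Z) (T : B →L[𝕜] B) :
    (Z × B) →L[𝕜] (Z × B) :=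
  ((R.comp (S.π 0)).comp (ContinuousLinearMap.snd 𝕜 Z B)).prod
    (T.comp (ContinuousLinearMap.snd 𝕜 Z B))

lemma TX_apply (R : H →L[𝕜] Z) (T : B →L[𝕜] B) (x : Z × B) :
    TX S R T x = (R (S.π 0 x.2), T x.2) := rfl

lemma TX_pow_snd (R : H →L[𝕜] Z) (T : B →L[𝕜] B) (n : ℕ) (x : Z × B) :
    (((TX S R T) ^ n) x).2 = (T ^ n) x.2 := by
  induction n with
  | zero => rfl
  | succ n ih =>
    rw [pow_succ', pow_succ']
    show ((TX S R T) (((TX S R T) ^ n) x)).2 = T ((T ^ n) x.2)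
    rw [TX_apply, ih]

lemma TX_pow_succ (R : H →L[𝕜] Z) (T : B →L[𝕜] B) (n : ℕ) (x : Z × B) :
    ((TX S R T) ^ (n + 1)) x = (R (S.π 0 ((T ^ n) x.2)), (T ^ (n + 1)) x.2) := by
  refine Prod.ext ?_ (TX_pow_snd R T (n + 1) x)
  rw [pow_succ']
  show ((TX S R T) (((TX S R T) ^ n) x)).1 = _
  rw [TX_apply, TX_pow_snd]

lemma norm_TX_le {R : H →L[𝕜] Z} {T : B →L[𝕜] B} {K : ℝ} (hR : ‖R‖ ≤ K)
    (hT : ∀ x, ‖T x‖ ≤ K * ‖x‖) (x : Z × B) : ‖TX S R T x‖ ≤ K * ‖x‖ := by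
  rw [TX_apply, Prod.norm_def]
  have h2 : ‖x.2‖ ≤ ‖x‖ := norm_snd_le x
  have hK : 0 ≤ K := (norm_nonneg R).trans hR
  refine max_le ?_ ?_
  · calc ‖R (S.π 0 x.2)‖ ≤ ‖R‖ * ‖S.π 0 x.2‖ := R.le_opNorm _
      _ ≤ K * ‖x‖ := by
        have := S.norm_pi 0 x.2
        gcongr
        exact this.trans h2
  · calc ‖T x.2‖ ≤ K * ‖x.2‖ := hT _
      _ ≤ K * ‖x‖ := by gcongr

lemma norm_TX_pow_le {R : H →L[𝕜] Z} {T : B →L[𝕜] B} {K : ℝ} (hR : ‖R‖ ≤ K)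
    (hT : ∀ x, ‖T x‖ ≤ K * ‖x‖) (m : ℕ) (x : Z × B) :
    ‖((TX S R T) ^ m) x‖ ≤ K ^ m * ‖x‖ := by
  have hK : 0 ≤ K := (norm_nonneg R).trans hR
  induction m with
  | zero => simp
  | succ m ih =>
    rw [pow_succ']
    show ‖TX S R T (((TX S R T) ^ m) x)‖ ≤ _
    calc ‖TX S R T (((TX S R T) ^ m) x)‖ ≤ K * ‖((TX S R T) ^ m) x‖ := norm_TX_le hR hT _
      _ ≤ K * (K ^ m * ‖x‖) := by gcongr
      _ = K ^ (m + 1) * ‖x‖ := by ring

/-- No orbit is dense. -/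
lemma not_dense {D : Data 𝕜 H} {L : ℝ} (hL : 1 ≤ L) {R : H →L[𝕜] Z} {T : B →L[𝕜] B}
    (hT : ∀ x i, S.π i (T x) = wt D L i (S.π (i + 1) x)) (x : Z × B) :
    ¬ Dense (Set.range fun n : ℕ => ((TX S R T) ^ n) x) := by
  intro hd
  have hM := D.hM
  have hM0 : 0 < D.M := by linarith
  set C : ℝ := D.M * ‖x.2‖ + D.M with hC
  obtain ⟨w, ⟨n, rfl⟩, hn⟩ := hd.exists_dist_lt ((0 : Z), S.ι 0 ((C : 𝕜) • D.y)) (zero_lt_one)
  rw [dist_eq_norm] at hn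
  have h1 : ‖S.ι 0 ((C : 𝕜) • D.y) - (T ^ n) x.2‖ < 1 := by
    refine lt_of_le_of_lt ?_ hn
    have := norm_snd_le (((0 : Z), S.ι 0 ((C : 𝕜) • D.y)) - ((TX S R T) ^ n) x)
    rw [Prod.snd_sub, TX_pow_snd] at this
    exact this
  have h2 : ‖S.π 0 (S.ι 0 ((C : 𝕜) • D.y) - (T ^ n) x.2)‖ < 1 := lt_of_le_of_lt (S.norm_pi _ _) h1
  rw [map_sub, S.pi_iota, if_pos rfl] at h2
  have h3 := D.hf (bl n) ((C : 𝕜) • D.y - S.π 0 ((T ^ n) x.2))
  rw [map_sub, map_smul, D.fy] at h3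
  have h4 : D.f (bl n) (S.π 0 ((T ^ n) x.2)) = D.f (bl n) (S.π n x.2) := by
    have := P_pow (S := S) (by linarith : 0 < L) hT n x.2 0
    rw [P_zero, zero_add] at this
    rw [this]
    unfold P
    rw [f_Rk]
  rw [h4] at h3
  have h5 : ‖D.f (bl n) (S.π n x.2)‖ ≤ D.M * ‖x.2‖ := by
    refine (D.hf _ _).trans ?_
    have := S.norm_pi n x.2
    gcongr
  have h6 : ‖(C : 𝕜) • (1 : 𝕜)‖ = C := by
    rw [smul_eq_mul, mul_one, RCLike.norm_ofReal, abs_of_nonneg (by positivity)]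
  have h7 := norm_sub_norm_le ((C : 𝕜) • (1 : 𝕜)) (D.f (bl n) (S.π n x.2))
  rw [h6] at h7
  have h8 : D.M * ‖(C : 𝕜) • D.y - S.π 0 ((T ^ n) x.2)‖ < D.M * 1 := by gcongr
  linarith

/-- The correction. -/
noncomputable def cor (S : SumSp 𝕜 H B) (D : Data 𝕜 H) (L : ℝ) (k N : ℕ) (x : B) : B :=
  ∑ i ∈ range N, S.ι i (lam D L k i (S.π i x) • D.z k)

lemma cor_sub (D : Data 𝕜 H) (L : ℝ) (k N : ℕ) (x y : B) :
    cor S D L k N (x - y) = cor S D L k N x - cor S D L k N y := by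
  unfold cor
  rw [← Finset.sum_sub_distrib]
  apply Finset.sum_congr rfl
  intro i _
  rw [map_sub, lam_sub, sub_smul, map_sub]

lemma norm_cor_le (D : Data 𝕜 H) {L : ℝ} (hL : 1 ≤ L) {k N : ℕ} (hk : 1 ≤ k) (hN : N ≤ 3 ^ k)
    (x : B) : ‖cor S D L k N x‖ ≤ 4 * D.M ^ 4 * ‖x‖ := by
  have hM := D.hM
  apply S.mono _ _ _ (by positivity)
  intro i
  unfold cor
  rw [S.pi_sum]
  split_ifs with h
  · rw [norm_smul]
    have h1 := norm_lam_le D hL (bl_lt hk (h.trans_le hN)) (S.π i x)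
    have h2 := D.hz k
    calc ‖lam D L k i (S.π i x)‖ * ‖D.z k‖ ≤ (4 * D.M ^ 3 * ‖S.π i x‖) * D.M := by gcongr
      _ = 4 * D.M ^ 4 * ‖S.π i x‖ := by ring
  · simp; positivity

/-- The corrections are weakly null. -/
lemma cor_weak (D : Data 𝕜 H) {L : ℝ} (hL : 1 ≤ L) (φ : B →L[𝕜] 𝕜) (x : B)
    {κ N : ℕ → ℕ} (hκ : Tendsto κ atTop atTop) (hκ1 : ∀ j, 1 ≤ κ j) (hN : ∀ j, N j ≤ 3 ^ κ j) :
    Tendsto (fun j => φ (cor S D L (κ j) (N j) x)) atTop (𝓝 0) := by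
  have hM := D.hM
  -- finitely many coordinates
  have key : ∀ N' : ℕ, Tendsto (fun j => ∑ i ∈ range N',
      4 * D.M ^ 3 * ‖S.π i x‖ * ‖φ (S.ι i (D.z (κ j)))‖) atTop (𝓝 0) := by
    intro N'
    have h0 : (0 : ℝ) = ∑ i ∈ range N', 4 * D.M ^ 3 * ‖S.π i x‖ * 0 := by simp
    rw [h0]
    apply tendsto_finsetSum
    intro i _
    apply Tendsto.const_mul
    have h1 := (D.weak (φ.comp (S.ι i))).comp hκ
    exact tendsto_zero_iff_norm_tendsto_zero.1 h1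
  rw [Metric.tendsto_atTop]
  intro ε hε
  have hC : 0 < ‖φ‖ * (4 * D.M ^ 4) + 1 := by positivity
  obtain ⟨N', hN'⟩ := S.dense x (ε / 2 / (‖φ‖ * (4 * D.M ^ 4) + 1)) (by positivity)
  obtain ⟨J, hJ⟩ := Metric.tendsto_atTop.1 (key N') (ε / 2) (by positivity)
  refine ⟨J, fun j hj => ?_⟩
  rw [dist_zero_right]
  set x' := ∑ i ∈ range N', S.ι i (S.π i x) with hx'
  have e1 : cor S D L (κ j) (N j) x = cor S D L (κ j) (N j) (x - x') +
      cor S D L (κ j) (N j) x' := by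
    rw [cor_sub]; abel
  rw [e1, map_add]
  have h2 : ‖φ (cor S D L (κ j) (N j) (x - x'))‖ < ε / 2 := by
    calc ‖φ (cor S D L (κ j) (N j) (x - x'))‖ ≤ ‖φ‖ * ‖cor S D L (κ j) (N j) (x - x')‖ :=
          φ.le_opNorm _
      _ ≤ ‖φ‖ * (4 * D.M ^ 4 * ‖x - x'‖) := by
          gcongr
          exact norm_cor_le D hL (hκ1 j) (hN j) _
      _ = (‖φ‖ * (4 * D.M ^ 4)) * ‖x - x'‖ := by ring
      _ ≤ (‖φ‖ * (4 * D.M ^ 4) + 1) * ‖x - x'‖ := by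
          have := norm_nonneg (x - x')
          nlinarith
      _ < (‖φ‖ * (4 * D.M ^ 4) + 1) * (ε / 2 / (‖φ‖ * (4 * D.M ^ 4) + 1)) := by gcongr
      _ = ε / 2 := by field_simp
  have h3 : ‖φ (cor S D L (κ j) (N j) x')‖ < ε / 2 := by
    have h4 := hJ j hj
    rw [dist_zero_right, Real.norm_of_nonneg (Finset.sum_nonneg fun i _ => by positivity)] at h4
    refine lt_of_le_of_lt ?_ h4
    unfold cor
    rw [map_sum]
    refine (norm_sum_le _ _).trans ?_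
    have h5 : ∀ i ∈ range (N j), ‖φ (S.ι i (lam D L (κ j) i (S.π i x') • D.z (κ j)))‖ ≤
        if i < N' then 4 * D.M ^ 3 * ‖S.π i x‖ * ‖φ (S.ι i (D.z (κ j)))‖ else 0 := by
      intro i hi
      rw [hx', S.pi_sum]
      split_ifs with h
      · rw [map_smul, map_smul, norm_smul]
        have := norm_lam_le D hL (bl_lt (hκ1 j) ((Finset.mem_range.1 hi).trans_le (hN j))) (S.π i x)
        gcongr
      · have : lam D L (κ j) i (0 : H) = 0 := by simp [lam]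
        rw [this]; simp
    refine (Finset.sum_le_sum h5).trans ?_
    rw [← Finset.sum_filter]
    apply Finset.sum_le_sum_of_subset_of_nonneg
    · intro i hi
      rw [Finset.mem_filter] at hi
      exact Finset.mem_range.2 hi.2
    · intro i _ _; positivity
  exact lt_of_le_of_lt (norm_add_le _ _) (by linarith)

end SumSp

end Pool.Agent.Y609.WS
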