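import Pool.Agent.Y609.WS.Lp
import Pool.Agent.Y609.WS.C0

/-!
# `ℓ_p` contains a complemented copy of the `ℓ_p`-sum of copies of `ℓ_p`; the same for `c_0`
-/

set_option autoImplicit false

open Filter Topology Finset
open scoped ENNReal ZeroAtInfty

namespace Pool.Agent.Y609.WS

/-- `Y` is isomorphic to a complemented subspace of `X`. -/
def Compl (𝕜 : Type) [RCLike 𝕜] (Y X : Type) [NormedAddCommGroup Y] [NormedSpace 𝕜 Y]
    [NormedAddCommGroup X] [NormedSpace 𝕜 X] : Prop :=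
  ∃ (i : Y →L[𝕜] X) (r : X →L[𝕜] Y), ∀ y, r (i y) = y

lemma Compl.trans {𝕜 : Type} [RCLike 𝕜] {W Y X : Type} [NormedAddCommGroup W] [NormedSpace 𝕜 W]
    [NormedAddCommGroup Y] [NormedSpace 𝕜 Y] [NormedAddCommGroup X] [NormedSpace 𝕜 X]
    (h1 : Compl 𝕜 W Y) (h2 : Compl 𝕜 Y X) : Compl 𝕜 W X := by
  obtain ⟨i1, r1, h1⟩ := h1
  obtain ⟨i2, r2, h2⟩ := h2
  exact ⟨i2.comp i1, r1.comp r2, fun w => by simp [h1, h2]⟩

variable {𝕜 : Type} [RCLike 𝕜]

section lp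

variable {p : ℝ≥0∞} [hp1 : Fact (1 ≤ p)]

lemma pair_inj (i : ℕ) : Function.Injective (fun t => Nat.pair i t) := by
  intro a b h
  have := congrArg Nat.unpair h
  simpa using this

lemma mem_row (hp : p ≠ ∞) (x : lp (fun _ : ℕ => 𝕜) p) (i : ℕ) :
    Memℓp (fun t : ℕ => x (Nat.pair i t)) p :=
  memℓp_gen (((lp.memℓp x).summable (toReal_pos p hp)).comp_injective (pair_inj i))

/-- The `i`-th row. -/
noncomputable def row (hp : p ≠ ∞) (x : lp (fun _ : ℕ => 𝕜) p) (i : ℕ) :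
    lp (fun _ : ℕ => 𝕜) p := ⟨fun t : ℕ => x (Nat.pair i t), mem_row hp x i⟩

lemma row_apply (hp : p ≠ ∞) (x : lp (fun _ : ℕ => 𝕜) p) (i t : ℕ) :
    row hp x i t = x (Nat.pair i t) := rfl

lemma summable_rows (hp : p ≠ ∞) (x : lp (fun _ : ℕ => 𝕜) p) :
    Summable (fun q : ℕ × ℕ => ‖x (Nat.pair q.1 q.2)‖ ^ p.toReal) := by
  have h := ((lp.memℓp x).summable (toReal_pos p hp))
  exact (Nat.pairEquiv.summable_iff (f := fun n => ‖x n‖ ^ p.toReal)).2 h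

lemma norm_row (hp : p ≠ ∞) (x : lp (fun _ : ℕ => 𝕜) p) (i : ℕ) :
    ‖row hp x i‖ ^ p.toReal = ∑' t, ‖x (Nat.pair i t)‖ ^ p.toReal := by
  rw [lp.norm_rpow_eq_tsum (toReal_pos p hp)]
  rfl

lemma tsum_rows (hp : p ≠ ∞) (x : lp (fun _ : ℕ => 𝕜) p) :
    ∑' i, ‖row hp x i‖ ^ p.toReal = ‖x‖ ^ p.toReal := by
  simp only [norm_row]
  rw [lp.norm_rpow_eq_tsum (toReal_pos p hp) x]
  rw [← (summable_rows hp x).tsum_prod]
  exact Nat.pairEquiv.tsum_eq (fun n => ‖x n‖ ^ p.toReal)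

lemma mem_rows (hp : p ≠ ∞) (x : lp (fun _ : ℕ => 𝕜) p) :
    Memℓp (fun i : ℕ => row hp x i) p := by
  apply memℓp_gen
  simp only [norm_row]
  exact (summable_rows hp x).prod

/-- All rows. -/
noncomputable def rowsL (hp : p ≠ ∞) :
    lp (fun _ : ℕ => 𝕜) p →L[𝕜] lp (fun _ : ℕ => lp (fun _ : ℕ => 𝕜) p) p :=
  LinearMap.mkContinuous
    { toFun := fun x => (⟨fun i : ℕ => row hp x i, mem_rows hp x⟩ :
        lp (fun _ : ℕ => lp (fun _ : ℕ => 𝕜) p) p)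
      map_add' := fun x y => by
        apply lp.ext; funext i; apply lp.ext; funext t; rfl
      map_smul' := fun c x => by
        apply lp.ext; funext i; apply lp.ext; funext t; rfl } 1 (fun x => by
    have h0 := toReal_pos p hp
    rw [one_mul]
    apply lp.norm_le_of_tsum_le h0 (norm_nonneg x)
    exact (tsum_rows hp x).le)

lemma summable_flat (hp : p ≠ ∞) (F : lp (fun _ : ℕ => lp (fun _ : ℕ => 𝕜) p) p) :
    Summable (fun q : ℕ × ℕ => ‖F q.1 q.2‖ ^ p.toReal) := by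
  have h0 := toReal_pos p hp
  rw [summable_prod_of_nonneg (fun q => by positivity)]
  refine ⟨fun i => (lp.memℓp (F i)).summable h0, ?_⟩
  have h1 := (lp.memℓp F).summable h0
  refine h1.congr fun i => ?_
  rw [lp.norm_rpow_eq_tsum h0]

lemma mem_flat (hp : p ≠ ∞) (F : lp (fun _ : ℕ => lp (fun _ : ℕ => 𝕜) p) p) :
    Memℓp (fun n : ℕ => F (Nat.unpair n).1 (Nat.unpair n).2) p := by
  apply memℓp_gen
  exact (Nat.pairEquiv.symm.summable_iff (f := fun q : ℕ × ℕ => ‖F q.1 q.2‖ ^ p.toReal)).2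
    (summable_flat hp F)

/-- The sequence with the given rows. -/
noncomputable def flatL (hp : p ≠ ∞) :
    lp (fun _ : ℕ => lp (fun _ : ℕ => 𝕜) p) p →L[𝕜] lp (fun _ : ℕ => 𝕜) p :=
  LinearMap.mkContinuous
    { toFun := fun F => (⟨fun n : ℕ => F (Nat.unpair n).1 (Nat.unpair n).2, mem_flat hp F⟩ :
        lp (fun _ : ℕ => 𝕜) p)
      map_add' := fun x y => by
        apply lp.ext; funext i; rfl
      map_smul' := fun c x => by
        apply lp.ext; funext i; rfl } 1 (fun F => by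
    have h0 := toReal_pos p hp
    rw [one_mul]
    apply lp.norm_le_of_tsum_le h0 (norm_nonneg F)
    show ∑' n, ‖F (Nat.unpair n).1 (Nat.unpair n).2‖ ^ p.toReal ≤ _
    have e1 : ∑' n, ‖F (Nat.unpair n).1 (Nat.unpair n).2‖ ^ p.toReal =
        ∑' q : ℕ × ℕ, ‖F q.1 q.2‖ ^ p.toReal :=
      Nat.pairEquiv.symm.tsum_eq (fun q : ℕ × ℕ => ‖F q.1 q.2‖ ^ p.toReal)
    rw [e1, (summable_flat hp F).tsum_prod, lp.norm_rpow_eq_tsum h0 F]
    apply le_of_eq
    apply tsum_congr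
    intro i
    rw [lp.norm_rpow_eq_tsum h0])

theorem compl_lp (hp : p ≠ ∞) :
    Compl 𝕜 (lp (fun _ : ℕ => lp (fun _ : ℕ => 𝕜) p) p) (lp (fun _ : ℕ => 𝕜) p) := by
  refine ⟨flatL hp, rowsL hp, fun F => ?_⟩
  apply lp.ext; funext i; apply lp.ext; funext t
  show F (Nat.unpair (Nat.pair i t)).1 (Nat.unpair (Nat.pair i t)).2 = F i t
  rw [Nat.unpair_pair]

end lp

section c0

lemma tendsto_row (x : C₀(ℕ, 𝕜)) (i : ℕ) : Tendsto (fun t => x (Nat.pair i t)) atTop (𝓝 0) :=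
  (tendsto_c0 x).comp (tendsto_atTop_mono (fun t => Nat.right_le_pair i t) tendsto_id)

lemma tendsto_rows (x : C₀(ℕ, 𝕜)) :
    Tendsto (fun i => mk0 (fun t => x (Nat.pair i t)) (tendsto_row x i)) atTop (𝓝 0) := by
  rw [Metric.tendsto_atTop]
  intro ε hε
  obtain ⟨N, hN⟩ := Metric.tendsto_atTop.1 (tendsto_c0 x) (ε / 2) (by positivity)
  refine ⟨N, fun i hi => ?_⟩
  rw [dist_zero_right]
  have : ‖mk0 (fun t => x (Nat.pair i t)) (tendsto_row x i)‖ ≤ ε / 2 := by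
    rw [c0_norm_le (by positivity)]
    intro t
    rw [mk0_apply]
    have := hN (Nat.pair i t) (hi.le.trans (Nat.left_le_pair i t))
    rw [dist_zero_right] at this
    exact this.le
  linarith

/-- All rows. -/
noncomputable def rows0 : C₀(ℕ, 𝕜) →L[𝕜] C₀(ℕ, C₀(ℕ, 𝕜)) :=
  LinearMap.mkContinuous
    { toFun := fun x => mk0 (fun i => mk0 (fun t => x (Nat.pair i t)) (tendsto_row x i))
        (tendsto_rows x)
      map_add' := fun x y => by
        apply ZeroAtInftyContinuousMap.ext; intro i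
        apply ZeroAtInftyContinuousMap.ext; intro t; rfl
      map_smul' := fun c x => by
        apply ZeroAtInftyContinuousMap.ext; intro i
        apply ZeroAtInftyContinuousMap.ext; intro t; rfl } 1 (fun x => by
    rw [one_mul, c0_norm_le (norm_nonneg x)]
    intro i
    show ‖mk0 (fun t => x (Nat.pair i t)) (tendsto_row x i)‖ ≤ ‖x‖
    rw [c0_norm_le (norm_nonneg x)]
    intro t
    exact c0_apply_le x _)

lemma tendsto_flat (F : C₀(ℕ, C₀(ℕ, 𝕜))) :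
    Tendsto (fun n => F (Nat.unpair n).1 (Nat.unpair n).2) atTop (𝓝 0) := by
  rw [Metric.tendsto_atTop]
  intro ε hε
  obtain ⟨N, hN⟩ := Metric.tendsto_atTop.1 (tendsto_c0 F) ε hε
  have h1 : ∀ i, ∃ M, ∀ t ≥ M, dist (F i t) 0 < ε := fun i =>
    Metric.tendsto_atTop.1 (tendsto_c0 (F i)) ε hε
  choose M hM using h1
  set A : Finset ℕ := (Finset.range N).biUnion fun i => (Finset.range (M i)).image (Nat.pair i)
    with hA
  refine ⟨A.sup id + 1, fun n hn => ?_⟩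
  have hnA : n ∉ A := by
    intro h
    have := Finset.le_sup (f := id) h
    simp only [id] at this
    omega
  by_cases hi : (Nat.unpair n).1 < N
  · by_cases ht : (Nat.unpair n).2 < M (Nat.unpair n).1
    · exfalso
      apply hnA
      rw [hA, Finset.mem_biUnion]
      refine ⟨(Nat.unpair n).1, Finset.mem_range.2 hi, Finset.mem_image.2
        ⟨(Nat.unpair n).2, Finset.mem_range.2 ht, Nat.pair_unpair n⟩⟩
    · exact hM _ _ (by omega)
  · have h2 := hN (Nat.unpair n).1 (by omega)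
    rw [dist_zero_right] at h2 ⊢
    exact lt_of_le_of_lt (c0_apply_le _ _) h2

/-- The sequence with the given rows, a function. -/
noncomputable def flatf (F : C₀(ℕ, C₀(ℕ, 𝕜))) : C₀(ℕ, 𝕜) :=
  mk0 (H := 𝕜) (fun n => F (Nat.unpair n).1 (Nat.unpair n).2) (tendsto_flat F)

lemma flatf_apply (F : C₀(ℕ, C₀(ℕ, 𝕜))) (n : ℕ) :
    flatf F n = F (Nat.unpair n).1 (Nat.unpair n).2 := rfl

lemma norm_flatf_le (F : C₀(ℕ, C₀(ℕ, 𝕜))) : ‖flatf F‖ ≤ 1 * ‖F‖ := by
  rw [one_mul, c0_norm_le (norm_nonneg F)]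
  intro n
  rw [flatf_apply]
  have h1 : ‖(F (Nat.unpair n).1) (Nat.unpair n).2‖ ≤ ‖F (Nat.unpair n).1‖ :=
    c0_apply_le (F (Nat.unpair n).1) _
  have h2 : ‖F (Nat.unpair n).1‖ ≤ ‖F‖ := c0_apply_le F _
  exact h1.trans h2

lemma flatf_add (x y : C₀(ℕ, C₀(ℕ, 𝕜))) : flatf (x + y) = flatf x + flatf y := by
  apply ZeroAtInftyContinuousMap.ext; intro i
  rw [flatf_apply]
  show _ = flatf x i + flatf y i
  rw [flatf_apply, flatf_apply]
  rfl

lemma flatf_smul (c : 𝕜) (x : C₀(ℕ, C₀(ℕ, 𝕜))) : flatf (c • x) = c • flatf x := by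
  apply ZeroAtInftyContinuousMap.ext; intro i
  rw [flatf_apply]
  show _ = c • flatf x i
  rw [flatf_apply]
  rfl

lemma exists_clm {E F : Type} [NormedAddCommGroup E] [NormedSpace 𝕜 E] [NormedAddCommGroup F]
    [NormedSpace 𝕜 F] (a : E → F) (h1 : ∀ x y, a (x + y) = a x + a y)
    (h2 : ∀ (c : 𝕜) x, a (c • x) = c • a x) (h3 : ∀ x, ‖a x‖ ≤ 1 * ‖x‖) :
    ∃ A : E →L[𝕜] F, ∀ x, A x = a x :=
  ⟨LinearMap.mkContinuous { toFun := a, map_add' := h1, map_smul' := h2 } 1 h3, fun _ => rfl⟩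

theorem compl_c0 : Compl 𝕜 C₀(ℕ, C₀(ℕ, 𝕜)) C₀(ℕ, 𝕜) := by
  obtain ⟨A, hA⟩ := exists_clm (𝕜 := 𝕜) (E := C₀(ℕ, C₀(ℕ, 𝕜))) (F := C₀(ℕ, 𝕜)) flatf flatf_add
    flatf_smul norm_flatf_le
  refine ⟨A, rows0, fun F => ?_⟩
  rw [hA]
  apply ZeroAtInftyContinuousMap.ext; intro i
  apply ZeroAtInftyContinuousMap.ext; intro t
  have h : ∀ x : C₀(ℕ, 𝕜), rows0 x i t = x (Nat.pair i t) := fun _ => rfl
  rw [h, flatf_apply, Nat.unpair_pair]

end c0

end Pool.Agent.Y609.WS
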