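import Pool.Agent.Y609.WS.Ops

/-!
# The data exist on every space without the Schur property
-/

set_option autoImplicit false

open Filter Topology Finset

namespace Pool.Agent.Y609.WS

variable {𝕜 : Type} [RCLike 𝕜] {H : Type} [NormedAddCommGroup H] [NormedSpace 𝕜 H]

theorem exists_Data (u : ℕ → H) (v : H)
    (hw : ∀ φ : H →L[𝕜] 𝕜, Tendsto (fun k => φ (u k)) atTop (𝓝 (φ v)))
    (hn : ¬ Tendsto u atTop (𝓝 v)) : Nonempty (Data 𝕜 H) := by
  -- a subsequence which stays away from `v`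
  obtain ⟨ε, hε, hf⟩ : ∃ ε > 0, ∃ᶠ k in atTop, ε ≤ ‖u k - v‖ := by
    by_contra hc
    push Not at hc
    apply hn
    rw [Metric.tendsto_nhds]
    intro ε hε
    have := hc ε hε
    filter_upwards [this] with k hk
    rw [dist_eq_norm]
    exact hk
  obtain ⟨τ, hτ, hτε⟩ := extraction_of_frequently_atTop hf
  set a : ℕ → H := fun k => u (τ k) - v with ha
  have haw : ∀ φ : H →L[𝕜] 𝕜, Tendsto (fun k => φ (a k)) atTop (𝓝 0) := by
    intro φ
    have h1 := ((hw φ).comp hτ.tendsto_atTop).sub_const (φ v)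
    rw [sub_self] at h1
    refine h1.congr fun k => ?_
    simp [ha]
  have han : ∀ k, ε ≤ ‖a k‖ := hτε
  set z0 : ℕ → H := fun k => ((‖a k‖⁻¹ : ℝ) : 𝕜) • a k with hz0
  have hz0n : ∀ k, ‖z0 k‖ = 1 := by
    intro k
    have : 0 < ‖a k‖ := hε.trans_le (han k)
    simp only [hz0]
    rw [norm_smul, RCLike.norm_ofReal, abs_of_nonneg (by positivity),
      inv_mul_cancel₀ this.ne']
  have hz0w : ∀ φ : H →L[𝕜] 𝕜, Tendsto (fun k => φ (z0 k)) atTop (𝓝 0) := by
    intro φ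
    have h1 : Tendsto (fun k => ε⁻¹ * ‖φ (a k)‖) atTop (𝓝 (ε⁻¹ * 0)) :=
      (tendsto_zero_iff_norm_tendsto_zero.1 (haw φ)).const_mul _
    rw [mul_zero] at h1
    refine squeeze_zero_norm (fun k => ?_) h1
    simp only [hz0]
    rw [map_smul, norm_smul, RCLike.norm_ofReal, abs_of_nonneg (by positivity)]
    have : 0 < ‖a k‖ := hε.trans_le (han k)
    have h2 : ‖a k‖⁻¹ ≤ ε⁻¹ := by
      rw [inv_le_inv₀ this hε]; exact han k
    gcongr
  have hne : ∀ k, z0 k ≠ 0 := by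
    intro k h
    have := hz0n k
    rw [h, norm_zero] at this
    exact zero_ne_one this
  choose h hh1 hh2 using fun k => exists_dual_vector 𝕜 (z0 k) (norm_ne_zero_iff.2 (hne k))
  have hhle : ∀ k w, ‖h k w‖ ≤ ‖w‖ := by
    intro k w
    have := (h k).le_opNorm w
    rw [hh1, one_mul] at this
    exact this
  have hhz : ∀ k, h k (z0 k) = 1 := by
    intro k
    rw [hh2, hz0n]
    simp
  set y := z0 0 with hy
  set f0 : ℕ → H →L[𝕜] 𝕜 := fun k => h k + (1 - h k y) • h 0 with hf0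
  have hf0a : ∀ k w, f0 k w = h k w + (1 - h k y) * h 0 w := by
    intro k w; simp [hf0]
  have hbd : ∀ k, ‖(1 : 𝕜) - h k y‖ ≤ 2 := by
    intro k
    refine (norm_sub_le _ _).trans ?_
    have := hhle k y
    rw [hy, hz0n] at this
    rw [norm_one]
    linarith
  have hf0y : ∀ k, f0 k y = 1 := by
    intro k
    rw [hf0a, hy, hhz 0, mul_one]
    ring
  have hf0n : ∀ k w, ‖f0 k w‖ ≤ 3 * ‖w‖ := by
    intro k w
    rw [hf0a]
    refine (norm_add_le _ _).trans ?_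
    rw [norm_mul]
    have h1 := hhle k w
    have h2 := hhle 0 w
    have h3 := hbd k
    have : ‖(1 : 𝕜) - h k y‖ * ‖h 0 w‖ ≤ 2 * ‖w‖ := by gcongr
    linarith
  obtain ⟨K0, hK0⟩ : ∃ K0, ∀ k, K0 ≤ k → 1 / 2 ≤ ‖f0 k (z0 k)‖ := by
    obtain ⟨K0, hK0⟩ := Metric.tendsto_atTop.1 (hz0w (h 0)) (1 / 4) (by norm_num)
    refine ⟨K0, fun k hk => ?_⟩
    have h1 := hK0 k hk
    rw [dist_zero_right] at h1
    rw [hf0a, hhz]
    have h2 : ‖(1 - h k y) * h 0 (z0 k)‖ ≤ 1 / 2 := by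
      rw [norm_mul]
      calc ‖(1 : 𝕜) - h k y‖ * ‖h 0 (z0 k)‖ ≤ 2 * (1 / 4) := by
            have := hbd k
            gcongr
        _ = 1 / 2 := by norm_num
    have h3 := norm_sub_norm_le (1 : 𝕜) (-((1 - h k y) * h 0 (z0 k)))
    rw [sub_neg_eq_add, norm_neg, norm_one] at h3
    linarith
  set z1 : ℕ → H := fun k => (f0 k (z0 k))⁻¹ • z0 k with hz1
  have hz1n : ∀ k, K0 ≤ k → ‖z1 k‖ ≤ 2 := by
    intro k hk
    simp only [hz1]
    rw [norm_smul, norm_inv, hz0n, mul_one]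
    have := hK0 k hk
    rw [inv_le_comm₀ (by linarith) (by norm_num)]
    linarith
  have hz1w : ∀ φ : H →L[𝕜] 𝕜, Tendsto (fun k => φ (z1 k)) atTop (𝓝 0) := by
    intro φ
    have h1 : Tendsto (fun k => 2 * ‖φ (z0 k)‖) atTop (𝓝 (2 * 0)) :=
      (tendsto_zero_iff_norm_tendsto_zero.1 (hz0w φ)).const_mul _
    rw [mul_zero] at h1
    refine squeeze_zero_norm' ?_ h1
    filter_upwards [eventually_ge_atTop K0] with k hk
    simp only [hz1]
    rw [map_smul, norm_smul, norm_inv]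
    have := hK0 k hk
    have h2 : ‖f0 k (z0 k)‖⁻¹ ≤ 2 := by
      rw [inv_le_comm₀ (by linarith) (by norm_num)]
      linarith
    gcongr
  have hfz1 : ∀ k, K0 ≤ k → f0 k (z1 k) = 1 := by
    intro k hk
    have := hK0 k hk
    have h1 : f0 k (z0 k) ≠ 0 := norm_pos_iff.1 (by linarith)
    simp only [hz1]
    rw [map_smul, smul_eq_mul, inv_mul_cancel₀ h1]
  obtain ⟨ρ, hρ1, hρ2⟩ := exists_seq_of_forall_finset_exists (fun k : ℕ => K0 ≤ k)
    (fun a b => a < b ∧ ‖f0 a (z1 b)‖ * (2 * (3 : ℝ) ^ 2) ≤ 1) (by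
      intro s _
      have h1 : ∀ a ∈ s, ∀ᶠ b in atTop, a < b ∧ ‖f0 a (z1 b)‖ * (2 * (3 : ℝ) ^ 2) ≤ 1 := by
        intro a _
        have h2 : Tendsto (fun b => ‖f0 a (z1 b)‖ * (2 * (3 : ℝ) ^ 2)) atTop (𝓝 0) := by
          have := (tendsto_zero_iff_norm_tendsto_zero.1 (hz1w (f0 a))).mul_const (2 * (3 : ℝ) ^ 2)
          rwa [zero_mul] at this
        filter_upwards [eventually_gt_atTop a, h2.eventually_le_const (zero_lt_one)] with b h3 h4
        exact ⟨h3, h4⟩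
      have h2 := ((Finset.eventually_all s).2 h1).and (eventually_ge_atTop K0)
      obtain ⟨b, hb1, hb2⟩ := h2.exists
      exact ⟨b, hb2, hb1⟩)
  have hρ : StrictMono ρ := fun m n hmn => (hρ2 m n hmn).1
  exact ⟨{
    f := fun k => f0 (ρ k)
    z := fun k => z1 (ρ k)
    y := y
    M := 3
    hM := by norm_num
    hf := fun k w => hf0n _ w
    hz := fun k => (hz1n _ (hρ1 k)).trans (by norm_num)
    fz := fun k => hfz1 _ (hρ1 k)
    fy := fun k => hf0y _
    weak := fun φ => (hz1w φ).comp hρ.tendsto_atTop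
    small := fun b k hbk => (hρ2 b k hbk).2 }⟩

end Pool.Agent.Y609.WS
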