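import Pool.Agent.Y609.WS.Lp
import Pool.Agent.Y609.WS.C0

/-!
# The unit vectors of `ℓ_p`, `1 < p < ∞`, and of `c_0` are weakly null
-/

set_option autoImplicit false

open Filter Topology Finset
open scoped ENNReal ZeroAtInfty

namespace Pool.Agent.Y609.WS

variable {𝕜 : Type} [RCLike 𝕜]

lemma weak_null {E : Type} [NormedAddCommGroup E] [NormedSpace 𝕜 E] (e : ℕ → E) (b : ℕ → ℝ)
    (hb : Tendsto (fun n : ℕ => b n / n) atTop (𝓝 0))
    (h : ∀ (s : Finset ℕ) (θ : ℕ → 𝕜), (∀ k, ‖θ k‖ = 1) → ‖∑ k ∈ s, θ k • e k‖ ≤ b s.card)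
    (φ : E →L[𝕜] 𝕜) : Tendsto (fun k => φ (e k)) atTop (𝓝 0) := by
  by_contra hc
  obtain ⟨ε, hε, hf⟩ : ∃ ε > 0, ∃ᶠ k in atTop, ε ≤ ‖φ (e k)‖ := by
    by_contra hc2
    push Not at hc2
    apply hc
    rw [Metric.tendsto_nhds]
    intro ε hε
    filter_upwards [hc2 ε hε] with k hk
    rw [dist_zero_right]
    exact hk
  obtain ⟨τ, hτ, hτε⟩ := extraction_of_frequently_atTop hf
  choose θ hθ1 hθ2 using fun k : ℕ => RCLike.exists_norm_eq_mul_self (φ (e k))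
  have key : ∀ n : ℕ, n * ε ≤ ‖φ‖ * b n := by
    intro n
    set s : Finset ℕ := (Finset.range n).map ⟨τ, hτ.injective⟩ with hs
    have hcard : s.card = n := by simp [hs]
    have h1 := h s θ hθ1
    rw [hcard] at h1
    have h2 : ((∑ k ∈ s, ‖φ (e k)‖ : ℝ) : 𝕜) = φ (∑ k ∈ s, θ k • e k) := by
      rw [map_sum, RCLike.ofReal_sum]
      apply Finset.sum_congr rfl
      intro k _
      rw [map_smul, smul_eq_mul, hθ2]
    have h3 : (n : ℝ) * ε ≤ ∑ k ∈ s, ‖φ (e k)‖ := by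
      rw [hs, Finset.sum_map]
      have : ∑ _ ∈ Finset.range n, ε ≤ ∑ k ∈ Finset.range n, ‖φ (e (τ k))‖ :=
        Finset.sum_le_sum fun k _ => hτε k
      simpa using this
    have h4 : 0 ≤ ∑ k ∈ s, ‖φ (e k)‖ := Finset.sum_nonneg fun _ _ => norm_nonneg _
    calc (n : ℝ) * ε ≤ ∑ k ∈ s, ‖φ (e k)‖ := h3
      _ = ‖φ (∑ k ∈ s, θ k • e k)‖ := by
          rw [← h2, RCLike.norm_ofReal, abs_of_nonneg h4]
      _ ≤ ‖φ‖ * ‖∑ k ∈ s, θ k • e k‖ := φ.le_opNorm _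
      _ ≤ ‖φ‖ * b n := by gcongr
  have h1 : Tendsto (fun n : ℕ => ‖φ‖ * (b n / n)) atTop (𝓝 0) := by
    have := hb.const_mul ‖φ‖
    rwa [mul_zero] at this
  obtain ⟨n, hn1, hn2⟩ := ((h1.eventually_lt_const hε).and (eventually_gt_atTop 0)).exists
  have h2 := key n
  have hn : (0 : ℝ) < n := by exact_mod_cast hn2
  rw [← mul_div_assoc, div_lt_iff₀ hn] at hn1
  linarith

lemma lp_weak_null {p : ℝ≥0∞} [hp1 : Fact (1 ≤ p)] (h1 : 1 < p) (hp : p ≠ ∞)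
    (φ : lp (fun _ : ℕ => 𝕜) p →L[𝕜] 𝕜) :
    Tendsto (fun k => φ (lp.single p k (1 : 𝕜))) atTop (𝓝 0) := by
  have h0 := toReal_pos p hp
  have h1' : 1 < p.toReal := by
    have := (ENNReal.toReal_lt_toReal (by simp) hp).2 h1
    simpa using this
  apply weak_null (fun k => lp.single p k (1 : 𝕜)) (fun n : ℕ => (n : ℝ) ^ (1 / p.toReal))
  · have h2 : Tendsto (fun n : ℕ => (n : ℝ) ^ (-(1 - 1 / p.toReal))) atTop (𝓝 0) :=
      (tendsto_rpow_neg_atTop (by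
        rw [sub_pos, div_lt_one h0]; exact h1')).comp tendsto_natCast_atTop_atTop
    refine h2.congr' ?_
    filter_upwards [eventually_gt_atTop 0] with n hn
    have hn' : (0 : ℝ) < n := by exact_mod_cast hn
    rw [neg_sub, Real.rpow_sub hn', Real.rpow_one]
  · intro s θ hθ
    have h3 := lp.norm_sum_single (E := fun _ : ℕ => 𝕜) h0 θ s
    have h4 : ∑ k ∈ s, θ k • lp.single (E := fun _ : ℕ => 𝕜) p k (1 : 𝕜) =
        ∑ k ∈ s, lp.single (E := fun _ : ℕ => 𝕜) p k (θ k) := by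
      apply Finset.sum_congr rfl
      intro k _
      rw [← lp.single_smul, smul_eq_mul, mul_one]
    rw [h4]
    have h5 : ∑ i ∈ s, ‖θ i‖ ^ p.toReal = s.card := by simp [hθ]
    rw [h5] at h3
    rw [← h3, ← Real.rpow_mul (norm_nonneg _), mul_one_div_cancel h0.ne', Real.rpow_one]

lemma c0_weak_null (φ : C₀(ℕ, 𝕜) →L[𝕜] 𝕜) :
    Tendsto (fun k => φ (c0ι 𝕜 𝕜 k 1)) atTop (𝓝 0) := by
  apply weak_null (fun k => c0ι 𝕜 𝕜 k 1) (fun _ : ℕ => 1)
  · exact tendsto_one_div_atTop_nhds_zero_nat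
  · intro s θ hθ
    rw [c0_norm_le zero_le_one]
    intro i
    have h1 : (∑ k ∈ s, θ k • c0ι 𝕜 𝕜 k 1) i = ∑ k ∈ s, θ k • (Pi.single k (1 : 𝕜) : ℕ → 𝕜) i := by
      have : ∀ y : C₀(ℕ, 𝕜), y i = c0π 𝕜 𝕜 i y := fun _ => rfl
      rw [this, map_sum]
      rfl
    rw [h1]
    simp only [Pi.single_apply, smul_ite, smul_zero]
    rw [Finset.sum_ite_eq]
    split_ifs
    · rw [smul_eq_mul, mul_one, hθ]
    · simp

end Pool.Agent.Y609.WS
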