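import Pool.Agent.Y609.WS.Univ
import Pool.Agent.Y609.WS.Dat
import Pool.Agent.Y609.WS.Bio
import Pool.Agent.Y609.WS.Curry
import Pool.Agent.Y609.WS.Null

/-!
# Spaces with a complemented infinite sum of copies of a space without the Schur property
-/

set_option autoImplicit false

open Filter Topology Finset
open scoped ENNReal ZeroAtInfty

namespace Pool.Agent.Y609.WS

variable {𝕜 : Type} [RCLike 𝕜]

/-- The operator we look for. -/
def Found (𝕜 : Type) [RCLike 𝕜] (X : Type) [NormedAddCommGroup X] [NormedSpace 𝕜 X] : Prop :=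
  ∃ T : X →L[𝕜] X, (∃ x : X, ∀ y : X, ∃ n : ℕ → ℕ, StrictMono n ∧
      ∀ φ : X →L[𝕜] 𝕜, Tendsto (fun k => φ ((T ^ n k) x)) atTop (𝓝 (φ y))) ∧
      ∀ x, ¬ Dense (Set.range fun n : ℕ => (T ^ n) x)

lemma Found.transport {X Y : Type} [NormedAddCommGroup X] [NormedSpace 𝕜 X]
    [NormedAddCommGroup Y] [NormedSpace 𝕜 Y] (e : X ≃L[𝕜] Y) (h : Found 𝕜 Y) : Found 𝕜 X := by
  obtain ⟨T, ⟨x, hx⟩, hn⟩ := h
  set T' : X →L[𝕜] X := ((e.symm : Y →L[𝕜] X).comp T).comp (e : X →L[𝕜] Y) with hT'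
  have hpow : ∀ n v, (T' ^ n) v = e.symm ((T ^ n) (e v)) := by
    intro n
    induction n with
    | zero => intro v; simp
    | succ n ih =>
      intro v
      rw [pow_succ', pow_succ']
      show T' ((T' ^ n) v) = e.symm (T ((T ^ n) (e v)))
      rw [ih, hT']
      simp
  refine ⟨T', ⟨e.symm x, fun y => ?_⟩, fun x' hd => ?_⟩
  · obtain ⟨n, hn1, hn2⟩ := hx (e y)
    refine ⟨n, hn1, fun φ => ?_⟩
    have h1 := hn2 (φ.comp (e.symm : Y →L[𝕜] X))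
    simp only [ContinuousLinearMap.comp_apply, ContinuousLinearEquiv.coe_coe,
      ContinuousLinearEquiv.symm_apply_apply] at h1
    refine h1.congr fun k => ?_
    rw [hpow, ContinuousLinearEquiv.apply_symm_apply]
  · apply hn (e x')
    have h1 : (Set.range fun n : ℕ => (T ^ n) (e x')) =
        e '' (Set.range fun n : ℕ => (T' ^ n) x') := by
      ext v
      constructor
      · rintro ⟨n, rfl⟩
        exact ⟨_, ⟨n, rfl⟩, by simp only; rw [hpow, ContinuousLinearEquiv.apply_symm_apply]⟩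
      · rintro ⟨_, ⟨n, rfl⟩, rfl⟩
        exact ⟨n, by simp only; rw [hpow, ContinuousLinearEquiv.apply_symm_apply]⟩
    rw [h1]
    exact e.surjective.denseRange.dense_image e.continuous hd

/-- A complemented subspace is a summand. -/
lemma exists_equiv {Y X : Type} [NormedAddCommGroup Y] [NormedSpace 𝕜 Y]
    [NormedAddCommGroup X] [NormedSpace 𝕜 X] (i : Y →L[𝕜] X) (r : X →L[𝕜] Y)
    (h : ∀ y, r (i y) = y) : Nonempty (X ≃L[𝕜] (LinearMap.ker (r : X →ₗ[𝕜] Y)) × Y) := by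
  refine ⟨ContinuousLinearEquiv.equivOfInverse
    (((ContinuousLinearMap.id 𝕜 X - i.comp r).codRestrict (LinearMap.ker (r : X →ₗ[𝕜] Y))
      (fun x => by simp [LinearMap.mem_ker, h])).prod r)
    ((LinearMap.ker (r : X →ₗ[𝕜] Y)).subtypeL.comp (ContinuousLinearMap.fst 𝕜 _ _) +
      i.comp (ContinuousLinearMap.snd 𝕜 _ _)) ?_ ?_⟩
  · intro x
    simp
  · rintro ⟨⟨z, hz⟩, y⟩
    have hz' : r z = 0 := hz
    refine Prod.ext (Subtype.ext ?_) ?_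
    · simp [h, hz']
    · simp [h, hz']

theorem found_of_sum {X H B : Type} [NormedAddCommGroup X] [NormedSpace 𝕜 X] [CompleteSpace X]
    [TopologicalSpace.SeparableSpace X] [NormedAddCommGroup H] [NormedSpace 𝕜 H]
    [NormedAddCommGroup B] [NormedSpace 𝕜 B] [CompleteSpace B] (S : SumSp 𝕜 H B)
    (hc : Compl 𝕜 B X) (u : ℕ → H) (v : H)
    (hw : ∀ φ : H →L[𝕜] 𝕜, Tendsto (fun k => φ (u k)) atTop (𝓝 (φ v)))
    (hn : ¬ Tendsto u atTop (𝓝 v)) : Found 𝕜 X := by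
  obtain ⟨D⟩ := exists_Data u v hw hn
  obtain ⟨i, r, hir⟩ := hc
  obtain ⟨e⟩ := exists_equiv i r hir
  have hcl : IsClosed ((LinearMap.ker (r : X →ₗ[𝕜] B) : Submodule 𝕜 X) : Set X) :=
    r.isClosed_ker
  have hcs : CompleteSpace (LinearMap.ker (r : X →ₗ[𝕜] B)) := hcl.completeSpace_coe
  have hsep : TopologicalSpace.SeparableSpace ((LinearMap.ker (r : X →ₗ[𝕜] B)) × B) :=
    e.surjective.denseRange.separableSpace e.continuous
  have hsep2 : TopologicalSpace.SeparableSpace (LinearMap.ker (r : X →ₗ[𝕜] B)) :=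
    (Prod.fst_surjective (α := LinearMap.ker (r : X →ₗ[𝕜] B)) (β := B)).denseRange.separableSpace
      continuous_fst
  obtain ⟨R, hR1, hR2⟩ := exists_R D (LinearMap.ker (r : X →ₗ[𝕜] B))
  exact Found.transport e (SumSp.exists_op S D hR1 hR2)

lemma not_tendsto_lp {p : ℝ≥0∞} [hp1 : Fact (1 ≤ p)] :
    ¬ Tendsto (fun k : ℕ => lp.single (E := fun _ : ℕ => 𝕜) p k (1 : 𝕜)) atTop (𝓝 0) := by
  intro h
  obtain ⟨k, hk⟩ := ((tendsto_zero_iff_norm_tendsto_zero.1 h).eventually_lt_const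
    zero_lt_one).exists
  rw [lp.norm_single (E := fun _ : ℕ => 𝕜) (zero_lt_one.trans_le hp1.out), norm_one] at hk
  exact lt_irrefl _ hk

lemma not_tendsto_c0 : ¬ Tendsto (fun k : ℕ => c0ι 𝕜 𝕜 k 1) atTop (𝓝 0) := by
  intro h
  obtain ⟨k, hk⟩ := ((tendsto_zero_iff_norm_tendsto_zero.1 h).eventually_lt_const
    zero_lt_one).exists
  have h2 : ‖(1 : 𝕜)‖ ≤ ‖c0ι 𝕜 𝕜 k 1‖ := by
    have h3 := c0_apply_le (c0ι 𝕜 𝕜 k (1 : 𝕜)) k
    have h4 : (c0ι 𝕜 𝕜 k (1 : 𝕜)) k = 1 := by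
      show (Pi.single k (1 : 𝕜) : ℕ → 𝕜) k = 1
      rw [Pi.single_eq_same]
    rwa [h4] at h3
  rw [norm_one] at h2
  linarith

theorem found_lp {X : Type} [NormedAddCommGroup X] [NormedSpace 𝕜 X] [CompleteSpace X]
    [TopologicalSpace.SeparableSpace X] {p : ℝ≥0∞} [hp1 : Fact (1 ≤ p)] (h1 : 1 < p)
    (hp : p ≠ ∞) (hc : Compl 𝕜 (lp (fun _ : ℕ => 𝕜) p) X) : Found 𝕜 X := by
  have S : SumSp 𝕜 (lp (fun _ : ℕ => 𝕜) p) (lp (fun _ : ℕ => lp (fun _ : ℕ => 𝕜) p) p) :=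
    lpSum hp
  have hc' := (compl_lp (𝕜 := 𝕜) hp).trans hc
  have hw : ∀ φ : lp (fun _ : ℕ => 𝕜) p →L[𝕜] 𝕜, Tendsto
      (fun k : ℕ => φ (lp.single (E := fun _ : ℕ => 𝕜) p k (1 : 𝕜))) atTop (𝓝 (φ 0)) := by
    intro φ
    rw [map_zero]
    exact lp_weak_null h1 hp φ
  exact found_of_sum S hc' _ 0 hw not_tendsto_lp

theorem found_c0 {X : Type} [NormedAddCommGroup X] [NormedSpace 𝕜 X] [CompleteSpace X]
    [TopologicalSpace.SeparableSpace X] (hc : Compl 𝕜 C₀(ℕ, 𝕜) X) : Found 𝕜 X := by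
  have S : SumSp 𝕜 C₀(ℕ, 𝕜) C₀(ℕ, C₀(ℕ, 𝕜)) := c0Sum 𝕜 C₀(ℕ, 𝕜)
  have hc' := (compl_c0 (𝕜 := 𝕜)).trans hc
  have hw : ∀ φ : C₀(ℕ, 𝕜) →L[𝕜] 𝕜, Tendsto (fun k : ℕ => φ (c0ι 𝕜 𝕜 k 1)) atTop
      (𝓝 (φ 0)) := by
    intro φ
    rw [map_zero]
    exact c0_weak_null φ
  exact found_of_sum S hc' _ 0 hw not_tendsto_c0

end Pool.Agent.Y609.WS
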