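import Pool.Agent.Y609.WS.Wdat
import Pool.Agent.Y609.WS.Fin

/-!
# The second operator, on the same spaces
-/

set_option autoImplicit false

open Filter Topology Finset
open scoped ENNReal ZeroAtInfty

namespace Pool.Agent.Y609.WS

variable {𝕜 : Type} [RCLike 𝕜]

/-- The operator we look for: the weak limits of the sequences in the orbit of some vector are
dense, they are not all vectors for any vector. -/
def Found2 (𝕜 : Type) [RCLike 𝕜] (X : Type) [NormedAddCommGroup X] [NormedSpace 𝕜 X] : Prop :=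
  ∃ T : X →L[𝕜] X, (∃ x : X, Dense {w : X | ∃ n : ℕ → ℕ,
      ∀ φ : X →L[𝕜] 𝕜, Tendsto (fun k => φ ((T ^ n k) x)) atTop (𝓝 (φ w))}) ∧
      ∀ x, ¬ ∀ y : X, ∃ n : ℕ → ℕ, ∀ φ : X →L[𝕜] 𝕜,
        Tendsto (fun k => φ ((T ^ n k) x)) atTop (𝓝 (φ y))

lemma Found2.transport {X Y : Type} [NormedAddCommGroup X] [NormedSpace 𝕜 X]
    [NormedAddCommGroup Y] [NormedSpace 𝕜 Y] (e : X ≃L[𝕜] Y) (h : Found2 𝕜 Y) : Found2 𝕜 X := by
  obtain ⟨T, ⟨x, hx⟩, hn⟩ := h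
  set T' : X →L[𝕜] X := ((e.symm : Y →L[𝕜] X).comp T).comp (e : X →L[𝕜] Y) with hT'
  have hpow : ∀ n v, (T' ^ n) v = e.symm ((T ^ n) (e v)) := by
    intro n
    induction n with
    | zero => intro v; simp
    | succ n ih =>
      intro v
      rw [pow_succ', pow_succ']
      show T' ((T' ^ n) v) = e.symm (T ((T ^ n) (e v)))
      rw [ih, hT']
      simp
  refine ⟨T', ⟨e.symm x, ?_⟩, fun x' hd => ?_⟩
  · refine (e.symm.surjective.denseRange.dense_image e.symm.continuous hx).mono ?_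
    rintro _ ⟨w, ⟨n, hn2⟩, rfl⟩
    refine ⟨n, fun φ => ?_⟩
    refine (hn2 (φ.comp (e.symm : Y →L[𝕜] X))).congr fun k => ?_
    rw [hpow, ContinuousLinearEquiv.apply_symm_apply]
    rfl
  · apply hn (e x')
    intro y
    obtain ⟨n, hn2⟩ := hd (e.symm y)
    refine ⟨n, fun φ => ?_⟩
    have h1 := hn2 (φ.comp (e : X →L[𝕜] Y))
    simp only [ContinuousLinearMap.comp_apply, ContinuousLinearEquiv.coe_coe,
      ContinuousLinearEquiv.apply_symm_apply] at h1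
    refine h1.congr fun k => ?_
    rw [hpow, ContinuousLinearEquiv.apply_symm_apply]

theorem found2_of_sum {X H B : Type} [NormedAddCommGroup X] [NormedSpace 𝕜 X] [CompleteSpace X]
    [TopologicalSpace.SeparableSpace X] [NormedAddCommGroup H] [NormedSpace 𝕜 H]
    [CompleteSpace H]
    [NormedAddCommGroup B] [NormedSpace 𝕜 B] [CompleteSpace B] (S : SumSp 𝕜 H B)
    (hc : Compl 𝕜 B X) (u : ℕ → H) (v : H)
    (hw : ∀ φ : H →L[𝕜] 𝕜, Tendsto (fun k => φ (u k)) atTop (𝓝 (φ v)))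
    (hn : ¬ Tendsto u atTop (𝓝 v)) : Found2 𝕜 X := by
  obtain ⟨D⟩ := exists_Data u v hw hn
  obtain ⟨i, r, hir⟩ := hc
  obtain ⟨e⟩ := exists_equiv i r hir
  have hcl : IsClosed ((LinearMap.ker (r : X →ₗ[𝕜] B) : Submodule 𝕜 X) : Set X) :=
    r.isClosed_ker
  have hcs : CompleteSpace (LinearMap.ker (r : X →ₗ[𝕜] B)) := hcl.completeSpace_coe
  have hsep : TopologicalSpace.SeparableSpace ((LinearMap.ker (r : X →ₗ[𝕜] B)) × B) :=
    e.surjective.denseRange.separableSpace e.continuous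
  have hsep2 : TopologicalSpace.SeparableSpace (LinearMap.ker (r : X →ₗ[𝕜] B)) :=
    (Prod.fst_surjective (α := LinearMap.ker (r : X →ₗ[𝕜] B)) (β := B)).denseRange.separableSpace
      continuous_fst
  have hsep3 : TopologicalSpace.SeparableSpace B :=
    (Prod.snd_surjective (α := LinearMap.ker (r : X →ₗ[𝕜] B)) (β := B)).denseRange.separableSpace
      continuous_snd
  have hsurj : Function.Surjective (S.π 0) := fun w => ⟨S.ι 0 w, by rw [S.pi_iota, if_pos rfl]⟩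
  have hsep4 : TopologicalSpace.SeparableSpace H :=
    hsurj.denseRange.separableSpace (S.π 0).continuous
  obtain ⟨W⟩ := exists_WData D
  obtain ⟨R, hR1, -⟩ := exists_R D (LinearMap.ker (r : X →ₗ[𝕜] B))
  exact Found2.transport e (SumSp.exists_op2 S W hR1)

theorem found2_lp {X : Type} [NormedAddCommGroup X] [NormedSpace 𝕜 X] [CompleteSpace X]
    [TopologicalSpace.SeparableSpace X] {p : ℝ≥0∞} [hp1 : Fact (1 ≤ p)] (h1 : 1 < p)
    (hp : p ≠ ∞) (hc : Compl 𝕜 (lp (fun _ : ℕ => 𝕜) p) X) : Found2 𝕜 X := by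
  have S : SumSp 𝕜 (lp (fun _ : ℕ => 𝕜) p) (lp (fun _ : ℕ => lp (fun _ : ℕ => 𝕜) p) p) :=
    lpSum hp
  have hc' := (compl_lp (𝕜 := 𝕜) hp).trans hc
  have hw : ∀ φ : lp (fun _ : ℕ => 𝕜) p →L[𝕜] 𝕜, Tendsto
      (fun k : ℕ => φ (lp.single (E := fun _ : ℕ => 𝕜) p k (1 : 𝕜))) atTop (𝓝 (φ 0)) := by
    intro φ
    rw [map_zero]
    exact lp_weak_null h1 hp φ
  exact found2_of_sum S hc' _ 0 hw not_tendsto_lp

theorem found2_c0 {X : Type} [NormedAddCommGroup X] [NormedSpace 𝕜 X] [CompleteSpace X]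
    [TopologicalSpace.SeparableSpace X] (hc : Compl 𝕜 C₀(ℕ, 𝕜) X) : Found2 𝕜 X := by
  have S : SumSp 𝕜 C₀(ℕ, 𝕜) C₀(ℕ, C₀(ℕ, 𝕜)) := c0Sum 𝕜 C₀(ℕ, 𝕜)
  have hc' := (compl_c0 (𝕜 := 𝕜)).trans hc
  have hw : ∀ φ : C₀(ℕ, 𝕜) →L[𝕜] 𝕜, Tendsto (fun k : ℕ => φ (c0ι 𝕜 𝕜 k 1)) atTop
      (𝓝 (φ 0)) := by
    intro φ
    rw [map_zero]
    exact c0_weak_null φ
  exact found2_of_sum S hc' _ 0 hw not_tendsto_c0

end Pool.Agent.Y609.WS
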