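import Pool.Agent.Y609.WS.Core

/-!
# `ℓ_p`-sums
-/

set_option autoImplicit false

open Filter Topology Finset
open scoped ENNReal

namespace Pool.Agent.Y609.WS

variable (𝕜 : Type) [RCLike 𝕜] (H : Type) [NormedAddCommGroup H] [NormedSpace 𝕜 H]
  (p : ℝ≥0∞) [hp1 : Fact (1 ≤ p)]

lemma toReal_pos (hp : p ≠ ∞) : 0 < p.toReal :=
  ENNReal.toReal_pos (zero_lt_one.trans_le hp1.out).ne' hp

variable {𝕜 H p}

lemma mem_shift (hp : p ≠ ∞) (w : ℕ → H →L[𝕜] H) {K : ℝ} (hK : 0 ≤ K)
    (hw : ∀ i v, ‖w i v‖ ≤ K * ‖v‖) (x : lp (fun _ : ℕ => H) p) :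
    Memℓp (fun i : ℕ => w i (x (i + 1))) p := by
  have h0 := toReal_pos p hp
  apply memℓp_gen
  have h1 : Summable fun i : ℕ => ‖x (i + 1)‖ ^ p.toReal :=
    ((lp.memℓp x).summable h0).comp_injective (fun a b h => by simpa using h)
  refine Summable.of_nonneg_of_le (fun i => by positivity) (fun i => ?_)
    (h1.mul_left (K ^ p.toReal))
  rw [← Real.mul_rpow hK (norm_nonneg _)]
  exact Real.rpow_le_rpow (norm_nonneg _) (hw _ _) h0.le

/-- The shift with weights. -/
noncomputable def lpShift (hp : p ≠ ∞) (w : ℕ → H →L[𝕜] H) {K : ℝ} (hK : 0 ≤ K)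
    (hw : ∀ i v, ‖w i v‖ ≤ K * ‖v‖) : lp (fun _ : ℕ => H) p →L[𝕜] lp (fun _ : ℕ => H) p :=
  LinearMap.mkContinuous
    { toFun := fun x => (⟨fun i : ℕ => w i (x (i + 1)), mem_shift hp w hK hw x⟩ :
        lp (fun _ : ℕ => H) p)
      map_add' := fun x y => by
        apply lp.ext
        funext i
        show w i ((x + y : lp (fun _ : ℕ => H) p) (i + 1)) = w i (x (i + 1)) + w i (y (i + 1))
        rw [lp.coeFn_add, Pi.add_apply, map_add]
      map_smul' := fun c x => by
        apply lp.ext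
        funext i
        show w i ((c • x : lp (fun _ : ℕ => H) p) (i + 1)) = c • w i (x (i + 1))
        rw [lp.coeFn_smul, Pi.smul_apply, map_smul] } K (fun x => by
    have h0 := toReal_pos p hp
    refine lp.norm_le_of_forall_sum_le h0 (by positivity) (fun s => ?_)
    show ∑ i ∈ s, ‖w i (x (i + 1))‖ ^ p.toReal ≤ _
    rw [Real.mul_rpow hK (norm_nonneg _)]
    have h1 := lp.sum_rpow_le_norm_rpow h0 x (s.map ⟨fun i => i + 1, fun a b h => by simpa using h⟩)
    rw [Finset.sum_map] at h1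
    calc ∑ i ∈ s, ‖w i (x (i + 1))‖ ^ p.toReal ≤
        ∑ i ∈ s, K ^ p.toReal * ‖x (i + 1)‖ ^ p.toReal := by
          apply Finset.sum_le_sum
          intro i _
          rw [← Real.mul_rpow hK (norm_nonneg _)]
          exact Real.rpow_le_rpow (norm_nonneg _) (hw _ _) h0.le
      _ = K ^ p.toReal * ∑ i ∈ s, ‖x (i + 1)‖ ^ p.toReal := by rw [Finset.mul_sum]
      _ ≤ K ^ p.toReal * ‖x‖ ^ p.toReal := by
          gcongr
          exact h1)

lemma lpShift_apply (hp : p ≠ ∞) (w : ℕ → H →L[𝕜] H) {K : ℝ} (hK : 0 ≤ K)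
    (hw : ∀ i v, ‖w i v‖ ≤ K * ‖v‖) (x : lp (fun _ : ℕ => H) p) (i : ℕ) :
    lpShift hp w hK hw x i = w i (x (i + 1)) := rfl

/-- The `ℓ_p`-sum of copies of `H`. -/
noncomputable def lpSum (hp : p ≠ ∞) : SumSp 𝕜 H (lp (fun _ : ℕ => H) p) where
  ι := fun i => lp.singleContinuousLinearMap 𝕜 (fun _ : ℕ => H) p i
  π := fun i => lp.evalCLM 𝕜 (fun _ : ℕ => H) p i
  pi_iota := by
    intro i j v
    show (lp.single p j v : lp (fun _ : ℕ => H) p) i = _
    rw [lp.single_apply, Pi.single_apply]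
  mono := by
    intro x y K hK h
    have h1 : ‖x‖ ≤ ‖(K : 𝕜) • y‖ := by
      apply lp.norm_mono (zero_lt_one.trans_le hp1.out).ne'
      intro i
      rw [lp.coeFn_smul, Pi.smul_apply, norm_smul, RCLike.norm_ofReal, abs_of_nonneg hK]
      exact h i
    rwa [norm_smul, RCLike.norm_ofReal, abs_of_nonneg hK] at h1
  norm_iota := by
    intro i v
    exact (lp.norm_single (E := fun _ : ℕ => H) (zero_lt_one.trans_le hp1.out) i v).le
  norm_pi := by
    intro i x
    exact lp.norm_apply_le_norm (zero_lt_one.trans_le hp1.out).ne' x i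
  dense := by
    intro x ε hε
    have h1 := (lp.hasSum_single hp x).tendsto_sum_nat
    obtain ⟨N, hN⟩ := (Metric.tendsto_atTop.1 h1) ε hε
    refine ⟨N, ?_⟩
    have := hN N le_rfl
    rw [dist_comm, dist_eq_norm] at this
    exact this
  shift := by
    intro w K hK hw
    exact ⟨lpShift hp w hK hw, fun x i => rfl, fun x => LinearMap.mkContinuous_norm_le _ hK _ |>
      fun h => ((lpShift hp w hK hw).le_opNorm x).trans (by gcongr; exact h)⟩

end Pool.Agent.Y609.WS
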