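import Mathlib

/-!
# Weights for operator-weighted shifts which are bounded on moving functionals

`Data 𝕜 H`: bounded functionals `f k` and a weakly null bounded sequence `z k` of `H` with
`f k (z k) = 1`, and a vector `y` with `f k y = 1` for all `k`; `f b (z k)` is small for `b < k`.
`Rk D k c` is `c` on the kernel of `f k` and fixes `z k`.
-/

set_option autoImplicit false

open Filter Topology

namespace Pool.Agent.Y609.WS

/-- The index of the block of `n`. -/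
def bl (n : ℕ) : ℕ := Nat.log 3 n

/-- The distance from `n` to the ends of its block. -/
def mm (n : ℕ) : ℕ := min (n - 3 ^ bl n) (3 ^ (bl n + 1) - n)

lemma mm_zero : mm 0 = 0 := by
  simp [mm, bl]

lemma pow_bl_le {n : ℕ} (hn : n ≠ 0) : 3 ^ bl n ≤ n := Nat.pow_log_le_self 3 hn

lemma lt_pow_bl (n : ℕ) : n < 3 ^ (bl n + 1) := Nat.lt_pow_succ_log_self (by norm_num) n

lemma bl_eq {n k : ℕ} (h1 : 3 ^ k ≤ n) (h2 : n < 3 ^ (k + 1)) : bl n = k :=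
  Nat.log_eq_of_pow_le_of_lt_pow h1 h2

lemma bl_lt {i k : ℕ} (hk : 1 ≤ k) (h : i < 3 ^ k) : bl i < k := by
  rcases Nat.eq_zero_or_pos i with rfl | hi
  · simp [bl]; omega
  · exact Nat.log_lt_of_lt_pow hi.ne' h

lemma step (n : ℕ) : (bl (n + 1) = bl n ∨ mm (n + 1) = 0) ∧ mm (n + 1) ≤ mm n + 1 ∧
    mm n ≤ mm (n + 1) + 1 := by
  have h2 := lt_pow_bl n
  have h3 : 3 ^ bl n ≤ n + 1 := by
    rcases Nat.eq_zero_or_pos n with rfl | hn
    · simp [bl]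
    · exact (pow_bl_le hn.ne').trans (Nat.le_succ n)
  have e1 : 3 ^ (bl n + 1) = 3 * 3 ^ bl n := by rw [pow_succ]; ring
  by_cases h : n + 1 < 3 ^ (bl n + 1)
  · have h4 : bl (n + 1) = bl n := bl_eq h3 h
    refine ⟨Or.inl h4, ?_, ?_⟩
    · unfold mm; rw [h4]; omega
    · unfold mm; rw [h4]; omega
  · have h5 : n + 1 = 3 ^ (bl n + 1) := by omega
    have h6 : bl (n + 1) = bl n + 1 := bl_eq h5.ge (by
      rw [h5]; exact Nat.pow_lt_pow_right (by norm_num) (by omega))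
    have h7 : mm (n + 1) = 0 := by
      unfold mm
      rw [h6, h5]
      simp
    refine ⟨Or.inr h7, by omega, ?_⟩
    rw [h7]
    unfold mm
    omega

lemma bl_mid {k i : ℕ} (h : i < 3 ^ k) : bl (2 * 3 ^ k + i) = k := by
  apply bl_eq
  · omega
  · rw [pow_succ]; omega

lemma mm_mid {k i : ℕ} (h : i < 3 ^ k) : mm (2 * 3 ^ k + i) = 3 ^ k - i := by
  unfold mm
  rw [bl_mid h, pow_succ]
  omega

lemma bl_pre (k : ℕ) : bl (2 * 3 ^ k - 1) = k := by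
  have : 0 < 3 ^ k := by positivity
  apply bl_eq
  · omega
  · rw [pow_succ]; omega

lemma mm_pre (k : ℕ) : mm (2 * 3 ^ k - 1) = 3 ^ k - 1 := by
  have : 0 < 3 ^ k := by positivity
  unfold mm
  rw [bl_pre k, pow_succ]
  omega

variable {𝕜 : Type} [RCLike 𝕜] {H : Type} [NormedAddCommGroup H] [NormedSpace 𝕜 H]

/-- Functionals `f k`, a weakly null sequence `z k`, a vector `y`. -/
structure Data (𝕜 : Type) [RCLike 𝕜] (H : Type) [NormedAddCommGroup H] [NormedSpace 𝕜 H] where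
  /-- The functionals. -/
  f : ℕ → H →L[𝕜] 𝕜
  /-- The weakly null sequence. -/
  z : ℕ → H
  /-- The vector. -/
  y : H
  /-- The bound. -/
  M : ℝ
  hM : 1 ≤ M
  hf : ∀ k v, ‖f k v‖ ≤ M * ‖v‖
  hz : ∀ k, ‖z k‖ ≤ M
  fz : ∀ k, f k (z k) = 1
  fy : ∀ k, f k y = 1
  weak : ∀ φ : H →L[𝕜] 𝕜, Tendsto (fun k => φ (z k)) atTop (𝓝 0)
  small : ∀ b k, b < k → ‖f b (z k)‖ * (2 * M ^ 2) ≤ 1

/-- `c` on the kernel of `f k`, the identity on the span of `z k`. -/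
noncomputable def Rk (D : Data 𝕜 H) (k : ℕ) (c : ℝ) : H →L[𝕜] H :=
  (c : 𝕜) • ContinuousLinearMap.id 𝕜 H + (((1 - c : ℝ) : 𝕜)) • (D.f k).smulRight (D.z k)

lemma Rk_apply (D : Data 𝕜 H) (k : ℕ) (c : ℝ) (v : H) :
    Rk D k c v = (c : 𝕜) • v + (((1 - c : ℝ) : 𝕜)) • (D.f k v) • D.z k := by
  simp [Rk]

lemma f_Rk (D : Data 𝕜 H) (k : ℕ) (c : ℝ) (v : H) : D.f k (Rk D k c v) = D.f k v := by
  rw [Rk_apply, map_add, map_smul, map_smul, map_smul, D.fz]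
  simp only [smul_eq_mul]
  push_cast
  ring

lemma Rk_Rk (D : Data 𝕜 H) (k : ℕ) (c d : ℝ) (v : H) :
    Rk D k c (Rk D k d v) = Rk D k (c * d) v := by
  rw [Rk_apply D k c, f_Rk, Rk_apply D k d, Rk_apply D k (c * d)]
  simp only [smul_add, smul_smul, ← add_smul, add_assoc]
  congr 2
  · push_cast; ring
  · push_cast; ring

lemma Rk_one (D : Data 𝕜 H) (k : ℕ) (v : H) : Rk D k 1 v = v := by
  rw [Rk_apply]; simp

lemma Rk_ker (D : Data 𝕜 H) (k : ℕ) (c : ℝ) {v : H} (hv : D.f k v = 0) :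
    Rk D k c v = (c : 𝕜) • v := by
  rw [Rk_apply, hv]; simp

lemma norm_Rk_le (D : Data 𝕜 H) (k : ℕ) {c : ℝ} (hc : 0 ≤ c) (v : H) :
    ‖Rk D k c v‖ ≤ (c + (1 + c) * D.M ^ 2) * ‖v‖ := by
  have hM := D.hM
  rw [Rk_apply]
  refine (norm_add_le _ _).trans ?_
  rw [norm_smul, norm_smul, norm_smul, RCLike.norm_ofReal, RCLike.norm_ofReal, abs_of_nonneg hc]
  have h1 : |1 - c| ≤ 1 + c := by
    rw [abs_le]; constructor <;> linarith
  have h2 := D.hf k v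
  have h3 := D.hz k
  have h4 : ‖D.f k v‖ * ‖D.z k‖ ≤ D.M ^ 2 * ‖v‖ := by
    calc ‖D.f k v‖ * ‖D.z k‖ ≤ (D.M * ‖v‖) * D.M := by gcongr
      _ = D.M ^ 2 * ‖v‖ := by ring
  have h5 : |1 - c| * (‖D.f k v‖ * ‖D.z k‖) ≤ (1 + c) * (D.M ^ 2 * ‖v‖) := by
    gcongr
  linarith

/-- The products of the weights. -/
noncomputable def P (D : Data 𝕜 H) (L : ℝ) (n : ℕ) : H →L[𝕜] H := Rk D (bl n) (L ^ mm n)

/-- The weights. -/
noncomputable def wt (D : Data 𝕜 H) (L : ℝ) (n : ℕ) : H →L[𝕜] H :=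
  Rk D (bl n) (L ^ mm (n + 1) / L ^ mm n)

lemma P_zero (D : Data 𝕜 H) (L : ℝ) (v : H) : P D L 0 v = v := by
  unfold P; rw [mm_zero, pow_zero, Rk_one]

lemma P_succ (D : Data 𝕜 H) {L : ℝ} (hL : 0 < L) (n : ℕ) (v : H) :
    P D L n (wt D L n v) = P D L (n + 1) v := by
  unfold P wt
  rw [Rk_Rk]
  have e : L ^ mm n * (L ^ mm (n + 1) / L ^ mm n) = L ^ mm (n + 1) := by
    have : L ^ mm n ≠ 0 := by positivity
    field_simp
  rw [e]
  rcases (step n).1 with h | h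
  · rw [h]
  · rw [h, pow_zero, Rk_one, Rk_one]

lemma norm_wt_le (D : Data 𝕜 H) {L : ℝ} (hL : 1 ≤ L) (n : ℕ) (v : H) :
    ‖wt D L n v‖ ≤ (3 * D.M ^ 2 * L) * ‖v‖ := by
  have hM := D.hM
  have h0 : 0 < L := by linarith
  have h1 : 0 ≤ L ^ mm (n + 1) / L ^ mm n := by positivity
  have h2 : L ^ mm (n + 1) / L ^ mm n ≤ L := by
    rw [div_le_iff₀ (by positivity), ← pow_succ']
    exact pow_le_pow_right₀ hL (step n).2.1
  refine (norm_Rk_le D _ h1 v).trans ?_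
  have h3 : 1 ≤ D.M ^ 2 := one_le_pow₀ hM
  have h4 : L ^ mm (n + 1) / L ^ mm n + (1 + L ^ mm (n + 1) / L ^ mm n) * D.M ^ 2 ≤
      3 * D.M ^ 2 * L := by
    nlinarith
  gcongr

/-- The inverse of `P`. -/
lemma P_inj (D : Data 𝕜 H) {L : ℝ} (hL : 0 < L) (n : ℕ) {u v : H} (h : P D L n u = P D L n v) :
    u = v := by
  have h1 := congrArg (Rk D (bl n) (L ^ mm n)⁻¹) h
  unfold P at h1
  rw [Rk_Rk, Rk_Rk, inv_mul_cancel₀ (by positivity), Rk_one, Rk_one] at h1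
  exact h1

/-- The functional which corrects the `i`-th coordinate. -/
noncomputable def lam (D : Data 𝕜 H) (L : ℝ) (k i : ℕ) (v : H) : 𝕜 :=
  D.f k (P D L i v) / D.f k (P D L i (D.z k))

lemma lam_add (D : Data 𝕜 H) (L : ℝ) (k i : ℕ) (u v : H) :
    lam D L k i (u + v) = lam D L k i u + lam D L k i v := by
  simp [lam, add_div]

lemma lam_sub (D : Data 𝕜 H) (L : ℝ) (k i : ℕ) (u v : H) :
    lam D L k i (u - v) = lam D L k i u - lam D L k i v := by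
  simp [lam, sub_div]

lemma P_z (D : Data 𝕜 H) {L : ℝ} (hL : 1 ≤ L) {k i : ℕ} (hk : bl i < k) :
    L ^ mm i / 2 ≤ ‖D.f k (P D L i (D.z k))‖ := by
  have hM := D.hM
  unfold P
  rw [Rk_apply, map_add, map_smul, map_smul, map_smul, D.fz]
  simp only [smul_eq_mul, mul_one]
  set c := L ^ mm i with hc
  have hc1 : 1 ≤ c := one_le_pow₀ hL
  have h1 := D.small (bl i) k hk
  have h2 : ‖D.f k (D.z (bl i))‖ ≤ D.M ^ 2 := by
    refine (D.hf _ _).trans ?_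
    have := D.hz (bl i)
    calc D.M * ‖D.z (bl i)‖ ≤ D.M * D.M := by gcongr
      _ = D.M ^ 2 := by ring
  have h3 : ‖((1 - c : ℝ) : 𝕜) * (D.f (bl i) (D.z k) * D.f k (D.z (bl i)))‖ ≤ c / 2 := by
    rw [norm_mul, norm_mul, RCLike.norm_ofReal]
    have h4 : |1 - c| ≤ c := by
      rw [abs_le]; constructor <;> linarith
    have h5 : ‖D.f (bl i) (D.z k)‖ * ‖D.f k (D.z (bl i))‖ ≤ 1 / 2 := by
      have : ‖D.f (bl i) (D.z k)‖ * ‖D.f k (D.z (bl i))‖ ≤ ‖D.f (bl i) (D.z k)‖ * D.M ^ 2 := by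
        gcongr
      linarith
    calc |1 - c| * (‖D.f (bl i) (D.z k)‖ * ‖D.f k (D.z (bl i))‖) ≤ c * (1 / 2) := by
          gcongr
      _ = c / 2 := by ring
  have h6 : ‖(c : 𝕜)‖ = c := by
    rw [RCLike.norm_ofReal, abs_of_nonneg (by linarith)]
  have h7 := norm_sub_norm_le (c : 𝕜)
    (-(((1 - c : ℝ) : 𝕜) * (D.f (bl i) (D.z k) * D.f k (D.z (bl i)))))
  rw [sub_neg_eq_add, norm_neg, h6] at h7
  linarith

lemma P_z_ne (D : Data 𝕜 H) {L : ℝ} (hL : 1 ≤ L) {k i : ℕ} (hk : bl i < k) :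
    D.f k (P D L i (D.z k)) ≠ 0 := by
  have h := P_z D hL hk
  have h0 : 0 < L ^ mm i / 2 := by positivity
  exact norm_pos_iff.1 (h0.trans_le h)

lemma norm_lam_le (D : Data 𝕜 H) {L : ℝ} (hL : 1 ≤ L) {k i : ℕ} (hk : bl i < k) (v : H) :
    ‖lam D L k i v‖ ≤ 4 * D.M ^ 3 * ‖v‖ := by
  have hM := D.hM
  unfold lam
  rw [norm_div]
  have h := P_z D hL hk
  have h0 : 0 < L ^ mm i / 2 := by positivity
  rw [div_le_iff₀ (h0.trans_le h)]
  have h1 : ‖D.f k (P D L i v)‖ ≤ L ^ mm i * (2 * D.M ^ 3) * ‖v‖ := by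
    unfold P
    rw [Rk_apply, map_add, map_smul, map_smul, map_smul]
    simp only [smul_eq_mul]
    set c := L ^ mm i with hc
    have hc1 : 1 ≤ c := one_le_pow₀ hL
    refine (norm_add_le _ _).trans ?_
    rw [norm_mul, norm_mul, norm_mul, RCLike.norm_ofReal, RCLike.norm_ofReal,
      abs_of_nonneg (by linarith : (0 : ℝ) ≤ c)]
    have h4 : |1 - c| ≤ c := by
      rw [abs_le]; constructor <;> linarith
    have h2 : ‖D.f k (D.z (bl i))‖ ≤ D.M ^ 2 := by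
      refine (D.hf _ _).trans ?_
      have := D.hz (bl i)
      calc D.M * ‖D.z (bl i)‖ ≤ D.M * D.M := by gcongr
        _ = D.M ^ 2 := by ring
    have h5 := D.hf k v
    have h6 := D.hf (bl i) v
    calc c * ‖D.f k v‖ + |1 - c| * (‖D.f (bl i) v‖ * ‖D.f k (D.z (bl i))‖) ≤
        c * (D.M * ‖v‖) + c * ((D.M * ‖v‖) * D.M ^ 2) := by gcongr
      _ = c * ‖v‖ * (D.M + D.M ^ 3) := by ring
      _ ≤ c * ‖v‖ * (D.M ^ 3 + D.M ^ 3) := by
          have : D.M ≤ D.M ^ 3 := by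
            calc D.M = D.M ^ 1 := (pow_one _).symm
              _ ≤ D.M ^ 3 := pow_le_pow_right₀ hM (by norm_num)
          gcongr
      _ = c * (2 * D.M ^ 3) * ‖v‖ := by ring
  calc ‖D.f k (P D L i v)‖ ≤ L ^ mm i * (2 * D.M ^ 3) * ‖v‖ := h1
    _ = 4 * D.M ^ 3 * ‖v‖ * (L ^ mm i / 2) := by ring
    _ ≤ 4 * D.M ^ 3 * ‖v‖ * ‖D.f k (P D L i (D.z k))‖ := by gcongr

/-- The corrected vector. -/
lemma f_corr (D : Data 𝕜 H) {L : ℝ} (hL : 1 ≤ L) {k i : ℕ} (hk : bl i < k) (v : H) :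
    D.f k (P D L i (v - lam D L k i v • D.z k)) = 0 := by
  rw [map_sub, map_smul, map_sub, map_smul, smul_eq_mul]
  unfold lam
  rw [div_mul_cancel₀ _ (P_z_ne D hL hk), sub_self]

end Pool.Agent.Y609.WS
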