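import Pool.Agent.Y609.WS.Core

/-!
# Weights given by projections, and the vectors which reach given targets
-/

set_option autoImplicit false

open Filter Topology Finset

namespace Pool.Agent.Y609.WS

variable {𝕜 : Type} [RCLike 𝕜] {H : Type} [NormedAddCommGroup H] [NormedSpace 𝕜 H]
  {B : Type} [NormedAddCommGroup B] [NormedSpace 𝕜 B]
  {Z : Type} [NormedAddCommGroup Z] [NormedSpace 𝕜 Z]

/-- Uniformly bounded projections. -/
structure PData (𝕜 : Type) [RCLike 𝕜] (H : Type) [NormedAddCommGroup H] [NormedSpace 𝕜 H] where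
  /-- The projections. -/
  Q : ℕ → H →L[𝕜] H
  /-- The bound. -/
  M : ℝ
  hM : 1 ≤ M
  proj : ∀ k v, Q k (Q k v) = Q k v
  bound : ∀ k v, ‖Q k v‖ ≤ M * ‖v‖

namespace PData

/-- `c` on the kernel of `Q k`, the identity on the range. -/
noncomputable def Rk (D : PData 𝕜 H) (k : ℕ) (c : ℝ) : H →L[𝕜] H :=
  (c : 𝕜) • ContinuousLinearMap.id 𝕜 H + (((1 - c : ℝ) : 𝕜)) • D.Q k

lemma Rk_apply (D : PData 𝕜 H) (k : ℕ) (c : ℝ) (v : H) :
    D.Rk k c v = (c : 𝕜) • v + (((1 - c : ℝ) : 𝕜)) • D.Q k v := by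
  simp [Rk]

lemma Q_Rk (D : PData 𝕜 H) (k : ℕ) (c : ℝ) (v : H) : D.Q k (D.Rk k c v) = D.Q k v := by
  rw [Rk_apply, map_add, map_smul, map_smul, D.proj, ← add_smul]
  have : (c : 𝕜) + ((1 - c : ℝ) : 𝕜) = 1 := by push_cast; ring
  rw [this, one_smul]

lemma Rk_Rk (D : PData 𝕜 H) (k : ℕ) (c d : ℝ) (v : H) :
    D.Rk k c (D.Rk k d v) = D.Rk k (c * d) v := by
  rw [Rk_apply D k c, Q_Rk, Rk_apply D k d, Rk_apply D k (c * d)]
  simp only [smul_add, smul_smul, ← add_smul, add_assoc]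
  congr 2
  · push_cast; ring
  · push_cast; ring

lemma Rk_one (D : PData 𝕜 H) (k : ℕ) (v : H) : D.Rk k 1 v = v := by
  rw [Rk_apply]; simp

lemma Rk_ker (D : PData 𝕜 H) (k : ℕ) (c : ℝ) {v : H} (hv : D.Q k v = 0) :
    D.Rk k c v = (c : 𝕜) • v := by
  rw [Rk_apply, hv]; simp

lemma norm_Rk_le (D : PData 𝕜 H) (k : ℕ) {c : ℝ} (hc : 0 ≤ c) (v : H) :
    ‖D.Rk k c v‖ ≤ (c + (1 + c) * D.M) * ‖v‖ := by
  have hM := D.hM
  rw [Rk_apply]
  refine (norm_add_le _ _).trans ?_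
  rw [norm_smul, norm_smul, RCLike.norm_ofReal, RCLike.norm_ofReal, abs_of_nonneg hc]
  have h1 : |1 - c| ≤ 1 + c := by
    rw [abs_le]; constructor <;> linarith
  have h2 := D.bound k v
  have h5 : |1 - c| * ‖D.Q k v‖ ≤ (1 + c) * (D.M * ‖v‖) := by
    gcongr
  linarith

/-- The products of the weights. -/
noncomputable def P (D : PData 𝕜 H) (L : ℝ) (n : ℕ) : H →L[𝕜] H := D.Rk (bl n) (L ^ mm n)

/-- The inverses of the products. -/
noncomputable def Pi (D : PData 𝕜 H) (L : ℝ) (n : ℕ) : H →L[𝕜] H := D.Rk (bl n) (L ^ mm n)⁻¹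

/-- The weights. -/
noncomputable def wt (D : PData 𝕜 H) (L : ℝ) (n : ℕ) : H →L[𝕜] H :=
  D.Rk (bl n) (L ^ mm (n + 1) / L ^ mm n)

lemma P_zero (D : PData 𝕜 H) (L : ℝ) (v : H) : D.P L 0 v = v := by
  unfold P; rw [mm_zero, pow_zero, Rk_one]

lemma P_succ (D : PData 𝕜 H) {L : ℝ} (hL : 0 < L) (n : ℕ) (v : H) :
    D.P L n (D.wt L n v) = D.P L (n + 1) v := by
  unfold P wt
  rw [Rk_Rk]
  have e : L ^ mm n * (L ^ mm (n + 1) / L ^ mm n) = L ^ mm (n + 1) := by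
    have : L ^ mm n ≠ 0 := by positivity
    field_simp
  rw [e]
  rcases (step n).1 with h | h
  · rw [h]
  · rw [h, pow_zero, Rk_one, Rk_one]

lemma norm_wt_le (D : PData 𝕜 H) {L : ℝ} (hL : 1 ≤ L) (n : ℕ) (v : H) :
    ‖D.wt L n v‖ ≤ (3 * D.M * L) * ‖v‖ := by
  have hM := D.hM
  have h0 : 0 < L := by linarith
  have h1 : 0 ≤ L ^ mm (n + 1) / L ^ mm n := by positivity
  have h2 : L ^ mm (n + 1) / L ^ mm n ≤ L := by
    rw [div_le_iff₀ (by positivity), ← pow_succ']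
    exact pow_le_pow_right₀ hL (step n).2.1
  refine (norm_Rk_le D _ h1 v).trans ?_
  have h4 : L ^ mm (n + 1) / L ^ mm n + (1 + L ^ mm (n + 1) / L ^ mm n) * D.M ≤
      3 * D.M * L := by
    nlinarith
  gcongr

lemma Pi_P (D : PData 𝕜 H) {L : ℝ} (hL : 0 < L) (n : ℕ) (v : H) :
    D.Pi L n (D.P L n v) = v := by
  unfold Pi P
  rw [Rk_Rk, inv_mul_cancel₀ (by positivity), Rk_one]

lemma P_Pi (D : PData 𝕜 H) {L : ℝ} (hL : 0 < L) (n : ℕ) (v : H) :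
    D.P L n (D.Pi L n v) = v := by
  unfold Pi P
  rw [Rk_Rk, mul_inv_cancel₀ (by positivity), Rk_one]

end PData

namespace SumSp

variable {S : SumSp 𝕜 H B} {D : PData 𝕜 H} {L : ℝ}

lemma P_pow2 (hL : 0 < L) {T : B →L[𝕜] B}
    (hT : ∀ x i, S.π i (T x) = D.wt L i (S.π (i + 1) x)) (n : ℕ) :
    ∀ (x : B) (i : ℕ), D.P L i (S.π i ((T ^ n) x)) = D.P L (i + n) (S.π (i + n) x) := by
  induction n with
  | zero => intro x i; simp
  | succ n ih =>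
    intro x i
    have e1 : (T ^ (n + 1)) x = T ((T ^ n) x) := by rw [pow_succ']; rfl
    rw [e1, hT, D.P_succ hL, ih]
    congr 2
    · omega
    · congr 1; omega

lemma pi_pow2 (hL : 0 < L) {T : B →L[𝕜] B}
    (hT : ∀ x i, S.π i (T x) = D.wt L i (S.π (i + 1) x)) (n : ℕ) (x : B) (i : ℕ) :
    S.π i ((T ^ n) x) = D.Pi L i (D.P L (i + n) (S.π (i + n) x)) := by
  rw [← P_pow2 hL hT n x i, D.Pi_P hL]

/-- The vector. -/
noncomputable def sw (S : SumSp 𝕜 H B) (L : ℝ) (k N : ℕ) (W : ℕ → H) (h : H) : B :=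
  ∑ i ∈ range N, S.ι (2 * 3 ^ k + i) ((((L ^ (3 ^ k - i))⁻¹ : ℝ) : 𝕜) • W i) +
  S.ι (2 * 3 ^ k - 1) ((((L ^ (3 ^ k - 1))⁻¹ : ℝ) : 𝕜) • h)

lemma pi_sw_mid (k N : ℕ) (W : ℕ → H) (h : H) (i : ℕ) :
    S.π (2 * 3 ^ k + i) (sw S L k N W h) = if i < N then
      (((L ^ (3 ^ k - i))⁻¹ : ℝ) : 𝕜) • W i else 0 := by
  have h0 : 0 < 3 ^ k := by positivity
  unfold sw
  rw [map_add, map_sum, S.pi_iota, if_neg (by omega), add_zero]
  have e : ∀ j ∈ range N, S.π (2 * 3 ^ k + i) (S.ι (2 * 3 ^ k + j)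
      ((((L ^ (3 ^ k - j))⁻¹ : ℝ) : 𝕜) • W j)) =
      if i = j then ((((L ^ (3 ^ k - j))⁻¹ : ℝ) : 𝕜) • W j) else 0 := by
    intro j _
    rw [S.pi_iota]
    by_cases hij : i = j
    · rw [if_pos (by omega), if_pos hij]
    · rw [if_neg (by omega), if_neg hij]
  rw [Finset.sum_congr rfl e, Finset.sum_ite_eq]
  simp

lemma pi_sw_pre (k N : ℕ) (W : ℕ → H) (h : H) :
    S.π (2 * 3 ^ k - 1) (sw S L k N W h) = (((L ^ (3 ^ k - 1))⁻¹ : ℝ) : 𝕜) • h := by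
  have h0 : 0 < 3 ^ k := by positivity
  unfold sw
  rw [map_add, map_sum, S.pi_iota, if_pos rfl, Finset.sum_eq_zero, zero_add]
  intro j _
  rw [S.pi_iota, if_neg (by omega)]

lemma pow_sw (hL : 1 ≤ L) {T : B →L[𝕜] B}
    (hT : ∀ x i, S.π i (T x) = D.wt L i (S.π (i + 1) x)) {k N : ℕ}
    (hN : N ≤ 3 ^ k) (W : ℕ → H) (h : H) (hW : ∀ i < N, D.Q k (W i) = 0) :
    (T ^ (2 * 3 ^ k)) (sw S L k N W h) = ∑ i ∈ range N, S.ι i (D.Pi L i (W i)) := by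
  apply S.ext'
  intro i
  rw [pi_pow2 (by linarith : 0 < L) hT, add_comm i, pi_sw_mid, S.pi_sum]
  by_cases hi : i < N
  · have hi3 : i < 3 ^ k := hi.trans_le hN
    rw [if_pos hi, if_pos hi]
    congr 1
    unfold PData.P
    rw [bl_mid hi3, mm_mid hi3]
    rw [D.Rk_ker k _ (by rw [map_smul, hW i hi, smul_zero]), smul_smul, ← RCLike.ofReal_mul,
      mul_inv_cancel₀ (by positivity), RCLike.ofReal_one, one_smul]
  · rw [if_neg hi, if_neg hi, map_zero, map_zero]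

lemma pow_sw_pre (hL : 1 ≤ L) {T : B →L[𝕜] B}
    (hT : ∀ x i, S.π i (T x) = D.wt L i (S.π (i + 1) x)) {k N : ℕ} (W : ℕ → H) (h : H)
    (hh : D.Q k h = 0) :
    S.π 0 ((T ^ (2 * 3 ^ k - 1)) (sw S L k N W h)) = h := by
  have h1 := P_pow2 (S := S) (D := D) (by linarith : 0 < L) hT (2 * 3 ^ k - 1)
    (sw S L k N W h) 0
  rw [D.P_zero, zero_add, pi_sw_pre] at h1
  rw [h1]
  unfold PData.P
  rw [bl_pre, mm_pre]
  rw [D.Rk_ker k _ (by rw [map_smul, hh, smul_zero]), smul_smul, ← RCLike.ofReal_mul,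
    mul_inv_cancel₀ (by positivity), RCLike.ofReal_one, one_smul]

lemma TX_pow_sw (hL : 1 ≤ L) {T : B →L[𝕜] B} (R : H →L[𝕜] Z)
    (hT : ∀ x i, S.π i (T x) = D.wt L i (S.π (i + 1) x)) {k N : ℕ}
    (hN : N ≤ 3 ^ k) (W : ℕ → H) (h : H) (hW : ∀ i < N, D.Q k (W i) = 0)
    (hh : D.Q k h = 0) :
    ((TX S R T) ^ (2 * 3 ^ k)) ((0 : Z), sw S L k N W h) =
      (R h, ∑ i ∈ range N, S.ι i (D.Pi L i (W i))) := by
  have h0 : 0 < 3 ^ k := by positivity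
  obtain ⟨m, hm⟩ : ∃ m, 2 * 3 ^ k = m + 1 := ⟨2 * 3 ^ k - 1, by omega⟩
  have h1 := pow_sw_pre (S := S) hL hT (k := k) (N := N) W h hh
  have h2 := pow_sw (S := S) hL hT hN W h hW
  have hm' : 2 * 3 ^ k - 1 = m := by omega
  rw [hm'] at h1
  rw [hm] at h2 ⊢
  rw [TX_pow_succ]
  simp only
  rw [h1, h2]

lemma TX_pow_sw_zero (hL : 1 ≤ L) {T : B →L[𝕜] B} (R : H →L[𝕜] Z)
    (hT : ∀ x i, S.π i (T x) = D.wt L i (S.π (i + 1) x)) {k N : ℕ}
    (hN : N < 3 ^ k) (W : ℕ → H) (h : H) {m : ℕ} (hm : 3 ^ (k + 1) ≤ m) :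
    ((TX S R T) ^ m) ((0 : Z), sw S L k N W h) = 0 := by
  rw [pow_succ] at hm
  have h0 : 0 < 3 ^ k := by positivity
  obtain ⟨m', rfl⟩ : ∃ m', m = m' + 1 := ⟨m - 1, by omega⟩
  have key : ∀ n, 2 * 3 ^ k + N ≤ n → (T ^ n) (sw S L k N W h) = 0 := by
    intro n hn
    apply S.ext'
    intro i
    rw [pi_pow2 (by linarith : 0 < L) hT]
    obtain ⟨a, ha⟩ : ∃ a, i + n = 2 * 3 ^ k + a := ⟨i + n - 2 * 3 ^ k, by omega⟩
    rw [ha, pi_sw_mid, if_neg (by omega), map_zero, map_zero, map_zero]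
  rw [TX_pow_succ]
  simp only
  rw [key m' (by omega), key (m' + 1) (by omega), map_zero, map_zero]
  rfl

lemma inv_pow_sub' {L : ℝ} (hL : 1 ≤ L) {a i : ℕ} (h : i ≤ a) :
    (L ^ (a - i))⁻¹ = L ^ i / L ^ a := by
  have h0 : 0 < L := by linarith
  have e : L ^ a = L ^ (a - i) * L ^ i := by rw [← pow_add]; congr 1; omega
  rw [e]
  field_simp

lemma norm_sw_le (hL : 1 ≤ L) {k N : ℕ} (hN : N ≤ 3 ^ k) (W : ℕ → H) (h : H) :
    ‖sw S L k N W h‖ ≤ (∑ i ∈ range N, L ^ i * ‖W i‖ + L * ‖h‖) / L ^ (3 ^ k) := by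
  have h0 : 0 < L := by linarith
  have h3 : 1 ≤ 3 ^ k := Nat.one_le_pow _ _ (by norm_num)
  unfold sw
  rw [add_div, Finset.sum_div]
  refine (norm_add_le _ _).trans (add_le_add ((norm_sum_le _ _).trans
    (Finset.sum_le_sum fun i hi => ?_)) ?_)
  · have hi3 : i < 3 ^ k := (Finset.mem_range.1 hi).trans_le hN
    refine (S.norm_iota _ _).trans ?_
    rw [norm_smul, RCLike.norm_ofReal, abs_of_nonneg (by positivity), inv_pow_sub' hL hi3.le]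
    apply le_of_eq; ring
  · refine (S.norm_iota _ _).trans ?_
    rw [norm_smul, RCLike.norm_ofReal, abs_of_nonneg (by positivity), inv_pow_sub' hL h3, pow_one]
    apply le_of_eq; ring

/-- The coordinates tend to zero. -/
lemma tendsto_pi (x : B) : Tendsto (fun n => S.π n x) atTop (𝓝 0) := by
  rw [Metric.tendsto_atTop]
  intro ε hε
  obtain ⟨N, hN⟩ := S.dense x ε hε
  refine ⟨N, fun n hn => ?_⟩
  rw [dist_zero_right]
  have h1 := S.norm_pi n (x - ∑ i ∈ range N, S.ι i (S.π i x))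
  rw [map_sub, S.pi_sum, if_neg (by omega), sub_zero] at h1
  exact lt_of_le_of_lt h1 hN

end SumSp

end Pool.Agent.Y609.WS
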