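import Pool.Agent.Y609.WS.Core

/-!
# The vectors which reach a given target at the time `2 * 3 ^ k`
-/

set_option autoImplicit false

open Filter Topology Finset

namespace Pool.Agent.Y609.WS

namespace SumSp

variable {𝕜 : Type} [RCLike 𝕜] {H : Type} [NormedAddCommGroup H] [NormedSpace 𝕜 H]
  {B : Type} [NormedAddCommGroup B] [NormedSpace 𝕜 B]
  {Z : Type} [NormedAddCommGroup Z] [NormedSpace 𝕜 Z]

/-- The vector. -/
noncomputable def sv (S : SumSp 𝕜 H B) (D : Data 𝕜 H) (L : ℝ) (k N : ℕ) (g : ℕ → H) (h : H) : B :=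
  ∑ i ∈ range N, S.ι (2 * 3 ^ k + i)
    ((((L ^ (3 ^ k - i))⁻¹ : ℝ) : 𝕜) • P D L i (g i - lam D L k i (g i) • D.z k)) +
  S.ι (2 * 3 ^ k - 1) ((((L ^ (3 ^ k - 1))⁻¹ : ℝ) : 𝕜) • (h - D.f k h • D.z k))

variable {S : SumSp 𝕜 H B} {D : Data 𝕜 H} {L : ℝ}

lemma pi_sv_mid (k N : ℕ) (g : ℕ → H) (h : H) (i : ℕ) :
    S.π (2 * 3 ^ k + i) (sv S D L k N g h) = if i < N then
      (((L ^ (3 ^ k - i))⁻¹ : ℝ) : 𝕜) • P D L i (g i - lam D L k i (g i) • D.z k) else 0 := by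
  have h0 : 0 < 3 ^ k := by positivity
  unfold sv
  rw [map_add, map_sum, S.pi_iota, if_neg (by omega), add_zero]
  have e : ∀ j ∈ range N, S.π (2 * 3 ^ k + i) (S.ι (2 * 3 ^ k + j)
      ((((L ^ (3 ^ k - j))⁻¹ : ℝ) : 𝕜) • P D L j (g j - lam D L k j (g j) • D.z k))) =
      if i = j then ((((L ^ (3 ^ k - j))⁻¹ : ℝ) : 𝕜) •
        P D L j (g j - lam D L k j (g j) • D.z k)) else 0 := by
    intro j _
    rw [S.pi_iota]
    by_cases hij : i = j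
    · rw [if_pos (by omega), if_pos hij]
    · rw [if_neg (by omega), if_neg hij]
  rw [Finset.sum_congr rfl e, Finset.sum_ite_eq]
  simp

lemma pi_sv_pre (k N : ℕ) (g : ℕ → H) (h : H) :
    S.π (2 * 3 ^ k - 1) (sv S D L k N g h) =
      (((L ^ (3 ^ k - 1))⁻¹ : ℝ) : 𝕜) • (h - D.f k h • D.z k) := by
  have h0 : 0 < 3 ^ k := by positivity
  unfold sv
  rw [map_add, map_sum, S.pi_iota, if_pos rfl, Finset.sum_eq_zero, zero_add]
  intro j _
  rw [S.pi_iota, if_neg (by omega)]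

lemma pow_sv (hL : 1 ≤ L) {T : B →L[𝕜] B}
    (hT : ∀ x i, S.π i (T x) = wt D L i (S.π (i + 1) x)) {k N : ℕ} (hk : 1 ≤ k)
    (hN : N ≤ 3 ^ k) (g : ℕ → H) (h : H) :
    (T ^ (2 * 3 ^ k)) (sv S D L k N g h) =
      ∑ i ∈ range N, S.ι i (g i) - cor S D L k N (∑ i ∈ range N, S.ι i (g i)) := by
  apply S.ext'
  intro i
  apply P_inj D (by linarith : 0 < L) i
  rw [P_pow (by linarith : 0 < L) hT, add_comm i, pi_sv_mid, map_sub (S.π i), S.pi_sum]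
  unfold cor
  rw [S.pi_sum]
  by_cases hi : i < N
  · have hi3 : i < 3 ^ k := hi.trans_le hN
    rw [if_pos hi, if_pos hi, if_pos hi, S.pi_sum, if_pos hi]
    have hc := f_corr D hL (bl_lt hk hi3) (g i)
    unfold P at hc ⊢
    rw [bl_mid hi3, mm_mid hi3]
    rw [Rk_ker D k _ (by rw [map_smul, hc, smul_zero]), smul_smul, ← RCLike.ofReal_mul,
      mul_inv_cancel₀ (by positivity), RCLike.ofReal_one, one_smul]
  · rw [if_neg hi, if_neg hi, if_neg hi, sub_zero, map_zero, map_zero]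

lemma pow_sv_pre (hL : 1 ≤ L) {T : B →L[𝕜] B}
    (hT : ∀ x i, S.π i (T x) = wt D L i (S.π (i + 1) x)) {k N : ℕ} (g : ℕ → H) (h : H) :
    S.π 0 ((T ^ (2 * 3 ^ k - 1)) (sv S D L k N g h)) = h - D.f k h • D.z k := by
  have h1 := P_pow (S := S) (D := D) (by linarith : 0 < L) hT (2 * 3 ^ k - 1)
    (sv S D L k N g h) 0
  rw [P_zero, zero_add, pi_sv_pre] at h1
  rw [h1]
  unfold P
  rw [bl_pre, mm_pre]
  have hc : D.f k (h - D.f k h • D.z k) = 0 := by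
    rw [map_sub, map_smul, D.fz, smul_eq_mul, mul_one, sub_self]
  rw [Rk_ker D k _ (by rw [map_smul, hc, smul_zero]), smul_smul, ← RCLike.ofReal_mul,
    mul_inv_cancel₀ (by positivity), RCLike.ofReal_one, one_smul]

lemma TX_pow_sv (hL : 1 ≤ L) {T : B →L[𝕜] B} (R : H →L[𝕜] Z)
    (hT : ∀ x i, S.π i (T x) = wt D L i (S.π (i + 1) x)) {k N : ℕ} (hk : 1 ≤ k)
    (hN : N ≤ 3 ^ k) (g : ℕ → H) (h : H) :
    ((TX S R T) ^ (2 * 3 ^ k)) ((0 : Z), sv S D L k N g h) =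
      (R h - D.f k h • R (D.z k),
        ∑ i ∈ range N, S.ι i (g i) - cor S D L k N (∑ i ∈ range N, S.ι i (g i))) := by
  have h0 : 0 < 3 ^ k := by positivity
  obtain ⟨m, hm⟩ : ∃ m, 2 * 3 ^ k = m + 1 := ⟨2 * 3 ^ k - 1, by omega⟩
  have h1 := pow_sv_pre (S := S) hL hT (k := k) (N := N) g h
  have h2 := pow_sv (S := S) hL hT hk hN g h
  have hm' : 2 * 3 ^ k - 1 = m := by omega
  rw [hm'] at h1
  rw [hm] at h2 ⊢
  rw [TX_pow_succ]
  simp only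
  rw [h1, h2, map_sub, map_smul]

lemma TX_pow_sv_zero (hL : 1 ≤ L) {T : B →L[𝕜] B} (R : H →L[𝕜] Z)
    (hT : ∀ x i, S.π i (T x) = wt D L i (S.π (i + 1) x)) {k N : ℕ}
    (hN : N < 3 ^ k) (g : ℕ → H) (h : H) {m : ℕ} (hm : 3 ^ (k + 1) ≤ m) :
    ((TX S R T) ^ m) ((0 : Z), sv S D L k N g h) = 0 := by
  rw [pow_succ] at hm
  have h0 : 0 < 3 ^ k := by positivity
  obtain ⟨m', rfl⟩ : ∃ m', m = m' + 1 := ⟨m - 1, by omega⟩
  have key : ∀ n, 2 * 3 ^ k + N ≤ n → (T ^ n) (sv S D L k N g h) = 0 := by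
    intro n hn
    apply S.ext'
    intro i
    apply P_inj D (by linarith : 0 < L) i
    rw [P_pow (by linarith : 0 < L) hT]
    obtain ⟨a, ha⟩ : ∃ a, i + n = 2 * 3 ^ k + a := ⟨i + n - 2 * 3 ^ k, by omega⟩
    rw [ha, pi_sv_mid, if_neg (by omega), map_zero, map_zero, map_zero]
  rw [TX_pow_succ]
  simp only
  rw [key m' (by omega), key (m' + 1) (by omega), map_zero, map_zero]
  rfl

/-- The constant in the estimate of `sv`. -/
noncomputable def Acon (D : Data 𝕜 H) (L : ℝ) (N : ℕ) (g : ℕ → H) (h : H) : ℝ :=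
  ∑ i ∈ range N, L ^ i * (‖P D L i‖ * ((1 + 4 * D.M ^ 4) * ‖g i‖)) + L * ((1 + D.M ^ 2) * ‖h‖)

lemma inv_pow_sub {L : ℝ} (hL : 1 ≤ L) {a i : ℕ} (h : i ≤ a) :
    (L ^ (a - i))⁻¹ = L ^ i / L ^ a := by
  have h0 : 0 < L := by linarith
  have e : L ^ a = L ^ (a - i) * L ^ i := by rw [← pow_add]; congr 1; omega
  rw [e]
  field_simp

lemma norm_sv_le (hL : 1 ≤ L) {k N : ℕ} (hk : 1 ≤ k) (hN : N ≤ 3 ^ k) (g : ℕ → H) (h : H) :
    ‖sv S D L k N g h‖ ≤ Acon D L N g h / L ^ (3 ^ k) := by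
  have hM := D.hM
  have h0 : 0 < L := by linarith
  have h3 : 1 ≤ 3 ^ k := Nat.one_le_pow _ _ (by norm_num)
  unfold sv Acon
  rw [add_div, Finset.sum_div]
  refine (norm_add_le _ _).trans (add_le_add ((norm_sum_le _ _).trans
    (Finset.sum_le_sum fun i hi => ?_)) ?_)
  · have hi3 : i < 3 ^ k := (Finset.mem_range.1 hi).trans_le hN
    refine (S.norm_iota _ _).trans ?_
    rw [norm_smul, RCLike.norm_ofReal, abs_of_nonneg (by positivity), inv_pow_sub hL hi3.le]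
    have h1 : ‖g i - lam D L k i (g i) • D.z k‖ ≤ (1 + 4 * D.M ^ 4) * ‖g i‖ := by
      refine (norm_sub_le _ _).trans ?_
      rw [norm_smul]
      have h4 := norm_lam_le D hL (bl_lt hk hi3) (g i)
      have h5 := D.hz k
      have : ‖lam D L k i (g i)‖ * ‖D.z k‖ ≤ (4 * D.M ^ 3 * ‖g i‖) * D.M := by gcongr
      linarith
    have h2 : ‖P D L i (g i - lam D L k i (g i) • D.z k)‖ ≤
        ‖P D L i‖ * ((1 + 4 * D.M ^ 4) * ‖g i‖) :=
      ((P D L i).le_opNorm _).trans (by gcongr)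
    calc L ^ i / L ^ 3 ^ k * ‖P D L i (g i - lam D L k i (g i) • D.z k)‖ ≤
        L ^ i / L ^ 3 ^ k * (‖P D L i‖ * ((1 + 4 * D.M ^ 4) * ‖g i‖)) := by gcongr
      _ = L ^ i * (‖P D L i‖ * ((1 + 4 * D.M ^ 4) * ‖g i‖)) / L ^ 3 ^ k := by ring
  · refine (S.norm_iota _ _).trans ?_
    rw [norm_smul, RCLike.norm_ofReal, abs_of_nonneg (by positivity), inv_pow_sub hL h3, pow_one]
    have h1 : ‖h - D.f k h • D.z k‖ ≤ (1 + D.M ^ 2) * ‖h‖ := by
      refine (norm_sub_le _ _).trans ?_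
      rw [norm_smul]
      have h4 := D.hf k h
      have h5 := D.hz k
      have : ‖D.f k h‖ * ‖D.z k‖ ≤ (D.M * ‖h‖) * D.M := by gcongr
      linarith
    calc L / L ^ 3 ^ k * ‖h - D.f k h • D.z k‖ ≤ L / L ^ 3 ^ k * ((1 + D.M ^ 2) * ‖h‖) := by
          gcongr
      _ = L * ((1 + D.M ^ 2) * ‖h‖) / L ^ 3 ^ k := by ring

end SumSp

end Pool.Agent.Y609.WS
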