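import Pool.Agent.Y609.WS.Stage

/-!
# The operator has an orbit whose weak sequential limits are all vectors
-/

set_option autoImplicit false

open Filter Topology Finset

namespace Pool.Agent.Y609.WS

namespace SumSp

variable {𝕜 : Type} [RCLike 𝕜] {H : Type} [NormedAddCommGroup H] [NormedSpace 𝕜 H]
  {B : Type} [NormedAddCommGroup B] [NormedSpace 𝕜 B]
  {Z : Type} [NormedAddCommGroup Z] [NormedSpace 𝕜 Z]

/-- The targets. -/
def tgt (S : SumSp 𝕜 H B) (R : H →L[𝕜] Z) : Set (Z × B) :=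
  {p | ∃ (h : H) (N : ℕ) (g : ℕ → H), p = (R h, ∑ i ∈ range N, S.ι i (g i))}

lemma dense_tgt (S : SumSp 𝕜 H B) {R : H →L[𝕜] Z} (hR : DenseRange R) (y : Z × B) {ε : ℝ}
    (hε : 0 < ε) : ∃ p ∈ tgt S R, ‖p - y‖ < ε := by
  obtain ⟨h, hh⟩ := hR.exists_dist_lt y.1 hε
  obtain ⟨N, hN⟩ := S.dense y.2 ε hε
  refine ⟨(R h, ∑ i ∈ range N, S.ι i (S.π i y.2)), ⟨h, N, _, rfl⟩, ?_⟩
  rw [Prod.norm_def]
  refine max_lt ?_ ?_
  · rw [Prod.fst_sub, ← dist_eq_norm, dist_comm]; exact hh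
  · rw [Prod.snd_sub, norm_sub_rev]; exact hN

variable {S : SumSp 𝕜 H B} {D : Data 𝕜 H}

lemma exists_data {R : H →L[𝕜] Z} (hR : DenseRange R)
    (hz : Tendsto (fun k => R (D.z k)) atTop (𝓝 0)) [TopologicalSpace.SeparableSpace (Z × B)]
    {L : ℝ} (hL : 18 * D.M ^ 4 + ‖R‖ ≤ L) {T : B →L[𝕜] B}
    (hT : ∀ x i, S.π i (T x) = wt D L i (S.π (i + 1) x))
    (hTn : ∀ x, ‖T x‖ ≤ 3 * D.M ^ 2 * L * ‖x‖) :
    ∃ (g : ℕ → Z × B) (κ N : ℕ → ℕ) (s : ℕ → Z × B) (e : ℕ → Z), StrictMono κ ∧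
      (∀ j, 1 ≤ κ j) ∧ (∀ j, N j ≤ 3 ^ κ j) ∧
      (∀ j m, m ≤ 2 * 3 ^ (κ j - 1) → ‖((TX S R T) ^ m) (s j)‖ ≤ (1 / 2) ^ j) ∧
      (∀ j n, 3 ^ (κ j + 1) ≤ n → ((TX S R T) ^ n) (s j) = 0) ∧
      (∀ j, ‖e j‖ ≤ (1 / 2) ^ j) ∧
      (∀ j, ((TX S R T) ^ (2 * 3 ^ κ j)) (s j) =
        g j - (e j, cor S D L (κ j) (N j) (g j).2)) ∧
      (∀ y : Z × B, ∀ ε > 0, ∃ᶠ j in atTop, ‖g j - y‖ < ε) := by
  have hM := D.hM
  have hM4 : 1 ≤ D.M ^ 4 := one_le_pow₀ hM
  have hR0 := norm_nonneg R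
  have hL1 : 1 ≤ L := by linarith
  obtain ⟨c, hcV, hcc, hcd⟩ :=
    (TopologicalSpace.IsSeparable.of_separableSpace (tgt S R)).exists_countable_dense_subset
  have hne : c.Nonempty := by
    rw [← closure_nonempty_iff]
    exact ⟨(R 0, ∑ i ∈ range 0, S.ι i ((fun _ => 0) i)), hcd ⟨0, 0, _, rfl⟩⟩
  obtain ⟨d, hd⟩ := hcc.exists_eq_range hne
  have hdV : ∀ j, d j ∈ tgt S R := fun j => hcV (hd ▸ Set.mem_range_self j)
  set g : ℕ → Z × B := fun j => d (Nat.unpair j).1 with hg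
  have hgV : ∀ j, g j ∈ tgt S R := fun j => hdV _
  choose h N G hG using hgV
  obtain ⟨κ, hκ, hP⟩ := extraction_forall_of_eventually
    (P := fun j k => 1 ≤ k ∧ N j < 3 ^ k ∧
      Acon D L (N j) (G j) (h j) * 2 ^ j ≤ (2 : ℝ) ^ (3 ^ (k - 1)) ∧
      D.M * ‖h j‖ * ‖R (D.z k)‖ ≤ (1 / 2) ^ j)
    (by
      intro j
      have t1 : Tendsto (fun k : ℕ => 3 ^ k) atTop atTop :=
        tendsto_pow_atTop_atTop_of_one_lt (by norm_num : (1 : ℕ) < 3)
      have t2 : Tendsto (fun k : ℕ => (2 : ℝ) ^ (3 ^ (k - 1))) atTop atTop :=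
        (tendsto_pow_atTop_atTop_of_one_lt (one_lt_two)).comp (t1.comp (tendsto_sub_atTop_nat 1))
      have t3 : Tendsto (fun k : ℕ => D.M * ‖h j‖ * ‖R (D.z k)‖) atTop (𝓝 0) := by
        have := (tendsto_zero_iff_norm_tendsto_zero.1 hz).const_mul (D.M * ‖h j‖)
        rwa [mul_zero] at this
      filter_upwards [eventually_ge_atTop 1, t1.eventually_gt_atTop (N j),
        t2.eventually_ge_atTop (Acon D L (N j) (G j) (h j) * 2 ^ j),
        t3.eventually_le_const (by positivity : (0 : ℝ) < (1 / 2) ^ j)] with k a b c d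
      exact ⟨a, b, c, d⟩)
  refine ⟨g, κ, N, fun j => ((0 : Z), sv S D L (κ j) (N j) (G j) (h j)),
    fun j => D.f (κ j) (h j) • R (D.z (κ j)), hκ, fun j => (hP j).1, fun j => (hP j).2.1.le,
    ?_, ?_, ?_, ?_, ?_⟩
  · intro j m hm
    obtain ⟨hP1, hP2, hP3, -⟩ := hP j
    have e1 : 3 ^ κ j = 3 ^ (κ j - 1) * 3 := by
      rw [← pow_succ]; congr 1; omega
    set A := 3 ^ (κ j - 1) with hA
    set K := 3 * D.M ^ 2 * L with hK
    have hM2 : 1 ≤ D.M ^ 2 := one_le_pow₀ hM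
    have hK1 : 1 ≤ K := by
      rw [hK]; nlinarith
    have hRK : ‖R‖ ≤ K := by
      have h18 : ‖R‖ ≤ L := by linarith
      rw [hK]; nlinarith
    have hKL : K ^ 2 * 2 ≤ L ^ 3 := by
      have : K ^ 2 * 2 = 18 * D.M ^ 4 * L ^ 2 := by rw [hK]; ring
      rw [this]
      calc 18 * D.M ^ 4 * L ^ 2 ≤ L * L ^ 2 := by
            gcongr; linarith
        _ = L ^ 3 := by ring
    have e2 := norm_sv_le (S := S) (D := D) hL1 hP1 hP2.le (G j) (h j)
    rw [e1] at e2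
    have hA0 : 0 ≤ Acon D L (N j) (G j) (h j) := by
      unfold Acon
      positivity
    have e3 : ‖((0 : Z), sv S D L (κ j) (N j) (G j) (h j))‖ ≤
        Acon D L (N j) (G j) (h j) / L ^ (A * 3) := by
      rw [Prod.norm_def, norm_zero]
      exact max_le (by positivity) e2
    calc ‖((TX S R T) ^ m) ((0 : Z), sv S D L (κ j) (N j) (G j) (h j))‖
        ≤ K ^ m * ‖((0 : Z), sv S D L (κ j) (N j) (G j) (h j))‖ :=
          norm_TX_pow_le hRK hTn m _
      _ ≤ K ^ (2 * A) * (Acon D L (N j) (G j) (h j) / L ^ (A * 3)) := by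
          gcongr
      _ = Acon D L (N j) (G j) (h j) * ((K ^ 2) ^ A / (L ^ 3) ^ A) := by
          rw [← pow_mul, ← pow_mul, mul_comm A 3]; ring
      _ ≤ Acon D L (N j) (G j) (h j) * (1 / 2 ^ A) := by
          gcongr ?_ * ?_
          rw [div_le_div_iff₀ (by positivity) (by positivity), one_mul, ← mul_pow]
          gcongr
      _ ≤ (1 / 2) ^ j := by
          rw [one_div, mul_inv_le_iff₀ (by positivity), one_div, inv_pow, inv_mul_eq_div,
            le_div_iff₀ (by positivity)]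
          exact hP3
  · intro j n hn
    exact TX_pow_sv_zero hL1 R hT (hP j).2.1 (G j) (h j) hn
  · intro j
    rw [norm_smul]
    refine le_trans ?_ (hP j).2.2.2
    have := D.hf (κ j) (h j)
    gcongr
  · intro j
    have e1 := TX_pow_sv (Z := Z) hL1 R hT (hP j).1 (hP j).2.1.le (G j) (h j)
    rw [e1]
    have e2 := hG j
    rw [e2]
    rfl
  · intro y ε hε
    obtain ⟨p, hp, hpy⟩ := dense_tgt S hR y (half_pos hε)
    obtain ⟨q, hq, hqp⟩ := Metric.mem_closure_iff.1 (hcd hp) (ε / 2) (half_pos hε)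
    rw [hd] at hq
    obtain ⟨a, rfl⟩ := hq
    rw [frequently_atTop]
    intro b
    refine ⟨Nat.pair a b, Nat.right_le_pair a b, ?_⟩
    simp only [hg, Nat.unpair_pair]
    have : d a - y = (d a - p) + (p - y) := by abel
    rw [this]
    refine lt_of_le_of_lt (norm_add_le _ _) ?_
    rw [dist_comm, dist_eq_norm] at hqp
    linarith

theorem exists_op (S : SumSp 𝕜 H B) (D : Data 𝕜 H) {R : H →L[𝕜] Z} (hR : DenseRange R)
    (hz : Tendsto (fun k => R (D.z k)) atTop (𝓝 0)) [CompleteSpace Z] [CompleteSpace B]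
    [TopologicalSpace.SeparableSpace (Z × B)] :
    ∃ T : (Z × B) →L[𝕜] (Z × B), (∃ x : Z × B, ∀ y : Z × B, ∃ n : ℕ → ℕ, StrictMono n ∧
      ∀ φ : (Z × B) →L[𝕜] 𝕜, Tendsto (fun k => φ ((T ^ n k) x)) atTop (𝓝 (φ y))) ∧
      ∀ x, ¬ Dense (Set.range fun n : ℕ => (T ^ n) x) := by
  have hM := D.hM
  set L : ℝ := 18 * D.M ^ 4 + ‖R‖ with hL
  have hM4 : 1 ≤ D.M ^ 4 := one_le_pow₀ hM
  have hR0 := norm_nonneg R
  have hL1 : 1 ≤ L := by linarith
  obtain ⟨T, hT, hTn⟩ := S.shift (wt D L) (3 * D.M ^ 2 * L) (by positivity)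
    (norm_wt_le D hL1)
  refine ⟨TX S R T, ?_, fun x => not_dense hL1 hT x⟩
  obtain ⟨g, κ, N, s, e, hκ, hκ1, hN, hsm, hs0, he, hseq, hfreq⟩ :=
    exists_data hR hz hL.ge hT hTn
  set TT := TX S R T with hTT
  have hgeo : Summable (fun j : ℕ => ((1 : ℝ) / 2) ^ j) := summable_geometric_two
  have hsumX : Summable s := by
    apply Summable.of_norm_bounded hgeo
    intro j
    have := hsm j 0 (Nat.zero_le _)
    simpa using this
  set x : Z × B := ∑' j, s j with hx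
  refine ⟨x, ?_⟩
  have herr : ∀ j, ‖(TT ^ (2 * 3 ^ κ j)) x - (TT ^ (2 * 3 ^ κ j)) (s j)‖ ≤ (1 / 2) ^ j := by
    intro j
    set n := 2 * 3 ^ κ j with hn
    have h1 : (TT ^ n) x = ∑' i, (TT ^ n) (s i) := (TT ^ n).map_tsum hsumX
    have hsum' : Summable (fun i => (TT ^ n) (s i)) := (TT ^ n).summable hsumX
    have h2 := hsum'.sum_add_tsum_nat_add (j + 1)
    have h3 : ∑ i ∈ Finset.range (j + 1), (TT ^ n) (s i) = (TT ^ n) (s j) := by
      rw [Finset.sum_range_succ, Finset.sum_eq_zero, zero_add]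
      intro i hi
      apply hs0 i
      have hlt : κ i < κ j := hκ (Finset.mem_range.1 hi)
      have : 3 ^ (κ i + 1) ≤ 3 ^ κ j := Nat.pow_le_pow_right (by norm_num) hlt
      omega
    rw [h1, ← h2, h3, add_sub_cancel_left]
    have h4 : HasSum (fun i : ℕ => ((1 : ℝ) / 2) ^ (i + (j + 1))) ((1 / 2) ^ j) := by
      have := hasSum_geometric_two.mul_right (((1 : ℝ) / 2) ^ (j + 1))
      have e : (2 : ℝ) * (1 / 2) ^ (j + 1) = (1 / 2) ^ j := by rw [pow_succ]; ring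
      rw [e] at this
      simpa [pow_add] using this
    apply tsum_of_norm_bounded h4
    intro i
    apply hsm
    have hlt : κ j < κ (i + (j + 1)) := hκ (by omega)
    have : 3 ^ κ j ≤ 3 ^ (κ (i + (j + 1)) - 1) :=
      Nat.pow_le_pow_right (by norm_num) (by omega)
    omega
  intro y
  obtain ⟨σ, hσ, hσP⟩ := extraction_forall_of_frequently
    (P := fun m j => ‖g j - y‖ < 1 / ((m : ℝ) + 1)) (fun m => hfreq y _ (by positivity))
  refine ⟨fun m => 2 * 3 ^ κ (σ m), ?_, ?_⟩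
  · intro a b hab
    have : 3 ^ κ (σ a) < 3 ^ κ (σ b) := Nat.pow_lt_pow_right (by norm_num) (hκ (hσ hab))
    simp only
    omega
  · intro φ
    -- the difference
    set E : ℕ → Z × B := fun m => (TT ^ (2 * 3 ^ κ (σ m))) x - y +
      ((0 : Z), cor S D L (κ (σ m)) (N (σ m)) y.2) with hE
    have hEle : ∀ m, ‖E m‖ ≤ 2 * (1 / 2) ^ (σ m) + (1 + 4 * D.M ^ 4) * (1 / ((m : ℝ) + 1)) := by
      intro m
      have e1 : E m = ((TT ^ (2 * 3 ^ κ (σ m))) x - (TT ^ (2 * 3 ^ κ (σ m))) (s (σ m))) +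
          ((g (σ m) - y) - (e (σ m), cor S D L (κ (σ m)) (N (σ m)) (g (σ m) - y).2)) := by
        rw [hE, hseq (σ m), Prod.snd_sub, cor_sub]
        have e2 : (e (σ m), cor S D L (κ (σ m)) (N (σ m)) (g (σ m)).2 -
            cor S D L (κ (σ m)) (N (σ m)) y.2) =
            (e (σ m), cor S D L (κ (σ m)) (N (σ m)) (g (σ m)).2) -
              ((0 : Z), cor S D L (κ (σ m)) (N (σ m)) y.2) := by
          rw [Prod.mk_sub_mk, sub_zero]
        rw [e2]
        abel_nf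
      rw [e1]
      have h1 := herr (σ m)
      have h2 := hσP m
      have h3 := he (σ m)
      have h4 : ‖(e (σ m), cor S D L (κ (σ m)) (N (σ m)) (g (σ m) - y).2)‖ ≤
          (1 / 2) ^ (σ m) + 4 * D.M ^ 4 * (1 / ((m : ℝ) + 1)) := by
        rw [Prod.norm_def]
        have h5 := norm_cor_le (S := S) D hL1 (hκ1 (σ m)) (hN (σ m)) (g (σ m) - y).2
        have h6 : ‖(g (σ m) - y).2‖ ≤ ‖g (σ m) - y‖ := norm_snd_le _
        have h7 : 4 * D.M ^ 4 * ‖(g (σ m) - y).2‖ ≤ 4 * D.M ^ 4 * (1 / ((m : ℝ) + 1)) := by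
          gcongr
          exact h6.trans h2.le
        refine max_le ?_ ?_
        · have : 0 ≤ 4 * D.M ^ 4 * (1 / ((m : ℝ) + 1)) := by positivity
          simp only; linarith
        · have : (0 : ℝ) ≤ (1 / 2) ^ (σ m) := by positivity
          simp only; linarith
      refine (norm_add_le _ _).trans ?_
      have h8 := norm_sub_le (g (σ m) - y)
        (e (σ m), cor S D L (κ (σ m)) (N (σ m)) (g (σ m) - y).2)
      linarith
    have hE0 : Tendsto E atTop (𝓝 0) := by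
      apply squeeze_zero_norm hEle
      have t1 : Tendsto (fun m => 2 * ((1 : ℝ) / 2) ^ (σ m)) atTop (𝓝 (2 * 0)) :=
        ((tendsto_pow_atTop_nhds_zero_of_lt_one (by norm_num) (by norm_num)).comp
          hσ.tendsto_atTop).const_mul 2
      have t2 : Tendsto (fun m : ℕ => (1 + 4 * D.M ^ 4) * ((1 : ℝ) / ((m : ℝ) + 1))) atTop
          (𝓝 ((1 + 4 * D.M ^ 4) * 0)) :=
        tendsto_one_div_add_atTop_nhds_zero_nat.const_mul _
      have := t1.add t2
      simpa using this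
    have hφE : Tendsto (fun m => φ (E m)) atTop (𝓝 0) := by
      have := (φ.continuous.tendsto 0).comp hE0
      rw [map_zero] at this
      exact this
    have hφc : Tendsto (fun m => φ ((0 : Z), cor S D L (κ (σ m)) (N (σ m)) y.2)) atTop
        (𝓝 0) := by
      have h1 := cor_weak (S := S) D hL1 (φ.comp (ContinuousLinearMap.inr 𝕜 Z B)) y.2
        (κ := fun m => κ (σ m)) (N := fun m => N (σ m)) ((hκ.comp hσ).tendsto_atTop)
        (fun m => hκ1 _) (fun m => hN _)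
      exact h1
    have hlim := (hφE.sub hφc).add_const (φ y)
    rw [sub_zero, zero_add] at hlim
    refine hlim.congr (fun m => ?_)
    simp only [hE]
    rw [map_add, map_sub]
    ring

end SumSp

end Pool.Agent.Y609.WS
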