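import Pool.Agent.Y609.WS.Ops2
import Pool.Agent.Y609.WS.Univ

/-!
# Weakly sequentially hypercyclic, but not weakly 1-sequentially hypercyclic
-/

set_option autoImplicit false

open Filter Topology Finset

namespace Pool.Agent.Y609.WS

variable {𝕜 : Type} [RCLike 𝕜] {H : Type} [NormedAddCommGroup H] [NormedSpace 𝕜 H]
  {B : Type} [NormedAddCommGroup B] [NormedSpace 𝕜 B]
  {Z : Type} [NormedAddCommGroup Z] [NormedSpace 𝕜 Z]

/-- Projections of different types `m`. On the blocks of type `m` we can reach weak limits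
`Dm m w`, which are near `w` for large `m`; the multiples of `u` are no weak limits. -/
structure WData (𝕜 : Type) [RCLike 𝕜] (H : Type) [NormedAddCommGroup H] [NormedSpace 𝕜 H]
    extends PData 𝕜 H where
  /-- The blocks of type `m`. -/
  K : ℕ → Set ℕ
  freq : ∀ m, ∃ᶠ k in atTop, k ∈ K m
  /-- The weak limits. -/
  Dm : ℕ → H → H
  /-- The corrected vectors. -/
  C : ℕ → H → H
  lim : ∀ w, Tendsto (fun m => Dm m w) atTop (𝓝 w)
  ker : ∀ m, ∀ᶠ k in atTop, k ∈ K m → ∀ w, Q k (C k w) = 0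
  bdd : ∀ m w, ∃ b : ℝ, ∀ᶠ k in atTop, k ∈ K m → ‖C k w‖ ≤ b
  weak : ∀ m w (φ : H →L[𝕜] 𝕜) (κ : ℕ → ℕ), Tendsto κ atTop atTop → (∀ j, κ j ∈ K m) →
    Tendsto (fun j => φ (C (κ j) w)) atTop (𝓝 (φ (Dm m w)))
  /-- The vector which is not a weak limit. -/
  u : H
  ne : ∀ (κ : ℕ → ℕ) (v : ℕ → H) (c : 𝕜), c ≠ 0 → Tendsto κ atTop atTop →
    Tendsto (fun j => Q (κ j) (v j)) atTop (𝓝 0) →
      ¬ ∀ φ : H →L[𝕜] 𝕜, Tendsto (fun j => φ (v j)) atTop (𝓝 (φ (c • u)))

lemma tendsto_block : Tendsto bl atTop atTop := by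
  rw [tendsto_atTop]
  intro b
  filter_upwards [eventually_ge_atTop (3 ^ b)] with n hn
  exact (Nat.le_log_iff_pow_le (by norm_num) (by
    have : 0 < 3 ^ b := by positivity
    omega)).2 hn

namespace SumSp

variable {S : SumSp 𝕜 H B} {D : WData 𝕜 H} {L : ℝ}

/-- The operator is not weakly 1-sequentially hypercyclic. -/
lemma not_one (hL : 1 ≤ L) {R : H →L[𝕜] Z} {T : B →L[𝕜] B}
    (hT : ∀ x i, S.π i (T x) = D.toPData.wt L i (S.π (i + 1) x)) (x : Z × B) :
    ¬ ∀ y : Z × B, ∃ n : ℕ → ℕ, ∀ φ : (Z × B) →L[𝕜] 𝕜,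
      Tendsto (fun k => φ (((TX S R T) ^ n k) x)) atTop (𝓝 (φ y)) := by
  intro hall
  have hL0 : 0 < L := by linarith
  -- the multiples of `u` at the coordinate `0`
  set y : ℕ → Z × B := fun c => ((0 : Z), S.ι 0 (((c + 1 : ℕ) : 𝕜) • D.u)) with hy
  have hu : D.u ≠ 0 := by
    intro h0
    apply D.ne (fun j => j) (fun _ => 0) 1 one_ne_zero tendsto_id
    · simp only [map_zero]
      exact tendsto_const_nhds
    · intro φ
      rw [h0, smul_zero, map_zero]
      exact tendsto_const_nhds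
  -- each of them is in the orbit
  have key : ∀ c, ∃ N : ℕ, ((TX S R T) ^ N) x = y c := by
    intro c
    obtain ⟨n, hn⟩ := hall (y c)
    by_cases hinf : Tendsto n atTop atTop
    · exfalso
      apply D.ne (fun j => bl (n j)) (fun j => S.π 0 ((T ^ n j) x.2)) ((c + 1 : ℕ) : 𝕜)
        (by exact_mod_cast Nat.succ_ne_zero c) (tendsto_block.comp hinf)
      · have h1 : ∀ j, D.Q (bl (n j)) (S.π 0 ((T ^ n j) x.2)) =
            D.Q (bl (n j)) (S.π (n j) x.2) := by
          intro j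
          have := P_pow2 (S := S) hL0 hT (n j) x.2 0
          rw [D.toPData.P_zero, zero_add] at this
          rw [this]
          exact D.toPData.Q_Rk _ _ _
        have h2 : Tendsto (fun j => D.M * ‖S.π (n j) x.2‖) atTop (𝓝 (D.M * 0)) :=
          (((tendsto_zero_iff_norm_tendsto_zero.1 (tendsto_pi (S := S) x.2)).comp hinf)).const_mul _
        rw [mul_zero] at h2
        refine squeeze_zero_norm (fun j => ?_) h2
        rw [h1]
        exact D.bound _ _
      · intro φ
        have h1 := hn ((φ.comp (S.π 0)).comp (ContinuousLinearMap.snd 𝕜 Z B))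
        have h2 : ((φ.comp (S.π 0)).comp (ContinuousLinearMap.snd 𝕜 Z B)) (y c) =
            φ (((c + 1 : ℕ) : 𝕜) • D.u) := by
          show φ (S.π 0 (S.ι 0 (((c + 1 : ℕ) : 𝕜) • D.u))) = _
          rw [S.pi_iota, if_pos rfl]
        rw [h2] at h1
        refine h1.congr fun j => ?_
        show φ (S.π 0 ((((TX S R T) ^ n j) x).2)) = _
        rw [TX_pow_snd]
    · obtain ⟨N, hN⟩ : ∃ N, ∃ᶠ j in atTop, n j = N := by
        by_contra hc
        push Not at hc
        apply hinf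
        rw [tendsto_atTop]
        intro b
        have h1 : ∀ᶠ j in atTop, ∀ N ∈ Finset.range b, n j ≠ N :=
          (Finset.eventually_all _).2 fun N _ => by
            exact hc N
        filter_upwards [h1] with j hj
        by_contra hlt
        exact hj (n j) (Finset.mem_range.2 (by omega)) rfl
      refine ⟨N, ?_⟩
      obtain ⟨σ, hσ, hσN⟩ := extraction_of_frequently_atTop hN
      by_contra hne
      obtain ⟨φ, hφ⟩ := SeparatingDual.exists_separating_of_ne (R := 𝕜) hne
      apply hφ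
      have h1 := (hn φ).comp hσ.tendsto_atTop
      have h2 : Tendsto (fun _ : ℕ => φ (((TX S R T) ^ N) x)) atTop (𝓝 (φ (y c))) := by
        refine h1.congr fun j => ?_
        simp only [Function.comp]
        rw [hσN]
      exact tendsto_nhds_unique tendsto_const_nhds h2
  choose N hN using key
  -- the orbit is finite
  have hzero : ∀ m, N 0 + 2 ≤ m → ((TX S R T) ^ m) x = 0 := by
    intro m hm
    obtain ⟨r, rfl⟩ := Nat.exists_eq_add_of_le hm
    have e1 : ((TX S R T) ^ (N 0 + 2 + r)) x = ((TX S R T) ^ (r + 1 + 1)) (((TX S R T) ^ N 0) x) := by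
      rw [show N 0 + 2 + r = (r + 1 + 1) + N 0 by ring, pow_add]
      rfl
    have hT0 : ∀ r, (T ^ (r + 1)) (S.ι 0 (((0 + 1 : ℕ) : 𝕜) • D.u)) = 0 := by
      intro r
      apply S.ext'
      intro i
      rw [pi_pow2 hL0 hT, S.pi_iota, if_neg (by omega), map_zero, map_zero, map_zero]
    rw [e1, hN 0, TX_pow_succ]
    simp only [hy]
    rw [hT0 r, hT0 (r + 1), map_zero, map_zero]
    rfl
  have hyne : ∀ c, y c ≠ 0 := by
    intro c h0
    have h1 : S.π 0 (y c).2 = 0 := by rw [h0]; simp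
    simp only [hy] at h1
    rw [S.pi_iota, if_pos rfl] at h1
    rcases smul_eq_zero.1 h1 with h2 | h2
    · exact absurd h2 (by exact_mod_cast Nat.succ_ne_zero c)
    · exact hu h2
  have hlt : ∀ c, N c < N 0 + 2 := by
    intro c
    by_contra hge
    exact hyne c (by rw [← hN c]; exact hzero _ (by omega))
  have hinj : Function.Injective N := by
    intro c c' hcc
    have h1 : y c = y c' := by rw [← hN c, ← hN c', hcc]
    have h2 : S.π 0 (y c).2 = S.π 0 (y c').2 := by rw [h1]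
    simp only [hy] at h2
    rw [S.pi_iota, if_pos rfl, S.pi_iota, if_pos rfl] at h2
    have h3 := smul_left_injective 𝕜 hu h2
    have h4 : ((c + 1 : ℕ) : 𝕜) = ((c' + 1 : ℕ) : 𝕜) := h3
    have h5 := Nat.cast_injective (R := 𝕜) h4
    omega
  have hfin : (Set.range N).Finite := (Set.finite_lt_nat (N 0 + 2)).subset (by
    rintro _ ⟨c, rfl⟩; exact hlt c)
  exact Set.infinite_range_of_injective hinj hfin

theorem exists_op2 (S : SumSp 𝕜 H B) (D : WData 𝕜 H) {R : H →L[𝕜] Z} (hR : DenseRange R)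
    [CompleteSpace Z] [CompleteSpace B] [TopologicalSpace.SeparableSpace (Z × B)] :
    ∃ T : (Z × B) →L[𝕜] (Z × B), (∃ x : Z × B, Dense {w : Z × B | ∃ n : ℕ → ℕ,
      ∀ φ : (Z × B) →L[𝕜] 𝕜, Tendsto (fun k => φ ((T ^ n k) x)) atTop (𝓝 (φ w))}) ∧
      ∀ x, ¬ ∀ y : Z × B, ∃ n : ℕ → ℕ, ∀ φ : (Z × B) →L[𝕜] 𝕜,
        Tendsto (fun k => φ ((T ^ n k) x)) atTop (𝓝 (φ y)) := by
  have hM := D.hM
  set L : ℝ := 18 * D.M ^ 2 + ‖R‖ with hL
  have hM2 : 1 ≤ D.M ^ 2 := one_le_pow₀ hM
  have hR0 := norm_nonneg R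
  have hL1 : 1 ≤ L := by linarith
  set KK : ℝ := 3 * D.M * L with hKK
  have hK1 : 1 ≤ KK := by rw [hKK]; nlinarith
  have hRK : ‖R‖ ≤ KK := by
    have h18 : ‖R‖ ≤ L := by linarith
    rw [hKK]; nlinarith
  have hKL : KK ^ 2 * 2 ≤ L ^ 3 := by
    have : KK ^ 2 * 2 = 18 * D.M ^ 2 * L ^ 2 := by rw [hKK]; ring
    rw [this]
    calc 18 * D.M ^ 2 * L ^ 2 ≤ L * L ^ 2 := by
          gcongr; linarith
      _ = L ^ 3 := by ring
  obtain ⟨T, hT, hTn⟩ := S.shift (D.toPData.wt L) KK (by positivity) (D.toPData.norm_wt_le hL1)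
  refine ⟨TX S R T, ?_, fun x => not_one hL1 hT x⟩
  -- the dense sequence of targets
  obtain ⟨c, hcV, hcc, hcd⟩ :=
    (TopologicalSpace.IsSeparable.of_separableSpace (tgt S R)).exists_countable_dense_subset
  have hne : c.Nonempty := by
    rw [← closure_nonempty_iff]
    exact ⟨(R 0, ∑ i ∈ range 0, S.ι i ((fun _ => 0) i)), hcd ⟨0, 0, _, rfl⟩⟩
  obtain ⟨d, hd⟩ := hcc.exists_eq_range hne
  have hdV : ∀ j, d j ∈ tgt S R := fun j => hcV (hd ▸ Set.mem_range_self j)
  choose h N G hG using hdV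
  have hdense : Dense (Set.range d) := by
    intro y
    rw [Metric.mem_closure_iff]
    intro ε hε
    obtain ⟨p, hp, hpy⟩ := dense_tgt S hR y (half_pos hε)
    obtain ⟨q, hq, hqp⟩ := Metric.mem_closure_iff.1 (hcd hp) (ε / 2) (half_pos hε)
    rw [hd] at hq
    refine ⟨q, hq, ?_⟩
    rw [dist_comm, dist_eq_norm]
    rw [dist_comm, dist_eq_norm] at hqp
    have : q - y = (q - p) + (p - y) := by abel
    rw [this]
    exact lt_of_le_of_lt (norm_add_le _ _) (by linarith)
  -- the stages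
  set aa : ℕ → ℕ := fun j => (Nat.unpair (Nat.unpair j).1).1 with haa
  set tt : ℕ → ℕ := fun j => (Nat.unpair (Nat.unpair j).1).2 with htt
  obtain ⟨κ, hκ, hP⟩ := extraction_forall_of_frequently
    (P := fun j k => k ∈ D.K (tt j) ∧ 1 ≤ k ∧ N (aa j) < 3 ^ k ∧
      (∀ w, D.Q k (D.C k w) = 0) ∧
      (∑ i ∈ range (N (aa j)), L ^ i * ‖D.C k (D.toPData.P L i (G (aa j) i))‖ +
        L * ‖D.C k (h (aa j))‖) * 2 ^ j ≤ (2 : ℝ) ^ (3 ^ (k - 1)))
    (by
      intro j
      have t1 : Tendsto (fun k : ℕ => 3 ^ k) atTop atTop :=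
        tendsto_pow_atTop_atTop_of_one_lt (by norm_num : (1 : ℕ) < 3)
      have t2 : Tendsto (fun k : ℕ => (2 : ℝ) ^ (3 ^ (k - 1))) atTop atTop :=
        (tendsto_pow_atTop_atTop_of_one_lt (one_lt_two)).comp (t1.comp (tendsto_sub_atTop_nat 1))
      choose b hb using fun w => D.bdd (tt j) w
      have h1 : ∀ᶠ k in atTop, ∀ i ∈ range (N (aa j)), k ∈ D.K (tt j) →
          ‖D.C k (D.toPData.P L i (G (aa j) i))‖ ≤ b (D.toPData.P L i (G (aa j) i)) :=
        (Finset.eventually_all _).2 fun i _ => hb _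
      refine ((D.freq (tt j)).and_eventually ((((((eventually_ge_atTop 1).and
        (t1.eventually_gt_atTop (N (aa j)))).and (D.ker (tt j))).and h1).and
        (hb (h (aa j)))).and (t2.eventually_ge_atTop
          ((∑ i ∈ range (N (aa j)), L ^ i * b (D.toPData.P L i (G (aa j) i)) +
            L * b (h (aa j))) * 2 ^ j)))).mono ?_
      rintro k ⟨hk, ⟨⟨⟨⟨⟨h2, h3⟩, h4⟩, h5⟩, h6⟩, h7⟩⟩
      refine ⟨hk, h2, h3, h4 hk, ?_⟩
      refine le_trans ?_ h7
      have h8 := h6 hk
      have h9 : ∑ i ∈ range (N (aa j)), L ^ i * ‖D.C k (D.toPData.P L i (G (aa j) i))‖ ≤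
          ∑ i ∈ range (N (aa j)), L ^ i * b (D.toPData.P L i (G (aa j) i)) := by
        apply Finset.sum_le_sum
        intro i hi
        have := h5 i hi hk
        have : 0 ≤ L ^ i := by positivity
        gcongr
      gcongr)
  set s : ℕ → Z × B := fun j => ((0 : Z), sw S L (κ j) (N (aa j))
    (fun i => D.C (κ j) (D.toPData.P L i (G (aa j) i))) (D.C (κ j) (h (aa j)))) with hs
  set TT := TX S R T with hTT
  have hκ1 : ∀ j, 1 ≤ κ j := fun j => (hP j).2.1
  have hsm : ∀ j m, m ≤ 2 * 3 ^ (κ j - 1) → ‖(TT ^ m) (s j)‖ ≤ (1 / 2) ^ j := by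
    intro j m hm
    obtain ⟨-, hP1, hP2, -, hP3⟩ := hP j
    have e1 : 3 ^ κ j = 3 ^ (κ j - 1) * 3 := by
      rw [← pow_succ]; congr 1; omega
    set A := 3 ^ (κ j - 1) with hA
    set Ac : ℝ := ∑ i ∈ range (N (aa j)), L ^ i * ‖D.C (κ j) (D.toPData.P L i (G (aa j) i))‖ +
        L * ‖D.C (κ j) (h (aa j))‖ with hAc
    have hA0 : 0 ≤ Ac := by rw [hAc]; positivity
    have e2 := norm_sw_le (S := S) hL1 hP2.le
      (fun i => D.C (κ j) (D.toPData.P L i (G (aa j) i))) (D.C (κ j) (h (aa j)))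
    rw [e1] at e2
    have e3 : ‖s j‖ ≤ Ac / L ^ (A * 3) := by
      rw [hs]
      simp only
      rw [Prod.norm_def, norm_zero]
      exact max_le (by positivity) e2
    calc ‖(TT ^ m) (s j)‖ ≤ KK ^ m * ‖s j‖ := norm_TX_pow_le hRK hTn m _
      _ ≤ KK ^ (2 * A) * (Ac / L ^ (A * 3)) := by
          gcongr
      _ = Ac * ((KK ^ 2) ^ A / (L ^ 3) ^ A) := by
          rw [← pow_mul, ← pow_mul, mul_comm A 3]; ring
      _ ≤ Ac * (1 / 2 ^ A) := by
          gcongr ?_ * ?_
          rw [div_le_div_iff₀ (by positivity) (by positivity), one_mul, ← mul_pow]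
          gcongr
      _ ≤ (1 / 2) ^ j := by
          rw [one_div, mul_inv_le_iff₀ (by positivity), one_div, inv_pow, inv_mul_eq_div,
            le_div_iff₀ (by positivity)]
          exact hP3
  have hs0 : ∀ j n, 3 ^ (κ j + 1) ≤ n → (TT ^ n) (s j) = 0 := fun j n hn =>
    TX_pow_sw_zero hL1 R hT (hP j).2.2.1 _ _ hn
  have hseq : ∀ j, (TT ^ (2 * 3 ^ κ j)) (s j) = (R (D.C (κ j) (h (aa j))),
      ∑ i ∈ range (N (aa j)), S.ι i (D.toPData.Pi L i
        (D.C (κ j) (D.toPData.P L i (G (aa j) i))))) := fun j =>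
    TX_pow_sw hL1 R hT (hP j).2.2.1.le _ _ (fun i _ => (hP j).2.2.2.1 _) ((hP j).2.2.2.1 _)
  have hgeo : Summable (fun j : ℕ => ((1 : ℝ) / 2) ^ j) := summable_geometric_two
  have hsumX : Summable s := by
    apply Summable.of_norm_bounded hgeo
    intro j
    have := hsm j 0 (Nat.zero_le _)
    simpa using this
  set x : Z × B := ∑' j, s j with hx
  have herr : ∀ j, ‖(TT ^ (2 * 3 ^ κ j)) x - (TT ^ (2 * 3 ^ κ j)) (s j)‖ ≤ (1 / 2) ^ j := by
    intro j
    set n := 2 * 3 ^ κ j with hn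
    have h1 : (TT ^ n) x = ∑' i, (TT ^ n) (s i) := (TT ^ n).map_tsum hsumX
    have hsum' : Summable (fun i => (TT ^ n) (s i)) := (TT ^ n).summable hsumX
    have h2 := hsum'.sum_add_tsum_nat_add (j + 1)
    have h3 : ∑ i ∈ Finset.range (j + 1), (TT ^ n) (s i) = (TT ^ n) (s j) := by
      rw [Finset.sum_range_succ, Finset.sum_eq_zero, zero_add]
      intro i hi
      apply hs0 i
      have hlt : κ i < κ j := hκ (Finset.mem_range.1 hi)
      have : 3 ^ (κ i + 1) ≤ 3 ^ κ j := Nat.pow_le_pow_right (by norm_num) hlt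
      omega
    rw [h1, ← h2, h3, add_sub_cancel_left]
    have h4 : HasSum (fun i : ℕ => ((1 : ℝ) / 2) ^ (i + (j + 1))) ((1 / 2) ^ j) := by
      have := hasSum_geometric_two.mul_right (((1 : ℝ) / 2) ^ (j + 1))
      have e : (2 : ℝ) * (1 / 2) ^ (j + 1) = (1 / 2) ^ j := by rw [pow_succ]; ring
      rw [e] at this
      simpa [pow_add] using this
    apply tsum_of_norm_bounded h4
    intro i
    apply hsm
    have hlt : κ j < κ (i + (j + 1)) := hκ (by omega)
    have : 3 ^ κ j ≤ 3 ^ (κ (i + (j + 1)) - 1) :=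
      Nat.pow_le_pow_right (by norm_num) (by omega)
    omega
  refine ⟨x, ?_⟩
  set V : Set (Z × B) := {w : Z × B | ∃ n : ℕ → ℕ,
      ∀ φ : (Z × B) →L[𝕜] 𝕜, Tendsto (fun k => φ ((TT ^ n k) x)) atTop (𝓝 (φ w))} with hV
  -- the weak limits of the blocks of type `m`
  have hlim1 : ∀ a m, (R (D.Dm m (h a)), ∑ i ∈ range (N a), S.ι i (D.toPData.Pi L i
      (D.Dm m (D.toPData.P L i (G a i))))) ∈ V := by
    intro a m
    set J : ℕ → ℕ := fun b => Nat.pair (Nat.pair a m) b with hJ
    have hJm : StrictMono J := fun b b' hb => Nat.pair_lt_pair_right _ hb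
    have hJa : ∀ b, aa (J b) = a := by intro b; simp [haa, hJ]
    have hJt : ∀ b, tt (J b) = m := by intro b; simp [htt, hJ]
    refine ⟨fun b => 2 * 3 ^ κ (J b), ?_⟩
    · intro φ
      have hκJ : Tendsto (fun b => κ (J b)) atTop atTop := (hκ.comp hJm).tendsto_atTop
      have hK : ∀ b, κ (J b) ∈ D.K m := by
        intro b
        have := (hP (J b)).1
        rwa [hJt] at this
      have h1 : Tendsto (fun b => φ ((TT ^ (2 * 3 ^ κ (J b))) x -
          (TT ^ (2 * 3 ^ κ (J b))) (s (J b)))) atTop (𝓝 0) := by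
        have h2 : Tendsto (fun b => (TT ^ (2 * 3 ^ κ (J b))) x -
            (TT ^ (2 * 3 ^ κ (J b))) (s (J b))) atTop (𝓝 0) := by
          apply squeeze_zero_norm (fun b => herr (J b))
          exact (tendsto_pow_atTop_nhds_zero_of_lt_one (by norm_num) (by norm_num)).comp
            hJm.tendsto_atTop
        have := (φ.continuous.tendsto 0).comp h2
        rw [map_zero] at this
        exact this
      have h3 : Tendsto (fun b => φ ((TT ^ (2 * 3 ^ κ (J b))) (s (J b)))) atTop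
          (𝓝 (φ (R (D.Dm m (h a)), ∑ i ∈ range (N a), S.ι i (D.toPData.Pi L i
            (D.Dm m (D.toPData.P L i (G a i))))))) := by
        have hsplit : ∀ (v : Z) (w : B), φ (v, w) =
            (φ.comp (ContinuousLinearMap.inl 𝕜 Z B)) v +
            (φ.comp (ContinuousLinearMap.inr 𝕜 Z B)) w := by
          intro v w
          simp only [ContinuousLinearMap.comp_apply, ContinuousLinearMap.inl_apply,
            ContinuousLinearMap.inr_apply]
          rw [← map_add]
          simp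
        set φ1 := φ.comp (ContinuousLinearMap.inl 𝕜 Z B) with hφ1
        set φ2 := φ.comp (ContinuousLinearMap.inr 𝕜 Z B) with hφ2
        have e1 : ∀ b, φ ((TT ^ (2 * 3 ^ κ (J b))) (s (J b))) =
            (φ1.comp R) (D.C (κ (J b)) (h a)) + ∑ i ∈ range (N a),
              ((φ2.comp (S.ι i)).comp (D.toPData.Pi L i))
                (D.C (κ (J b)) (D.toPData.P L i (G a i))) := by
          intro b
          rw [hseq, hJa, hsplit, map_sum]
          rfl
        have e2 : φ (R (D.Dm m (h a)), ∑ i ∈ range (N a), S.ι i (D.toPData.Pi L i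
            (D.Dm m (D.toPData.P L i (G a i))))) =
            (φ1.comp R) (D.Dm m (h a)) + ∑ i ∈ range (N a),
              ((φ2.comp (S.ι i)).comp (D.toPData.Pi L i))
                (D.Dm m (D.toPData.P L i (G a i))) := by
          rw [hsplit, map_sum]
          rfl
        rw [e2]
        have h4 : Tendsto (fun b => (φ1.comp R) (D.C (κ (J b)) (h a)) + ∑ i ∈ range (N a),
              ((φ2.comp (S.ι i)).comp (D.toPData.Pi L i))
                (D.C (κ (J b)) (D.toPData.P L i (G a i)))) atTop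
            (𝓝 ((φ1.comp R) (D.Dm m (h a)) + ∑ i ∈ range (N a),
              ((φ2.comp (S.ι i)).comp (D.toPData.Pi L i))
                (D.Dm m (D.toPData.P L i (G a i))))) := by
          refine (D.weak m (h a) _ _ hκJ hK).add (tendsto_finsetSum _ fun i _ => ?_)
          exact D.weak m _ _ _ hκJ hK
        exact h4.congr fun b => (e1 b).symm
      have h5 := h1.add h3
      rw [zero_add] at h5
      refine h5.congr fun b => ?_
      rw [← map_add]
      congr 1
      abel
  -- the targets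
  have hd : ∀ a, d a ∈ closure V := by
    intro a
    have h1 : Tendsto (fun m => (R (D.Dm m (h a)), ∑ i ∈ range (N a), S.ι i (D.toPData.Pi L i
        (D.Dm m (D.toPData.P L i (G a i)))))) atTop (𝓝 (d a)) := by
      rw [hG a]
      refine Tendsto.prodMk_nhds ((R.continuous.tendsto _).comp (D.lim (h a)))
        (tendsto_finsetSum _ fun i _ => ?_)
      have h2 := (((S.ι i).comp (D.toPData.Pi L i)).continuous.tendsto _).comp
        (D.lim (D.toPData.P L i (G a i)))
      have h3 : ((S.ι i).comp (D.toPData.Pi L i)) (D.toPData.P L i (G a i)) = S.ι i (G a i) := by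
        show S.ι i (D.toPData.Pi L i (D.toPData.P L i (G a i))) = _
        rw [D.toPData.Pi_P (by linarith)]
      rw [h3] at h2
      exact h2
    exact mem_closure_of_tendsto h1 (Eventually.of_forall (hlim1 a))
  have h1 : Set.range d ⊆ closure V := by
    rintro _ ⟨a, rfl⟩
    exact hd a
  have h2 : Dense (closure V) := hdense.mono h1
  rwa [dense_closure] at h2

end SumSp

end Pool.Agent.Y609.WS
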