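import Pool.Agent.Y609.WS.Univ2
import Pool.Agent.Y609.WS.Dat

/-!
# The data of the second construction exist on every separable space without the Schur property
-/

set_option autoImplicit false

open Filter Topology Finset

namespace Pool.Agent.Y609.WS

variable {𝕜 : Type} [RCLike 𝕜] {H : Type} [NormedAddCommGroup H] [NormedSpace 𝕜 H]

lemma bounded_of_weak (x : ℕ → H) (x0 : H)
    (h : ∀ φ : H →L[𝕜] 𝕜, Tendsto (fun k => φ (x k)) atTop (𝓝 (φ x0))) :
    ∃ R : ℝ, ∀ k, ‖x k‖ ≤ R := by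
  have h1 : ∃ C, ∀ k, ‖NormedSpace.inclusionInDoubleDual 𝕜 H (x k)‖ ≤ C := by
    apply banach_steinhaus
    intro φ
    obtain ⟨M, hM⟩ := isBounded_iff_forall_norm_le.mp
      (Metric.isBounded_range_of_tendsto _ (h φ))
    exact ⟨M, fun k => hM _ ⟨k, rfl⟩⟩
  obtain ⟨C, hC⟩ := h1
  refine ⟨C, fun k => ?_⟩
  have h2 := (NormedSpace.inclusionInDoubleDualLi (𝕜 := 𝕜) (E := H)).norm_map (x k)
  rw [← h2]
  exact hC k

/-- Countably many nonzero functionals have a common vector where none of them vanishes. -/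
lemma exists_common [CompleteSpace H] (g : ℕ → H →L[𝕜] 𝕜) (hg : ∀ m, g m ≠ 0) :
    ∃ u, ∀ m, g m u ≠ 0 := by
  have h1 : Dense (⋂ m, {v : H | g m v ≠ 0}) := by
    apply dense_iInter_of_isOpen
    · intro m
      exact isOpen_ne_fun (g m).continuous continuous_const
    · intro m
      have h2 : {v : H | g m v ≠ 0} = ((LinearMap.ker (g m : H →ₗ[𝕜] 𝕜) : Submodule 𝕜 H) : Set H)ᶜ := by
        ext v
        simp
      rw [h2, ← interior_eq_empty_iff_dense_compl, ← Set.not_nonempty_iff_eq_empty]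
      intro h3
      apply hg m
      have h4 := Submodule.eq_top_of_nonempty_interior' _ h3
      ext v
      have : v ∈ LinearMap.ker (g m : H →ₗ[𝕜] 𝕜) := by rw [h4]; trivial
      exact this
  obtain ⟨u, hu⟩ := h1.nonempty
  exact ⟨u, fun m => Set.mem_iInter.1 hu m⟩

/-- The functionals `g m`, which are weakly-star null, and the vectors `a m`. -/
lemma exists_ga [TopologicalSpace.SeparableSpace H] (D : Data 𝕜 H) :
    ∃ (g : ℕ → H →L[𝕜] 𝕜) (a : ℕ → H) (A : ℝ), 0 ≤ A ∧ (∀ m w, ‖g m w‖ ≤ A * ‖w‖) ∧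
      (∀ m, ‖a m‖ ≤ A) ∧ (∀ m, g m D.y = 0) ∧ (∀ m, g m (a m) = 1) ∧ (∀ m, D.f 0 (a m) = 0) ∧
      ∀ w, Tendsto (fun m => g m w) atTop (𝓝 0) := by
  have hM := D.hM
  set h : ℕ → H →L[𝕜] 𝕜 := fun k => D.f k - D.f 0 with hh
  have hha : ∀ k w, h k w = D.f k w - D.f 0 w := by intro k w; simp [hh]
  have hn : ∀ k w, ‖h k w‖ ≤ 2 * D.M * ‖w‖ := by
    intro k w
    rw [hha]
    refine (norm_sub_le _ _).trans ?_
    have := D.hf k w
    have := D.hf 0 w
    linarith
  have hmem : ∀ n, StrongDual.toWeakDual (h n) ∈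
      WeakDual.toStrongDual ⁻¹' Metric.closedBall (0 : StrongDual 𝕜 H) (2 * D.M) := by
    intro n
    show h n ∈ Metric.closedBall (0 : StrongDual 𝕜 H) (2 * D.M)
    rw [mem_closedBall_zero_iff]
    exact (h n).opNorm_le_bound (by linarith) (hn n)
  obtain ⟨g0, hg0, σ, hσ, hlim⟩ := (WeakDual.isSeqCompact_closedBall 𝕜 H 0 (2 * D.M)) hmem
  set g' : H →L[𝕜] 𝕜 := WeakDual.toStrongDual g0 with hg'
  have hpt : ∀ v : H, Tendsto (fun n => h (σ n) v) atTop (𝓝 (g' v)) := by
    intro v
    exact ((WeakDual.eval_continuous v).tendsto g0).comp hlim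
  have hg'n : ∀ w, ‖g' w‖ ≤ 2 * D.M * ‖w‖ := by
    intro w
    exact le_of_tendsto (hpt w).norm (Eventually.of_forall fun n => hn _ w)
  have hg'y : g' D.y = 0 := by
    apply tendsto_nhds_unique (hpt D.y)
    have : ∀ n, h (σ n) D.y = 0 := by
      intro n; rw [hha, D.fy, D.fy, sub_self]
    simp only [this]
    exact tendsto_const_nhds
  set a0 : ℕ → H := fun m => D.z (σ m) - (D.f 0 (D.z (σ m))) • D.y with ha0
  set gg : ℕ → H →L[𝕜] 𝕜 := fun m => h (σ m) - g' with hgg
  have hgga : ∀ m w, gg m w = h (σ m) w - g' w := by intro m w; simp [hgg]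
  have hggy : ∀ m, gg m D.y = 0 := by
    intro m; rw [hgga, hha, D.fy, D.fy, hg'y]; simp
  have hwk : ∀ φ : H →L[𝕜] 𝕜, Tendsto (fun m => φ (D.z (σ m))) atTop (𝓝 0) := fun φ =>
    (D.weak φ).comp hσ.tendsto_atTop
  have hlim1 : Tendsto (fun m => gg m (a0 m)) atTop (𝓝 1) := by
    have h1 : ∀ m, gg m (a0 m) = 1 - D.f 0 (D.z (σ m)) - g' (D.z (σ m)) := by
      intro m
      simp only [ha0]
      rw [map_sub, map_smul, hggy, smul_zero, sub_zero, hgga, hha, D.fz]
    have h2 := ((tendsto_const_nhds (x := (1 : 𝕜))).sub (hwk (D.f 0))).sub (hwk g')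
    simp only [sub_zero] at h2
    exact h2.congr fun m => (h1 m).symm
  obtain ⟨m0, hm0⟩ : ∃ m0, ∀ m, m0 ≤ m → 1 / 2 ≤ ‖gg m (a0 m)‖ := by
    have h1 := hlim1.norm
    rw [norm_one] at h1
    exact eventually_atTop.1 (h1.eventually_const_le (by norm_num : (1 / 2 : ℝ) < 1))
  have ha0n : ∀ m, ‖a0 m‖ ≤ D.M + D.M ^ 2 * ‖D.y‖ := by
    intro m
    simp only [ha0]
    refine (norm_sub_le _ _).trans ?_
    rw [norm_smul]
    have h1 := D.hz (σ m)
    have h2 : ‖D.f 0 (D.z (σ m))‖ ≤ D.M ^ 2 := by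
      refine (D.hf 0 _).trans ?_
      rw [sq]
      gcongr
    gcongr
  have hy0 := norm_nonneg D.y
  have hMM : 0 ≤ D.M ^ 2 * ‖D.y‖ := by positivity
  refine ⟨fun m => gg (m + m0), fun m => (gg (m + m0) (a0 (m + m0)))⁻¹ • a0 (m + m0),
    4 * D.M + 2 * (D.M ^ 2 * ‖D.y‖), by linarith, ?_, ?_, fun m => hggy _, ?_, ?_, ?_⟩
  · intro m w
    simp only
    rw [hgga]
    refine (norm_sub_le _ _).trans ?_
    have h1 := hn (σ (m + m0)) w
    have h2 := hg'n w
    have h3 : 0 ≤ D.M ^ 2 * ‖D.y‖ * ‖w‖ := by positivity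
    nlinarith
  · intro m
    simp only
    rw [norm_smul, norm_inv]
    have h1 := hm0 (m + m0) (by omega)
    have h2 := ha0n (m + m0)
    have h3 : ‖gg (m + m0) (a0 (m + m0))‖⁻¹ ≤ 2 := by
      rw [inv_le_comm₀ (by linarith) (by norm_num)]
      linarith
    calc ‖gg (m + m0) (a0 (m + m0))‖⁻¹ * ‖a0 (m + m0)‖ ≤ 2 * (D.M + D.M ^ 2 * ‖D.y‖) := by gcongr
      _ ≤ _ := by linarith
  · intro m
    simp only
    have h1 := hm0 (m + m0) (by omega)
    have h2 : gg (m + m0) (a0 (m + m0)) ≠ 0 := norm_pos_iff.1 (by linarith)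
    rw [map_smul, smul_eq_mul, inv_mul_cancel₀ h2]
  · intro m
    have h1 : D.f 0 (a0 (m + m0)) = 0 := by
      simp only [ha0]
      rw [map_sub, map_smul, D.fy, smul_eq_mul, mul_one, sub_self]
    simp only
    rw [map_smul, h1, smul_zero]
  · intro w
    have h1 := (hpt w).sub_const (g' w)
    rw [sub_self] at h1
    have h2 : Tendsto (fun m => gg m w) atTop (𝓝 0) := h1.congr fun m => (hgga m w).symm
    exact h2.comp (tendsto_add_atTop_nat m0)

theorem exists_WData [CompleteSpace H] [TopologicalSpace.SeparableSpace H] (D : Data 𝕜 H) :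
    Nonempty (WData 𝕜 H) := by
  have hM := D.hM
  obtain ⟨g, a, A, hA, hgn, han, hgy, hga, hea, hg0⟩ := exists_ga D
  -- the types
  set τ : ℕ → ℕ := fun k => (Nat.unpair k).1 with hτ
  set θ : ℕ → ℝ := fun m => 1 / ((m : ℝ) + 1) with hθ
  have hθpos : ∀ m, 0 < θ m := fun m => by simp only [hθ]; positivity
  have hθ1 : ∀ m, θ m ≤ 1 := by
    intro m
    simp only [hθ]
    rw [div_le_one (by positivity)]
    have : (0 : ℝ) ≤ m := Nat.cast_nonneg m
    linarith
  have hθ0 : Tendsto θ atTop (𝓝 0) := tendsto_one_div_add_atTop_nhds_zero_nat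
  set h : ℕ → H →L[𝕜] 𝕜 := fun k => D.f k - D.f 0 with hh
  have hha : ∀ k w, h k w = D.f k w - D.f 0 w := by intro k w; simp [hh]
  have hn : ∀ k w, ‖h k w‖ ≤ 2 * D.M * ‖w‖ := by
    intro k w
    rw [hha]
    refine (norm_sub_le _ _).trans ?_
    have := D.hf k w
    have := D.hf 0 w
    linarith
  have hhy : ∀ k, h k D.y = 0 := by intro k; rw [hha, D.fy, D.fy, sub_self]
  have hhz : ∀ k, h k (D.z k) = 1 - D.f 0 (D.z k) := by intro k; rw [hha, D.fz]
  set f' : ℕ → H →L[𝕜] 𝕜 := fun k => D.f 0 + ((θ (τ k) : ℝ) : 𝕜) • h k with hf'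
  have hf'a : ∀ k w, f' k w = D.f 0 w + ((θ (τ k) : ℝ) : 𝕜) * h k w := by
    intro k w; simp [hf']
  have hf'y : ∀ k, f' k D.y = 1 := by intro k; rw [hf'a, hhy, D.fy, mul_zero, add_zero]
  have hf'n : ∀ k w, ‖f' k w‖ ≤ 3 * D.M * ‖w‖ := by
    intro k w
    rw [hf'a]
    refine (norm_add_le _ _).trans ?_
    rw [norm_mul, RCLike.norm_ofReal, abs_of_pos (hθpos _)]
    have h1 := D.hf 0 w
    have h2 := hn k w
    have h3 : θ (τ k) * ‖h k w‖ ≤ 1 * (2 * D.M * ‖w‖) := by
      have := hθ1 (τ k)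
      have := (hθpos (τ k)).le
      gcongr
    linarith
  set a' : ℕ → H := fun k => a (τ k) - (((θ (τ k) : ℝ) : 𝕜) * h k (a (τ k))) • D.y with ha'
  have hf'a' : ∀ k, f' k (a' k) = 0 := by
    intro k
    simp only [ha']
    rw [map_sub, map_smul, hf'y, hf'a, hea, smul_eq_mul, mul_one, zero_add, sub_self]
  have hga' : ∀ k, g (τ k) (a' k) = 1 := by
    intro k
    simp only [ha']
    rw [map_sub, map_smul, hgy, hga, smul_zero, sub_zero]
  have ha'n : ∀ k, ‖a' k‖ ≤ A + 2 * D.M * A * ‖D.y‖ := by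
    intro k
    simp only [ha']
    refine (norm_sub_le _ _).trans ?_
    rw [norm_smul, norm_mul, RCLike.norm_ofReal, abs_of_pos (hθpos _)]
    have h1 := han (τ k)
    have h2 : θ (τ k) * ‖h k (a (τ k))‖ ≤ 1 * (2 * D.M * A) := by
      have := hθ1 (τ k)
      have := (hθpos (τ k)).le
      have := (hn k (a (τ k))).trans (show _ ≤ 2 * D.M * A by gcongr)
      gcongr
    rw [one_mul] at h2
    gcongr
  set Q : ℕ → H →L[𝕜] H := fun k => (g (τ k)).smulRight (a' k) + (f' k).smulRight D.y with hQ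
  have hQa : ∀ k w, Q k w = (g (τ k) w) • a' k + (f' k w) • D.y := by
    intro k w; simp [hQ]
  have hgQ : ∀ k w, g (τ k) (Q k w) = g (τ k) w := by
    intro k w
    rw [hQa, map_add, map_smul, map_smul, hga', hgy]
    simp
  have hfQ : ∀ k w, f' k (Q k w) = f' k w := by
    intro k w
    rw [hQa, map_add, map_smul, map_smul, hf'a', hf'y]
    simp
  set z' : ℕ → H := fun k => D.z k - (g (τ k) (D.z k)) • a (τ k) with hz'
  have hgz' : ∀ k, g (τ k) (z' k) = 0 := by
    intro k
    simp only [hz']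
    rw [map_sub, map_smul, hga, smul_eq_mul, mul_one, sub_self]
  set Dm : ℕ → H → H := fun m w => w - (g m w) • a m with hDm
  have hgD : ∀ m w, g m (Dm m w) = 0 := by
    intro m w
    simp only [hDm]
    rw [map_sub, map_smul, hga, smul_eq_mul, mul_one, sub_self]
  set c : ℕ → H → 𝕜 := fun k w => f' k (Dm (τ k) w) / f' k (z' k) with hc
  set C : ℕ → H → H := fun k w => Dm (τ k) w - (c k w) • z' k with hC
  -- the vectors `z' k` of a given type
  have hz'w : ∀ m, ∀ φ : H →L[𝕜] 𝕜, Tendsto (fun k => φ (D.z k - (g m (D.z k)) • a m)) atTop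
      (𝓝 0) := by
    intro m φ
    have h1 := (D.weak φ).sub ((D.weak (g m)).mul_const (φ (a m)))
    rw [zero_mul, sub_zero] at h1
    refine h1.congr fun k => ?_
    rw [map_sub, map_smul, smul_eq_mul]
  have hz'n : ∀ k, ‖z' k‖ ≤ D.M + A * D.M * A := by
    intro k
    simp only [hz']
    refine (norm_sub_le _ _).trans ?_
    rw [norm_smul]
    have h1 := D.hz k
    have h2 : ‖g (τ k) (D.z k)‖ ≤ A * D.M := (hgn _ _).trans (by gcongr)
    have h3 := han (τ k)
    gcongr
  have hden : ∀ m, ∀ᶠ k in atTop, k ∈ {k | τ k = m} → θ m / 2 ≤ ‖f' k (z' k)‖ := by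
    intro m
    have h1 : Tendsto (fun k => D.f 0 (D.z k - (g m (D.z k)) • a m) + ((θ m : ℝ) : 𝕜) *
        (1 - D.f 0 (D.z k) - (g m (D.z k)) * h k (a m))) atTop
        (𝓝 (0 + ((θ m : ℝ) : 𝕜) * (1 - 0 - 0))) := by
      refine (hz'w m (D.f 0)).add (((tendsto_const_nhds.sub (D.weak (D.f 0))).sub ?_).const_mul _)
      have h2 : Tendsto (fun k => ‖g m (D.z k)‖ * (2 * D.M * ‖a m‖)) atTop
          (𝓝 (0 * (2 * D.M * ‖a m‖))) :=
        (tendsto_zero_iff_norm_tendsto_zero.1 (D.weak (g m))).mul_const _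
      rw [zero_mul] at h2
      refine squeeze_zero_norm (fun k => ?_) h2
      rw [norm_mul]
      have := hn k (a m)
      gcongr
    have h3 := h1.norm
    rw [zero_add, sub_zero, sub_zero, mul_one, RCLike.norm_ofReal, abs_of_pos (hθpos m)] at h3
    filter_upwards [h3.eventually_const_le (half_lt_self (hθpos m))] with k hk hkm
    have hkm' : τ k = m := hkm
    refine hk.trans (le_of_eq ?_)
    congr 1
    rw [hf'a, hkm']
    simp only [hz']
    rw [hkm', map_sub (h k), map_smul (h k), hhz, smul_eq_mul]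
  have hker : ∀ m, ∀ᶠ k in atTop, k ∈ {k | τ k = m} → ∀ w, Q k (C k w) = 0 := by
    intro m
    filter_upwards [hden m] with k hk hkm w
    have h1 := hk hkm
    have h2 : f' k (z' k) ≠ 0 := norm_pos_iff.1 (lt_of_lt_of_le (half_pos (hθpos m)) h1)
    rw [hQa]
    have h3 : g (τ k) (C k w) = 0 := by
      simp only [hC]
      rw [map_sub, map_smul, hgD, hgz', smul_zero, sub_zero]
    have h4 : f' k (C k w) = 0 := by
      simp only [hC, hc]
      rw [map_sub, map_smul, smul_eq_mul, div_mul_cancel₀ _ h2, sub_self]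
    rw [h3, h4, zero_smul, zero_smul, add_zero]
  have hcb : ∀ m w, ∀ᶠ k in atTop, k ∈ {k | τ k = m} →
      ‖c k w‖ ≤ 3 * D.M * ‖Dm m w‖ / (θ m / 2) := by
    intro m w
    filter_upwards [hden m] with k hk hkm
    have h1 := hk hkm
    have hkm' : τ k = m := hkm
    simp only [hc]
    rw [norm_div, hkm']
    have h2 := hf'n k (Dm m w)
    have h3 := half_pos (hθpos m)
    gcongr
  -- the vector `u`
  obtain ⟨u, hu⟩ := exists_common (fun n : ℕ => Nat.casesOn n (D.f 0) g) (by
    intro n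
    cases n with
    | zero =>
      intro h0
      have h0' : D.f 0 = 0 := h0
      have := D.fy 0
      rw [h0'] at this
      simp at this
    | succ n =>
      intro h0
      have h0' : g n = 0 := h0
      have := hga n
      rw [h0'] at this
      simp at this)
  have hu0 : D.f 0 u ≠ 0 := hu 0
  have hu1 : ∀ m, g m u ≠ 0 := fun m => hu (m + 1)
  exact ⟨{
    Q := Q
    M := A * (A + 2 * D.M * A * ‖D.y‖) + 3 * D.M * ‖D.y‖ + 1
    hM := by
      have : 0 ≤ A * (A + 2 * D.M * A * ‖D.y‖) + 3 * D.M * ‖D.y‖ := by positivity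
      linarith
    proj := fun k v => by rw [hQa k (Q k v), hgQ, hfQ, ← hQa]
    bound := fun k v => by
      rw [hQa]
      refine (norm_add_le _ _).trans ?_
      rw [norm_smul, norm_smul]
      have h1 : ‖g (τ k) v‖ * ‖a' k‖ ≤ A * ‖v‖ * (A + 2 * D.M * A * ‖D.y‖) := by
        have := hgn (τ k) v
        have := ha'n k
        gcongr
      have h2 : ‖f' k v‖ * ‖D.y‖ ≤ 3 * D.M * ‖v‖ * ‖D.y‖ := by
        have := hf'n k v
        gcongr
      have h3 := norm_nonneg v
      nlinarith
    K := fun m => {k | τ k = m}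
    freq := fun m => by
      rw [frequently_atTop]
      intro b
      refine ⟨Nat.pair m b, Nat.right_le_pair m b, ?_⟩
      show (Nat.unpair (Nat.pair m b)).1 = m
      rw [Nat.unpair_pair]
    Dm := Dm
    C := C
    lim := fun w => by
      have h1 : Tendsto (fun m => ‖g m w‖ * A) atTop (𝓝 (0 * A)) :=
        (tendsto_zero_iff_norm_tendsto_zero.1 (hg0 w)).mul_const _
      rw [zero_mul] at h1
      have h2 : Tendsto (fun m => (g m w) • a m) atTop (𝓝 0) := by
        refine squeeze_zero_norm (fun m => ?_) h1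
        rw [norm_smul]
        have := han m
        gcongr
      have h3 := (tendsto_const_nhds (x := w)).sub h2
      rw [sub_zero] at h3
      exact h3
    ker := hker
    bdd := fun m w => ⟨‖Dm m w‖ + 3 * D.M * ‖Dm m w‖ / (θ m / 2) * (D.M + A * D.M * A), by
      filter_upwards [hcb m w] with k hk hkm
      have h1 := hk hkm
      have hkm' : τ k = m := hkm
      simp only [hC]
      refine (norm_sub_le _ _).trans ?_
      rw [norm_smul, hkm']
      have h2 := hz'n k
      have h3 : 0 ≤ 3 * D.M * ‖Dm m w‖ / (θ m / 2) := (norm_nonneg _).trans h1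
      gcongr⟩
    weak := fun m w φ κ hκ hκm => by
      have h1 : Tendsto (fun j => 3 * D.M * ‖Dm m w‖ / (θ m / 2) *
          ‖φ (D.z (κ j) - (g m (D.z (κ j))) • a m)‖) atTop
          (𝓝 (3 * D.M * ‖Dm m w‖ / (θ m / 2) * 0)) :=
        ((tendsto_zero_iff_norm_tendsto_zero.1 (hz'w m φ)).comp hκ).const_mul _
      rw [mul_zero] at h1
      have h2 : Tendsto (fun j => (c (κ j) w) * φ (z' (κ j))) atTop (𝓝 0) := by
        refine squeeze_zero_norm' ?_ h1
        filter_upwards [hκ.eventually (hcb m w)] with j hj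
        rw [norm_mul]
        have hκm' : τ (κ j) = m := hκm j
        have h3 : z' (κ j) = D.z (κ j) - (g m (D.z (κ j))) • a m := by
          simp only [hz']; rw [hκm']
        rw [h3]
        have := hj (hκm j)
        gcongr
      have h3 := (tendsto_const_nhds (x := φ (Dm m w))).sub h2
      rw [sub_zero] at h3
      refine h3.congr fun j => ?_
      have hκm' : τ (κ j) = m := hκm j
      have h4 : C (κ j) w = Dm m w - (c (κ j) w) • z' (κ j) := by
        simp only [hC]; rw [hκm']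
      rw [h4, map_sub φ (Dm m w), map_smul, smul_eq_mul]
    u := u
    ne := fun κ v b hb hκ hQv hv => by
      obtain ⟨r, hr⟩ := bounded_of_weak v (b • u) hv
      have hr0 : 0 ≤ r := (norm_nonneg _).trans (hr 0)
      have hQn := tendsto_zero_iff_norm_tendsto_zero.1 hQv
      by_cases hinf : Tendsto (fun j => τ (κ j)) atTop atTop
      · -- the types tend to infinity
        have h1 : Tendsto (fun j => 3 * D.M * ‖Q (κ j) (v j)‖ + θ (τ (κ j)) * (2 * D.M * r))
            atTop (𝓝 (3 * D.M * 0 + 0 * (2 * D.M * r))) :=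
          (hQn.const_mul _).add ((hθ0.comp hinf).mul_const _)
        rw [mul_zero, zero_mul, add_zero] at h1
        have h2 : Tendsto (fun j => D.f 0 (v j)) atTop (𝓝 0) := by
          refine squeeze_zero_norm (fun j => ?_) h1
          have h3 : D.f 0 (v j) = f' (κ j) (Q (κ j) (v j)) -
              ((θ (τ (κ j)) : ℝ) : 𝕜) * h (κ j) (v j) := by
            rw [hfQ, hf'a]; ring
          rw [h3]
          refine (norm_sub_le _ _).trans ?_
          rw [norm_mul, RCLike.norm_ofReal, abs_of_pos (hθpos _)]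
          have h4 := hf'n (κ j) (Q (κ j) (v j))
          have h5 : ‖h (κ j) (v j)‖ ≤ 2 * D.M * r := (hn _ _).trans (by
            have := hr j
            gcongr)
          have h6 := (hθpos (τ (κ j))).le
          gcongr
        have h3 := tendsto_nhds_unique h2 (hv (D.f 0))
        rw [map_smul, smul_eq_mul] at h3
        exact mul_ne_zero hb hu0 h3.symm
      · obtain ⟨m, hm⟩ : ∃ m, ∃ᶠ j in atTop, τ (κ j) = m := by
          by_contra hc
          push Not at hc
          apply hinf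
          rw [tendsto_atTop]
          intro b
          have h1 : ∀ᶠ j in atTop, ∀ m ∈ Finset.range b, τ (κ j) ≠ m :=
            (Finset.eventually_all _).2 fun m _ => hc m
          filter_upwards [h1] with j hj
          by_contra hlt
          exact hj (τ (κ j)) (Finset.mem_range.2 (by omega)) rfl
        obtain ⟨σ, hσ, hσm⟩ := extraction_of_frequently_atTop hm
        have h1 : Tendsto (fun j => A * ‖Q (κ (σ j)) (v (σ j))‖) atTop (𝓝 (A * 0)) :=
          (hQn.comp hσ.tendsto_atTop).const_mul _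
        rw [mul_zero] at h1
        have h2 : Tendsto (fun j => g m (v (σ j))) atTop (𝓝 0) := by
          refine squeeze_zero_norm (fun j => ?_) h1
          have h3 : g m (v (σ j)) = g m (Q (κ (σ j)) (v (σ j))) := by
            have := hgQ (κ (σ j)) (v (σ j))
            rw [hσm] at this
            exact this.symm
          rw [h3]
          exact hgn _ _
        have h3 := tendsto_nhds_unique h2 ((hv (g m)).comp hσ.tendsto_atTop)
        rw [map_smul, smul_eq_mul] at h3
        exact mul_ne_zero hb (hu1 m) h3.symm }⟩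

end Pool.Agent.Y609.WS
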